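import Mathlib
import Pool.Agent.W218.PF.GmomP
import Pool.Agent.W218.LF.Gmom

set_option autoImplicit false

/-! Values of a fixed polynomial: injectivity, growth, zeros modulo primes, and the moment of the differences. -/

namespace Pool.Agent.W218.PG

open Finset Pool.Agent.Erdos456 Pool.Agent.Erdos456.Mert Pool.Agent.W218.HF Pool.Agent.W218.LF Pool.Agent.W218.PF

/-- a polynomial of positive degree is injective on the large integers -/
lemma poly_inj (f : Polynomial ℤ) (hf : 1 ≤ f.natDegree) : ∃ N : ℕ, ∀ s t : ℕ, N < s → N < t → s ≠ t →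
    f.eval (s : ℤ) ≠ f.eval (t : ℤ) := by
  set F : Polynomial ℝ := f.map (Int.castRingHom ℝ) with hF
  have hd : F.natDegree = f.natDegree :=
    Polynomial.natDegree_map_eq_of_injective (RingHom.injective_int (Int.castRingHom ℝ)) f
  have hder : F.derivative ≠ 0 := by
    intro h
    have := Polynomial.natDegree_eq_zero_of_derivative_eq_zero h
    omega
  obtain ⟨M, hM⟩ : ∃ M : ℝ, ∀ r ∈ F.derivative.roots.toFinset, r ≤ M := by
    obtain ⟨M, hM⟩ := (F.derivative.roots.toFinset.finite_toSet).bddAbove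
    exact ⟨M, fun r hr => hM hr⟩
  have key : ∀ s t : ℕ, ⌈M⌉₊ < s → s < t → f.eval (s : ℤ) ≠ f.eval (t : ℤ) := by
    intro s t hs hst h
    have hsr : (s : ℝ) < t := by exact_mod_cast hst
    have hev : ∀ n : ℕ, F.eval (n : ℝ) = ((f.eval (n : ℤ) : ℤ) : ℝ) := by
      intro n
      rw [hF, Polynomial.eval_map, Polynomial.eval₂_at_natCast]
      simp
    obtain ⟨c, hc, hc0⟩ := exists_deriv_eq_zero hsr (F.continuous.continuousOn)
      (by rw [hev, hev, h] : F.eval (s : ℝ) = F.eval (t : ℝ))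
    rw [Polynomial.deriv] at hc0
    have h1 : c ∈ F.derivative.roots.toFinset := by
      rw [Multiset.mem_toFinset, Polynomial.mem_roots hder]
      exact hc0
    have h2 := hM c h1
    have h3 : M ≤ ⌈M⌉₊ := Nat.le_ceil M
    have h4 : ((⌈M⌉₊ : ℕ) : ℝ) < s := by exact_mod_cast hs
    have h5 := hc.1
    linarith
  refine ⟨⌈M⌉₊, fun s t hs ht hne h => ?_⟩
  rcases lt_or_gt_of_ne hne with h1 | h1
  · exact key s t hs h1 h
  · exact key t s ht h1 h.symm

/-- growth -/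
lemma poly_growth (f : Polynomial ℤ) : ∃ X0 : ℕ, ∀ x : ℕ, X0 ≤ x → ∀ t : ℕ, t ≤ x →
    |((f.eval (t : ℤ) : ℤ) : ℝ)| ≤ Real.exp x := by
  set C : ℝ := ∑ i ∈ range (f.natDegree + 1), |((f.coeff i : ℤ) : ℝ)| with hC
  have hC0 : 0 ≤ C := sum_nonneg fun i _ => abs_nonneg _
  have h := (Real.isLittleO_pow_exp_atTop (n := f.natDegree)).def (c := 1 / (C + 1)) (by positivity)
  have h2 : ∀ᶠ x : ℝ in Filter.atTop, C * x ^ f.natDegree ≤ Real.exp x := by
    filter_upwards [h, Filter.eventually_ge_atTop (0 : ℝ)] with x hx hx1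
    rw [Real.norm_eq_abs, Real.norm_eq_abs, abs_of_nonneg (Real.exp_pos x).le, abs_of_nonneg (by positivity)] at hx
    have h4 : (0 : ℝ) ≤ x ^ f.natDegree := by positivity
    calc C * x ^ f.natDegree ≤ (C + 1) * x ^ f.natDegree := by nlinarith
      _ ≤ (C + 1) * (1 / (C + 1) * Real.exp x) := by gcongr
      _ = Real.exp x := by field_simp
  obtain ⟨x0, hx0⟩ := Filter.eventually_atTop.1 (tendsto_natCast_atTop_atTop.eventually h2)
  refine ⟨max x0 1, fun x hx t ht => ?_⟩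
  have h3 := hx0 x ((le_max_left _ _).trans hx)
  have hx1 : (1 : ℝ) ≤ x := by exact_mod_cast (le_max_right _ _).trans hx
  refine le_trans ?_ h3
  rw [Polynomial.eval_eq_sum_range, hC, sum_mul]
  push_cast
  refine (abs_sum_le_sum_abs _ _).trans (sum_le_sum fun i hi => ?_)
  rw [abs_mul]
  apply mul_le_mul_of_nonneg_left _ (abs_nonneg _)
  have h5 : (t : ℝ) ≤ x := by exact_mod_cast ht
  have h6 : i ≤ f.natDegree := by
    have := mem_range.1 hi; omega
  rw [abs_pow, Nat.abs_cast]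
  calc (t : ℝ) ^ i ≤ (x : ℝ) ^ i := by gcongr
    _ ≤ (x : ℝ) ^ f.natDegree := pow_le_pow_right₀ hx1 h6

/-- few zeros modulo primes -/
lemma zeros_diff (f : Polynomial ℤ) (c : ℤ) (hf : 1 ≤ f.natDegree) (p : ℕ) (hp : p.Prime)
    (h0 : ¬ p ∣ f.leadingCoeff.natAbs) :
    ∃ Z ⊆ range p, Z.card ≤ f.natDegree ∧ ∀ t : ℕ, p ∣ (f.eval (t : ℤ) - c).natAbs → t % p ∈ Z := by
  classical
  have : Fact p.Prime := ⟨hp⟩
  set P : Polynomial ℤ := f - Polynomial.C c with hP
  have hPd : P.natDegree ≤ f.natDegree := by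
    rw [hP, Polynomial.natDegree_sub_C]
  have hPc : P.coeff f.natDegree = f.leadingCoeff := by
    rw [hP, Polynomial.coeff_sub, Polynomial.coeff_C, if_neg (by omega), sub_zero]
    rfl
  set Q : Polynomial (ZMod p) := P.map (Int.castRingHom (ZMod p)) with hQ
  have hev : ∀ t : ℕ, ((P.eval (t : ℤ) : ℤ) : ZMod p) = Q.eval (t : ZMod p) := by
    intro t
    rw [hQ, Polynomial.eval_map, Polynomial.eval₂_at_natCast]
    simp
  have hQ0 : Q ≠ 0 := by
    intro h
    apply h0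
    have h1 : Q.coeff f.natDegree = 0 := by rw [h]; simp
    rw [hQ, Polynomial.coeff_map, hPc] at h1
    have h2 : ((f.leadingCoeff : ℤ) : ZMod p) = 0 := by simpa using h1
    rw [ZMod.intCast_zmod_eq_zero_iff_dvd] at h2
    exact Int.natCast_dvd.1 h2
  refine ⟨(range p).filter (fun r : ℕ => Q.eval (r : ZMod p) = 0), filter_subset _ _, ?_, ?_⟩
  · have h1 : ((range p).filter (fun r : ℕ => Q.eval (r : ZMod p) = 0)).card ≤ Q.roots.toFinset.card := by
      apply card_le_card_of_injOn (fun r : ℕ => (r : ZMod p))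
      · intro r hr
        rw [mem_coe, mem_filter] at hr
        rw [mem_coe, Multiset.mem_toFinset, Polynomial.mem_roots hQ0]
        exact hr.2
      · intro r hr s hs hrs
        rw [mem_coe, mem_filter, mem_range] at hr hs
        have := (ZMod.natCast_eq_natCast_iff' r s p).1 hrs
        rwa [Nat.mod_eq_of_lt hr.1, Nat.mod_eq_of_lt hs.1] at this
    refine h1.trans ((Multiset.toFinset_card_le _).trans ((Polynomial.card_roots' Q).trans ?_))
    exact (Polynomial.natDegree_map_le).trans hPd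
  · intro t ht
    rw [mem_filter, mem_range]
    refine ⟨Nat.mod_lt _ hp.pos, ?_⟩
    have h2 : ((P.eval (t : ℤ) : ℤ) : ZMod p) = 0 := by
      rw [ZMod.intCast_zmod_eq_zero_iff_dvd, Int.natCast_dvd, hP, Polynomial.eval_sub, Polynomial.eval_C]
      exact ht
    rw [hev] at h2
    rw [ZMod.natCast_mod]
    exact h2

lemma mem_PP' {x p : ℕ} (h : p ∈ PP x) : 1 ≤ p ∧ p ≤ x ∧ p.Prime := by
  simp only [PP, mem_filter, mem_Icc] at h
  exact ⟨h.1.1, h.1.2, h.2⟩

lemma two_exp (x : ℕ) (hx : 1 ≤ x) : 2 * Real.exp x ≤ Real.exp (4 * x) := by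
  have hxr : (1 : ℝ) ≤ x := by exact_mod_cast hx
  have h1 : (2 : ℝ) ≤ Real.exp (3 * x) := by
    have := Real.add_one_le_exp (3 * (x : ℝ))
    linarith
  have h2 : Real.exp (4 * x) = Real.exp (3 * x) * Real.exp x := by
    rw [← Real.exp_add]; congr 1; ring
  rw [h2]
  exact mul_le_mul_of_nonneg_right h1 (Real.exp_pos _).le

/-- moment of the differences, integers -/
theorem mom_I (m : ℕ) (hm : 1 ≤ m) (f : Polynomial ℤ) (hf : 1 ≤ f.natDegree) : ∃ C : ℝ, 0 < C ∧ ∃ X0 : ℕ,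
    ∀ x : ℕ, X0 ≤ x → ∀ T ⊆ Icc 1 x,
    ∑ t₁ ∈ T, ∑ t₂ ∈ T, GG (f.eval (t₁ : ℤ) - f.eval (t₂ : ℤ)).natAbs ^ m ≤ C * (x : ℝ) ^ 2 := by
  obtain ⟨C, hC, h⟩ := gmom m f.natDegree hm
  obtain ⟨X0, hX0⟩ := poly_growth f
  have hg : 0 < f.leadingCoeff.natAbs := by
    rw [Int.natAbs_pos]
    intro h0
    rw [Polynomial.leadingCoeff_eq_zero] at h0
    rw [h0] at hf
    simp at hf
  refine ⟨C * GG f.leadingCoeff.natAbs ^ m + 1, by have := GG_nonneg f.leadingCoeff.natAbs; positivity,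
    max X0 1, fun x hx T hT => ?_⟩
  have hx1 : 1 ≤ x := (le_max_right _ _).trans hx
  have hxr : (1 : ℝ) ≤ x := by exact_mod_cast hx1
  have hG := GG_nonneg f.leadingCoeff.natAbs
  have hinner : ∀ t₁ ∈ T, ∑ t₂ ∈ T, GG (f.eval (t₁ : ℤ) - f.eval (t₂ : ℤ)).natAbs ^ m ≤
      C * GG f.leadingCoeff.natAbs ^ m * x := by
    intro t₁ ht₁
    have h1 := h x (fun t => f.eval (t : ℤ) - f.eval (t₁ : ℤ)) f.leadingCoeff.natAbs hx1 hg (by
      intro t ht
      have ht' := mem_Icc.1 ht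
      have ht1' := mem_Icc.1 (hT ht₁)
      rw [Nat.cast_natAbs]
      push_cast
      have h2 := hX0 x ((le_max_left _ _).trans hx) t ht'.2
      have h3 := hX0 x ((le_max_left _ _).trans hx) t₁ ht1'.2
      have h4 := abs_sub ((f.eval (t : ℤ) : ℤ) : ℝ) ((f.eval (t₁ : ℤ) : ℤ) : ℝ)
      have h5 := two_exp x hx1
      linarith) (fun p hp hpd => zeros_diff f _ hf p hp hpd)
    refine le_trans ?_ h1
    refine (sum_le_sum_of_subset_of_nonneg hT fun i _ _ => pow_nonneg (GG_nonneg _) _).trans (le_of_eq ?_)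
    apply sum_congr rfl
    intro t _
    rw [← Int.natAbs_neg, neg_sub]
  refine (sum_le_sum hinner).trans ?_
  rw [sum_const, nsmul_eq_mul]
  have h6 : (T.card : ℝ) ≤ x := by
    have := card_le_card hT
    rw [Nat.card_Icc, Nat.add_sub_cancel] at this
    exact_mod_cast this
  calc (T.card : ℝ) * (C * GG f.leadingCoeff.natAbs ^ m * x) ≤ x * (C * GG f.leadingCoeff.natAbs ^ m * x) := by gcongr
    _ ≤ (C * GG f.leadingCoeff.natAbs ^ m + 1) * (x : ℝ) ^ 2 := by nlinarith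

/-- moment of the differences, primes -/
theorem mom_P (m : ℕ) (hm : 1 ≤ m) (f : Polynomial ℤ) (hf : 1 ≤ f.natDegree) : ∃ C : ℝ, 0 < C ∧ ∃ X0 : ℕ,
    ∀ x : ℕ, X0 ≤ x → ∀ T ⊆ PP x,
    ∑ t₁ ∈ T, ∑ t₂ ∈ T, GG (f.eval (t₁ : ℤ) - f.eval (t₂ : ℤ)).natAbs ^ m ≤ C * ((x : ℝ) / Real.log x) * T.card := by
  obtain ⟨C, hC, h⟩ := gmomP m f.natDegree hm
  obtain ⟨X0, hX0⟩ := poly_growth f
  have hg : 0 < f.leadingCoeff.natAbs := by
    rw [Int.natAbs_pos]
    intro h0
    rw [Polynomial.leadingCoeff_eq_zero] at h0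
    rw [h0] at hf
    simp at hf
  refine ⟨C * GG f.leadingCoeff.natAbs ^ m + 1, by have := GG_nonneg f.leadingCoeff.natAbs; positivity,
    max X0 2, fun x hx T hT => ?_⟩
  have hx2 : 2 ≤ x := (le_max_right _ _).trans hx
  have hx1 : 1 ≤ x := by omega
  have hxr : (2 : ℝ) ≤ x := by exact_mod_cast hx2
  have hlx : 0 < Real.log x := Real.log_pos (by linarith)
  have hG := GG_nonneg f.leadingCoeff.natAbs
  have hinner : ∀ t₁ ∈ T, ∑ t₂ ∈ T, GG (f.eval (t₁ : ℤ) - f.eval (t₂ : ℤ)).natAbs ^ m ≤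
      C * GG f.leadingCoeff.natAbs ^ m * (x / Real.log x) := by
    intro t₁ ht₁
    have h1 := h x (fun t => f.eval (t : ℤ) - f.eval (t₁ : ℤ)) f.leadingCoeff.natAbs hx2 hg (by
      intro t ht
      have ht' := mem_PP' ht
      have ht1' := mem_PP' (hT ht₁)
      rw [Nat.cast_natAbs]
      push_cast
      have h2 := hX0 x ((le_max_left _ _).trans hx) t ht'.2.1
      have h3 := hX0 x ((le_max_left _ _).trans hx) t₁ ht1'.2.1
      have h4 := abs_sub ((f.eval (t : ℤ) : ℤ) : ℝ) ((f.eval (t₁ : ℤ) : ℤ) : ℝ)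
      have h5 := two_exp x hx1
      linarith) (fun p hp hpd => zeros_diff f _ hf p hp hpd)
    refine le_trans ?_ h1
    refine (sum_le_sum_of_subset_of_nonneg hT fun i _ _ => pow_nonneg (GG_nonneg _) _).trans (le_of_eq ?_)
    apply sum_congr rfl
    intro t _
    rw [← Int.natAbs_neg, neg_sub]
  refine (sum_le_sum hinner).trans ?_
  rw [sum_const, nsmul_eq_mul]
  have h7 : (0 : ℝ) ≤ (x / Real.log x) * T.card := by positivity
  calc (T.card : ℝ) * (C * GG f.leadingCoeff.natAbs ^ m * (x / Real.log x)) =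
        (C * GG f.leadingCoeff.natAbs ^ m) * ((x / Real.log x) * T.card) := by ring
    _ ≤ (C * GG f.leadingCoeff.natAbs ^ m + 1) * ((x / Real.log x) * T.card) := by gcongr; linarith
    _ = _ := by ring

end Pool.Agent.W218.PG
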