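import Mathlib
import Pool.Agent.W218.PF.Rough3

set_option autoImplicit false

/-! Lower bounds for the number of integers, and of primes, up to `x` which avoid given residue classes modulo the
primes up to `z`. -/

namespace Pool.Agent.W218.PG

open Finset Pool.Agent.Erdos456 Pool.Agent.Erdos456.Mert Pool.Agent.W218.HF Pool.Agent.W218.LF Pool.Agent.W218.PF
open H343E hiding TT

/-- periodic counting, lower bound -/
lemma cplow (m : ℕ) (hm : 0 < m) (Q : ℕ → Prop) [DecidablePred Q] (hQ : Function.Periodic Q m) (H : ℕ) :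
    (H / m) * ((range m).filter Q).card ≤ ((Icc 1 H).filter Q).card := by
  have h1 : ∀ t, ((Ico 1 (1 + t * m)).filter Q).card = t * ((range m).filter Q).card := by
    intro t
    induction t with
    | zero => simp
    | succ t ih =>
      have h2 : Ico 1 (1 + (t + 1) * m) = Ico 1 (1 + t * m) ∪ Ico (1 + t * m) (1 + t * m + m) := by
        rw [Ico_union_Ico_eq_Ico (by omega) (by omega)]
        congr 1; ring
      rw [h2, filter_union, card_union_of_disjoint, ih, Nat.filter_Ico_card_eq_of_periodic _ _ _ hQ,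
        Nat.count_eq_card_filter_range]
      · ring
      · exact disjoint_filter_filter (Ico_disjoint_Ico_consecutive _ _ _)
  rw [← h1]
  apply card_le_card
  apply filter_subset_filter
  intro u hu
  rw [mem_Ico] at hu
  rw [mem_Icc]
  have := Nat.div_mul_le_self H m
  omega

lemma count_low_real (m : ℕ) (hm : 0 < m) (Q : ℕ → Prop) [DecidablePred Q] (hQ : Function.Periodic Q m) (H : ℕ) :
    ((H : ℝ) - m) * ((((range m).filter Q).card : ℝ) / m) ≤ (((Icc 1 H).filter Q).card : ℝ) := by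
  have h1 : ((H / m : ℕ) : ℝ) * (((range m).filter Q).card : ℝ) ≤ (((Icc 1 H).filter Q).card : ℝ) := by
    exact_mod_cast cplow m hm Q hQ H
  refine le_trans ?_ h1
  have hm0 : (0 : ℝ) < m := by exact_mod_cast hm
  have h2 : (H : ℝ) / m - 1 ≤ ((H / m : ℕ) : ℝ) := by
    have h3 := Nat.lt_succ_floor ((H : ℝ) / m)
    rw [Nat.floor_div_eq_div] at h3
    push_cast at h3
    linarith
  have h3 : ((H : ℝ) - m) * ((((range m).filter Q).card : ℝ) / m) =
      ((H : ℝ) / m - 1) * (((range m).filter Q).card : ℝ) := by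
    field_simp
  rw [h3]
  exact mul_le_mul_of_nonneg_right h2 (by positivity)

open Classical in
/-- the number of bad classes -/
noncomputable def wI (V : ℕ → ℕ → Prop) (p : ℕ) : ℕ := ((range p).filter (fun r => V p r)).card

open Classical in
/-- the number of bad classes, the class of zero included -/
noncomputable def wP (V : ℕ → ℕ → Prop) (p : ℕ) : ℕ := ((range p).filter (fun r => p ∣ r ∨ V p r)).card

lemma wI_le (V : ℕ → ℕ → Prop) (p : ℕ) : wI V p ≤ p := by
  classical
  unfold wI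
  exact (card_filter_le _ _).trans (by simp)

lemma wP_le (V : ℕ → ℕ → Prop) (p : ℕ) : wP V p ≤ p := by
  classical
  unfold wP
  exact (card_filter_le _ _).trans (by simp)

lemma prod_cast (z : ℕ) (w : ℕ → ℕ) (hw : ∀ p, w p ≤ p) :
    (((∏ p ∈ PS z, (p - w p) : ℕ)) : ℝ) / ((∏ p ∈ PS z, p : ℕ) : ℝ) = ∏ p ∈ PS z, (1 - (w p : ℝ) / p) := by
  push_cast
  rw [← prod_div_distrib]
  apply prod_congr rfl
  intro p hp
  have hp0 : (p : ℝ) ≠ 0 := by
    have := (prime_PS hp).pos
    positivity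
  rw [Nat.cast_sub (hw p)]
  field_simp

open Classical in
lemma classes (z : ℕ) (Q : ℕ → ℕ → Prop) (hQ : ∀ p ∈ PS z, ∀ t, Q p (t % p) ↔ Q p t) :
    ((range (∏ p ∈ PS z, p)).filter (fun u : ℕ => ∀ p ∈ PS z, ¬ Q p u)).card =
      ∏ p ∈ PS z, (p - ((range p).filter (fun r => Q p r)).card) := by
  have h2 := Pool.Agent.H373R2.BH.crt_count (PS z) (fun p hp => prime_PS hp) (fun p r => ¬ Q p r)
  have h3 : ((range (∏ p ∈ PS z, p)).filter (fun u : ℕ => ∀ p ∈ PS z, ¬ Q p u)).card =
      ((range (∏ p ∈ PS z, p)).filter (fun r : ℕ => ∀ p ∈ PS z, ¬ Q p (r % p))).card := by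
    congr 1
    apply filter_congr
    intro u _
    constructor
    · intro h p hp; rw [hQ p hp]; exact h p hp
    · intro h p hp; rw [← hQ p hp]; exact h p hp
  rw [h3, h2]
  apply prod_congr rfl
  intro p _
  have h4 := card_filter_add_card_filter_not (s := range p) (fun r : ℕ => Q p r)
  rw [card_range] at h4
  omega

open Classical in
/-- integers avoiding classes -/
theorem rough_I (z y0 : ℕ) (ε : ℝ) (hε : 0 < ε) : ∃ x0 : ℕ, ∀ x : ℕ, x0 ≤ x →
    ∀ (V : ℕ → ℕ → Prop), (∀ p ∈ PS z, ∀ t, V p (t % p) ↔ V p t) →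
    (1 - ε) * (∏ p ∈ PS z, (1 - (wI V p : ℝ) / p)) * x ≤
      (((Ioc y0 x).filter (fun t : ℕ => ∀ p ∈ PS z, ¬ V p t)).card : ℝ) := by
  set M : ℕ := ∏ p ∈ PS z, p with hM
  have hM0 : 0 < M := prod_pos fun p hp => (prime_PS hp).pos
  have hMr : (0 : ℝ) < M := by exact_mod_cast hM0
  refine ⟨⌈2 * (M + y0 * M) / ε⌉₊, fun x hx V hV => ?_⟩
  have hxr : 2 * (M + y0 * M) / ε ≤ (x : ℝ) := (Nat.le_ceil _).trans (by exact_mod_cast hx)
  have hx2 : 2 * (M + y0 * M : ℝ) ≤ ε * x := by
    rw [div_le_iff₀ hε] at hxr; linarith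
  have hx0 : (0 : ℝ) ≤ x := Nat.cast_nonneg x
  have hper : Function.Periodic (fun t : ℕ => ∀ p ∈ PS z, ¬ V p t) M := by
    intro t
    simp only [eq_iff_iff]
    apply forall_congr'
    intro p
    apply forall_congr'
    intro hp
    rw [not_iff_not, ← hV p hp, ← hV p hp t]
    have : (t + M) % p = t % p := by
      obtain ⟨k, hk⟩ := dvd_prod_of_mem (fun p => p) hp
      rw [hM, hk, Nat.add_mul_mod_self_left]
    rw [this]
  have h := count_low_real M hM0 _ hper x
  have hcl := classes z V hV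
  have hcl' : (((range M).filter (fun u : ℕ => ∀ p ∈ PS z, ¬ V p u)).card : ℝ) / M =
      ∏ p ∈ PS z, (1 - (wI V p : ℝ) / p) := by
    rw [← prod_cast z (wI V) (wI_le V)]
    congr 1
    have : ((range M).filter (fun u : ℕ => ∀ p ∈ PS z, ¬ V p u)).card = ∏ p ∈ PS z, (p - wI V p) := by
      rw [hM, hcl]; rfl
    exact_mod_cast this
  set Qd : ℝ := ∏ p ∈ PS z, (1 - (wI V p : ℝ) / p) with hQd
  have hh : ((x : ℝ) - M) * Qd ≤ (((Icc 1 x).filter (fun t : ℕ => ∀ p ∈ PS z, ¬ V p t)).card : ℝ) := by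
    rw [← hcl']
    convert h using 3
  have hsub : (((Icc 1 x).filter (fun t : ℕ => ∀ p ∈ PS z, ¬ V p t)).card : ℝ) ≤
      (((Ioc y0 x).filter (fun t : ℕ => ∀ p ∈ PS z, ¬ V p t)).card : ℝ) + y0 := by
    have h1 : (Icc 1 x).filter (fun t : ℕ => ∀ p ∈ PS z, ¬ V p t) ⊆
        (Ioc y0 x).filter (fun t : ℕ => ∀ p ∈ PS z, ¬ V p t) ∪ Icc 1 y0 := by
      intro t ht
      rw [mem_filter, mem_Icc] at ht
      rw [mem_union, mem_filter, mem_Ioc, mem_Icc]
      by_cases h2 : y0 < t
      · exact Or.inl ⟨⟨h2, ht.1.2⟩, ht.2⟩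
      · right; omega
    have h2 := (card_le_card h1).trans (card_union_le _ _)
    rw [Nat.card_Icc, Nat.add_sub_cancel] at h2
    exact_mod_cast h2
  have hN : Qd = 0 ∨ 1 / (M : ℝ) ≤ Qd := by
    rw [← hcl']
    rcases Nat.eq_zero_or_pos ((range M).filter (fun u : ℕ => ∀ p ∈ PS z, ¬ V p u)).card with h0 | h0
    · left; rw [h0]; simp
    · right
      have : (1 : ℝ) ≤ (((range M).filter (fun u : ℕ => ∀ p ∈ PS z, ¬ V p u)).card : ℝ) := by exact_mod_cast h0
      gcongr
  rcases hN with h0 | h0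
  · rw [h0]; simp
  have hQ0 : 0 < Qd := lt_of_lt_of_le (by positivity) h0
  have hM1 : 1 ≤ M * Qd := by
    rw [div_le_iff₀ hMr] at h0; linarith
  have h3 : (y0 : ℝ) ≤ y0 * (M * Qd) := by
    have : (0 : ℝ) ≤ y0 := Nat.cast_nonneg _
    nlinarith
  have h4 : (M : ℝ) * Qd + y0 * (M * Qd) ≤ ε * x / 2 * Qd := by
    calc (M : ℝ) * Qd + y0 * (M * Qd) = (M + y0 * M) * Qd := by ring
      _ ≤ (ε * x / 2) * Qd := by
          apply mul_le_mul_of_nonneg_right _ hQ0.le
          linarith
  have h5 : 0 ≤ ε * x / 2 * Qd := by positivity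
  nlinarith

open Classical in
/-- primes avoiding classes -/
theorem rough_P (z y0 : ℕ) (ε : ℝ) (hε : 0 < ε) : ∃ x0 : ℕ, ∀ x : ℕ, x0 ≤ x →
    ∀ (V : ℕ → ℕ → Prop), (∀ p ∈ PS z, ∀ t, V p (t % p) ↔ V p t) →
    (1 - ε) * (∏ p ∈ PS z, (1 - (wP V p : ℝ) / p)) / Wz z * (x / Real.log x) ≤
      (((TT x y0).filter (fun t : ℕ => ∀ p ∈ PS z, ¬ V p t)).card : ℝ) := by
  set P : ℕ := ∏ p ∈ PS z, p with hP
  have hP1 : 1 ≤ P := Nat.succ_le_of_lt (prod_pos fun p hp => (prime_PS hp).pos)
  have hP0 : (0 : ℝ) < P := by exact_mod_cast hP1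
  obtain ⟨K, X0, hBV⟩ := bvR 2
  obtain ⟨x1, hx1⟩ := isLittle K ((P : ℝ) ^ 2) (by positivity)
  obtain ⟨x2, hx2⟩ := pnt_low (ε / 3) (by positivity)
  obtain ⟨x3, hx3⟩ := isLittle 1 (3 * (y0 + 1 : ℝ) * P / ε) (by positivity)
  refine ⟨max (max X0 x1) (max (max x2 x3) (max 3 ⌈Real.exp (3 * P / ε)⌉₊)), ?_⟩
  intro x hx V hV
  have hxX0 : X0 ≤ x := ((le_max_left _ _).trans (le_max_left _ _)).trans hx
  have hxx1 : x1 ≤ x := ((le_max_right _ _).trans (le_max_left _ _)).trans hx
  have hxx2 : x2 ≤ x := ((le_max_left _ _).trans ((le_max_left _ _).trans (le_max_right _ _))).trans hx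
  have hxx3 : x3 ≤ x := ((le_max_right _ _).trans ((le_max_left _ _).trans (le_max_right _ _))).trans hx
  have hx3' : 3 ≤ x := ((le_max_left _ _).trans ((le_max_right _ _).trans (le_max_right _ _))).trans hx
  have hxe : ⌈Real.exp (3 * P / ε)⌉₊ ≤ x :=
    ((le_max_right _ _).trans ((le_max_right _ _).trans (le_max_right _ _))).trans hx
  have hxr : (3 : ℝ) ≤ x := by exact_mod_cast hx3'
  have hx0 : (0 : ℝ) < x := by linarith
  have hlx1 : 1 ≤ Real.log x := by
    rw [Real.le_log_iff_exp_le hx0]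
    have := Real.exp_one_lt_d9
    linarith
  have hlx0 : 0 < Real.log x := by linarith
  have hlxP : 3 * P / ε ≤ Real.log x := by
    rw [Real.le_log_iff_exp_le hx0]
    exact (Nat.le_ceil _).trans (by exact_mod_cast hxe)
  have hPsq : (P : ℝ) ^ 2 ≤ x / Real.log x ^ K := by
    rw [le_div_iff₀ (by positivity)]
    exact hx1 x hxx1
  have hPle : (P : ℝ) ≤ x / Real.log x ^ K := by
    refine le_trans ?_ hPsq
    have : P ≤ P ^ 2 := Nat.le_self_pow (by norm_num) P
    exact_mod_cast this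
  have hPNT := hx2 x hxx2
  have hy0x := hx3 x hxx3
  rw [pow_one] at hy0x
  set Gd := (range P).filter (fun u : ℕ => ∀ p ∈ PS z, ¬ (p ∣ u ∨ V p u)) with hGd
  have hcard : Gd.card = ∏ p ∈ PS z, (p - wP V p) := by
    have h := classes z (fun p r => p ∣ r ∨ V p r) (by
      intro p hp t
      have h1 : p ∣ t % p ↔ p ∣ t := (Nat.dvd_mod_iff dvd_rfl)
      rw [h1, hV p hp])
    rw [hGd, hP]
    refine Eq.trans ?_ (h.trans ?_)
    · congr
    · apply prod_congr rfl
      intro p _
      unfold wP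
      congr
  have hφ : Nat.totient P = ∏ p ∈ PS z, (p - 1) := by
    have : ∀ s : Finset ℕ, (∀ p ∈ s, p.Prime) → Nat.totient (∏ p ∈ s, p) = ∏ p ∈ s, (p - 1) := by
      intro s hs
      induction s using Finset.induction_on with
      | empty => simp
      | insert p s hp ih =>
        rw [prod_insert hp, prod_insert hp, Nat.totient_mul, Nat.totient_prime (hs p (mem_insert_self _ _)),
          ih fun q hq => hs q (mem_insert_of_mem hq)]
        exact Nat.Coprime.prod_right fun q hq =>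
          (Nat.coprime_primes (hs p (mem_insert_self _ _)) (hs q (mem_insert_of_mem hq))).2 (by
            rintro rfl; exact hp hq)
    exact this (PS z) fun p hp => prime_PS hp
  have hφ0 : (0 : ℝ) < Nat.totient P := by exact_mod_cast Nat.totient_pos.2 (by omega)
  have hφP : (Nat.totient P : ℝ) ≤ P := by exact_mod_cast Nat.totient_le P
  -- the product
  have hFeq : (∏ p ∈ PS z, (1 - (wP V p : ℝ) / p)) / Wz z = Gd.card / Nat.totient P := by
    have hWz : Wz z = ∏ p ∈ PS z, (1 - 1 / (p : ℝ)) := by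
      unfold Wz; rw [PS_eq]
    rw [hWz, hcard, hφ, ← prod_div_distrib]
    push_cast
    rw [← prod_div_distrib]
    apply prod_congr rfl
    intro p hp
    have hpp := prime_PS hp
    have hp1 : 1 ≤ p := hpp.one_lt.le
    rw [Nat.cast_sub (wP_le _ _), Nat.cast_sub hp1]
    have hp0 : (0 : ℝ) < p := by exact_mod_cast hpp.pos
    have hp2 : (2 : ℝ) ≤ p := by exact_mod_cast hpp.two_le
    have hpm : (p : ℝ) - 1 ≠ 0 := by
      have : (0 : ℝ) < (p : ℝ) - 1 := by linarith
      exact this.ne'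
    have e1 : 1 - 1 / (p : ℝ) = ((p : ℝ) - 1) / p := by field_simp
    have e2 : (1 - (wP V p : ℝ) / p) = ((p : ℝ) - wP V p) / p := by
      field_simp
    rw [e1, e2]
    push_cast
    field_simp
  rcases Nat.eq_zero_or_pos Gd.card with hG0 | hN1
  · have : (1 - ε) * (∏ p ∈ PS z, (1 - (wP V p : ℝ) / p)) / Wz z * (x / Real.log x) = 0 := by
      rw [mul_div_assoc, hFeq, hG0]; simp
    rw [this]
    exact Nat.cast_nonneg _
  -- each good class
  have hclass : ∀ r ∈ Gd, pi1 x / (Nat.totient P : ℝ) - x / Real.log x ^ 2 ≤ piAP x P r := by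
    intro r hr
    rw [hGd, mem_filter, mem_range] at hr
    have hcop : IsCoprime (P : ℤ) (r : ℤ) := by
      rw [Nat.isCoprime_iff_coprime, hP]
      apply Nat.Coprime.prod_left
      intro p hp
      rw [(prime_PS hp).coprime_iff_not_dvd]
      intro hpr
      exact hr.2 p hp (Or.inl hpr)
    have h := hBV x hxX0 P hPle hPsq (fun _ => (r : ℤ)) {P} (by
      rw [singleton_subset_iff, mem_Icc]; exact ⟨hP1, le_rfl⟩) (by
      intro t ht
      rw [mem_singleton] at ht
      rw [ht]; exact hcop)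
    rw [sum_singleton] at h
    have e : ((r : ℤ) % (P : ℤ)).toNat = r := by
      rw [← Int.natCast_mod, Int.toNat_natCast, Nat.mod_eq_of_lt hr.1]
    rw [e] at h
    have := (abs_le.1 h).1
    linarith
  -- the rough count
  have hcount : ∑ r ∈ Gd, piAP x P r ≤
      (((TT x y0).filter (fun t : ℕ => ∀ p ∈ PS z, ¬ V p t)).card : ℝ) + (y0 + 1 : ℝ) := by
    have h1 : ∑ r ∈ Gd, piAP x P r =
        (((Gd.biUnion fun r => (Icc 1 x).filter (fun p => p.Prime ∧ p ≡ r [MOD P])).card : ℕ) : ℝ) := by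
      rw [card_biUnion]
      · push_cast
        rfl
      · intro r hr s hs hrs
        rw [Function.onFun, disjoint_left]
        intro p hp hp'
        rw [mem_filter] at hp hp'
        rw [mem_coe, hGd, mem_filter, mem_range] at hr hs
        apply hrs
        have h2 : r ≡ s [MOD P] := hp.2.2.symm.trans hp'.2.2
        exact Nat.ModEq.eq_of_lt_of_lt h2 hr.1 hs.1
    rw [h1]
    have h2 : (Gd.biUnion fun r => (Icc 1 x).filter (fun p => p.Prime ∧ p ≡ r [MOD P])) ⊆
        ((TT x y0).filter (fun t : ℕ => ∀ p ∈ PS z, ¬ V p t)) ∪ range (y0 + 1) := by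
      intro t ht
      rw [mem_biUnion] at ht
      obtain ⟨r, hr, ht⟩ := ht
      rw [mem_filter, mem_Icc] at ht
      rw [hGd, mem_filter, mem_range] at hr
      rw [mem_union, mem_range]
      by_cases hty : t ≤ y0
      · right; omega
      · left
        rw [mem_filter]
        refine ⟨?_, ?_⟩
        · unfold TT
          simp only [PP, mem_filter, mem_Icc]
          exact ⟨⟨⟨ht.1.1, ht.1.2⟩, ht.2.1⟩, by omega⟩
        · intro p hp hVt
          apply hr.2 p hp
          right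
          have h4 : t % p = r % p := by
            have : t ≡ r [MOD p] := ht.2.2.of_dvd (dvd_prod_of_mem (fun p => p) hp)
            exact this
          rw [← hV p hp, ← h4, hV p hp]
          exact hVt
    have h3 := (card_le_card h2).trans (card_union_le _ _)
    rw [card_range] at h3
    exact_mod_cast h3
  -- combine
  have hWz0 := Wz_pos z
  have hsum := sum_le_sum hclass
  rw [sum_const, nsmul_eq_mul] at hsum
  set N : ℝ := (Gd.card : ℝ) with hN
  have hN0 : 1 ≤ N := by rw [hN]; exact_mod_cast hN1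
  set X : ℝ := x / Real.log x with hX
  have hX0 : 0 < X := by rw [hX]; positivity
  have hXl : x / Real.log x ^ 2 = X / Real.log x := by rw [hX]; field_simp
  rw [mul_div_assoc, hFeq]
  have g1 : N * (X / Real.log x) ≤ ε / 3 * (N / Nat.totient P) * X := by
    have h1 : (Nat.totient P : ℝ) ≤ ε / 3 * Real.log x := by
      rw [div_le_iff₀ hε] at hlxP
      linarith
    have h2 : 1 / Real.log x ≤ ε / 3 / Nat.totient P := by
      rw [div_le_div_iff₀ hlx0 hφ0]; linarith
    calc N * (X / Real.log x) = N * X * (1 / Real.log x) := by ring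
      _ ≤ N * X * (ε / 3 / Nat.totient P) := by gcongr
      _ = _ := by ring
  have g2 : (y0 + 1 : ℝ) ≤ ε / 3 * (N / Nat.totient P) * X := by
    have h1 : 3 * (y0 + 1 : ℝ) * P / ε ≤ X := by
      rw [hX, le_div_iff₀ hlx0]; exact hy0x
    have h2 : (1 : ℝ) / P ≤ N / Nat.totient P := by
      rw [div_le_div_iff₀ hP0 hφ0]
      calc 1 * (Nat.totient P : ℝ) ≤ 1 * P := by linarith
        _ ≤ N * P := mul_le_mul_of_nonneg_right hN0 hP0.le
    calc (y0 + 1 : ℝ) = ε / 3 * (1 / P) * (3 * (y0 + 1 : ℝ) * P / ε) := by field_simp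
      _ ≤ ε / 3 * (N / Nat.totient P) * X := by gcongr
  have g3 : (1 - ε / 3) * (N / Nat.totient P) * X ≤ N * (pi1 x / (Nat.totient P : ℝ)) := by
    calc (1 - ε / 3) * (N / Nat.totient P) * X = (N / Nat.totient P) * ((1 - ε / 3) * X) := by ring
      _ ≤ (N / Nat.totient P) * pi1 x := by gcongr
      _ = _ := by ring
  rw [hXl, mul_sub] at hsum
  have e4 : (1 - ε) * (N / Nat.totient P) * X = (1 - ε / 3) * (N / Nat.totient P) * X -
      ε / 3 * (N / Nat.totient P) * X - ε / 3 * (N / Nat.totient P) * X := by ring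
  rw [e4]
  linarith

end Pool.Agent.W218.PG
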