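import Mathlib
import Pool.Agent.W218.PF.Main4
import Pool.Agent.W218.PG.Rough
import Pool.Agent.W218.PG.Poly

set_option autoImplicit false

/-! Prime values of `F_i(t) + b_i`, where the `F_i` are fixed polynomials and the constant terms `b_i` vary. -/

namespace Pool.Agent.W218.PG

open Finset Pool.Agent.Erdos456 Pool.Agent.Erdos456.Mert Pool.Agent.W218.HF Pool.Agent.W218.LF Pool.Agent.W218.PF

/-- the classes `t` mod `p` for which some `F_i(t) + b_i` is divisible by `p` -/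
def Vf {k : ℕ} (F : Fin k → Polynomial ℤ) (b : Fin k → ℕ) (p t : ℕ) : Prop :=
  ∃ i, (p : ℤ) ∣ (F i).eval (t : ℤ) + b i

lemma Vf_mod {k : ℕ} (F : Fin k → Polynomial ℤ) (b : Fin k → ℕ) (p t : ℕ) :
    Vf F b p (t % p) ↔ Vf F b p t := by
  unfold Vf
  apply exists_congr
  intro i
  have h1 : ((t : ℤ) - ((t % p : ℕ) : ℤ)) ∣ (F i).eval (t : ℤ) - (F i).eval ((t % p : ℕ) : ℤ) :=
    (F i).sub_dvd_eval_sub _ _
  have h2 : (p : ℤ) ∣ (t : ℤ) - ((t % p : ℕ) : ℤ) := by
    push_cast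
    exact Int.dvd_self_sub_emod
  have h3 := h2.trans h1
  have e : (F i).eval (t : ℤ) + b i =
      ((F i).eval (t : ℤ) - (F i).eval ((t % p : ℕ) : ℤ)) + ((F i).eval ((t % p : ℕ) : ℤ) + b i) := by ring
  rw [e]
  exact (dvd_add_right h3).symm

/-- the Euler product of `F_i + b_i`, cut at `z` -/
noncomputable def EI {k : ℕ} (F : Fin k → Polynomial ℤ) (b : Fin k → ℕ) (z : ℕ) : ℝ :=
  ∏ p ∈ PS z, (((1 - 1 / (p : ℝ)) ^ k)⁻¹ * (1 - (wI (Vf F b) p : ℝ) / p))

/-- the number of `1 ≤ t ≤ x` with all `F_i(t) + b_i` prime -/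
def cntI {k : ℕ} (F : Fin k → Polynomial ℤ) (b : Fin k → ℕ) (x : ℕ) : ℕ :=
  ((Icc 1 x).filter (fun t : ℕ => ∀ i, ((F i).eval (t : ℤ) + b i).toNat.Prime)).card

lemma Wz_PS (z : ℕ) : Wz z = ∏ p ∈ PS z, (1 - 1 / (p : ℝ)) := by
  unfold Wz; rw [PS_eq]

lemma EI_eq {k : ℕ} (F : Fin k → Polynomial ℤ) (b : Fin k → ℕ) (z : ℕ) :
    EI F b z = (∏ p ∈ PS z, (1 - (wI (Vf F b) p : ℝ) / p)) / Wz z ^ k := by
  unfold EI
  rw [Wz_PS, prod_mul_distrib, prod_inv_distrib, prod_pow]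
  field_simp

lemma prodI_nonneg (V : ℕ → ℕ → Prop) (z : ℕ) : 0 ≤ ∏ p ∈ PS z, (1 - (wI V p : ℝ) / p) := by
  apply prod_nonneg
  intro p hp
  have h1 : (0 : ℝ) < p := by exact_mod_cast (prime_PS hp).pos
  have h2 : (wI V p : ℝ) ≤ p := by exact_mod_cast wI_le V p
  rw [sub_nonneg, div_le_one h1]
  exact h2

lemma prodP_nonneg (V : ℕ → ℕ → Prop) (z : ℕ) : 0 ≤ ∏ p ∈ PS z, (1 - (wP V p : ℝ) / p) := by
  apply prod_nonneg
  intro p hp
  have h1 : (0 : ℝ) < p := by exact_mod_cast (prime_PS hp).pos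
  have h2 : (wP V p : ℝ) ≤ p := by exact_mod_cast wP_le V p
  rw [sub_nonneg, div_le_one h1]
  exact h2

lemma roughS_Vf {k : ℕ} (F : Fin k → Polynomial ℤ) (b : Fin k → ℕ) (z : ℕ) (T : Finset ℕ)
    [DecidablePred fun t : ℕ => ∀ p ∈ PS z, ¬ Vf F b p t] :
    roughS z (fun i t => (F i).eval (t : ℤ)) b T = (T.filter (fun t : ℕ => ∀ p ∈ PS z, ¬ Vf F b p t)).card := by
  unfold roughS
  congr 1
  apply filter_congr
  intro t _
  constructor
  · rintro h p hp ⟨i, hi⟩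
    refine h i p ?_ (prime_PS hp) hi
    have := (mem_filter.1 hp).1
    rw [mem_range] at this
    omega
  · intro h i p hpz hpp hd
    exact h p (by
      unfold PS
      rw [mem_filter, mem_range]; exact ⟨by omega, hpp⟩) ⟨i, hd⟩

open Classical in
theorem mainI (k : ℕ) (hk : 1 ≤ k) (F : Fin k → Polynomial ℤ) (hF : ∀ i, 1 ≤ (F i).natDegree)
    (c : ℝ) (hc : 0 < c) (θ : ℝ) (hθ : θ < 1) : ∃ κ : ℝ, 0 < κ ∧ ∀ z : ℕ, ∃ x0 : ℕ, ∀ x : ℕ, x0 ≤ x →
    ∀ B : ℕ, x ≤ B → c * Real.log B ^ k ≤ x →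
    (∀ i, ∀ t : ℕ, 1 ≤ t → t ≤ x → |(((F i).eval (t : ℤ) : ℤ) : ℝ)| ≤ κ * B) →
    κ * B ^ k ≤ (((Fintype.piFinset (fun _ : Fin k => Ioc B (2 * B))).filter (fun b =>
      θ * EI F b z * (x / Real.log B ^ k) ≤ cntI F b x ∧
      κ * (x / Real.log B ^ k) ≤ cntI F b x)).card : ℝ) := by
  set θ₀ : ℝ := max θ 0 with hθ₀
  have hθ0 : 0 ≤ θ₀ := le_max_right _ _
  have hθ1 : θ₀ < 1 := max_lt hθ one_pos
  have hθθ : θ ≤ θ₀ := le_max_left _ _
  set θ₁ : ℝ := (θ₀ + 1) / 2 with hθ₁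
  set ε : ℝ := (1 - θ₀) / 4 with hε
  have hε0 : 0 < ε := by rw [hε]; linarith
  have hinj := fun i => poly_inj (F i) (hF i)
  choose N hN using hinj
  have hmom := fun i => mom_I (2 * k) (by omega) (F i) (hF i)
  choose C hC X hX using hmom
  set y0 : ℕ := ∑ i, N i with hy0
  have hNy : ∀ i, N i ≤ y0 := fun i => single_le_sum (f := N) (fun _ _ => Nat.zero_le _) (mem_univ i)
  set CC : ℝ := ∑ i, C i with hCC
  have hCi : ∀ i, C i ≤ CC := fun i => single_le_sum (f := C) (fun j _ => (hC j).le) (mem_univ i)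
  have hCC0 : 0 ≤ CC := sum_nonneg fun i _ => (hC i).le
  obtain ⟨η, hη, B₀, hmain⟩ := main4 k hk (2 / c) (4 * CC) (by positivity) (by positivity) θ₁
    (by rw [hθ₁]; linarith)
  refine ⟨η / 2, by positivity, fun z => ?_⟩
  obtain ⟨x₁, hrough⟩ := rough_I z y0 ε hε0
  refine ⟨max (max B₀ x₁) (max (max (∑ i, X i) 3) (max (2 * y0) ⌈(Pz z : ℝ) / η⌉₊)), ?_⟩
  intro x hx B hxB hcx hFB
  have hxB0 : B₀ ≤ x := ((le_max_left _ _).trans (le_max_left _ _)).trans hx
  have hxx1 : x₁ ≤ x := ((le_max_right _ _).trans (le_max_left _ _)).trans hx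
  have hxX : ∑ i, X i ≤ x := (((le_max_left _ _).trans (le_max_left _ _)).trans (le_max_right _ _)).trans hx
  have hx3 : 3 ≤ x := (((le_max_right _ _).trans (le_max_left _ _)).trans (le_max_right _ _)).trans hx
  have hxy : 2 * y0 ≤ x := (((le_max_left _ _).trans (le_max_right _ _)).trans (le_max_right _ _)).trans hx
  have hxP : ⌈(Pz z : ℝ) / η⌉₊ ≤ x :=
    (((le_max_right _ _).trans (le_max_right _ _)).trans (le_max_right _ _)).trans hx
  have hx3r : (3 : ℝ) ≤ x := by exact_mod_cast hx3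
  have hxBr : (x : ℝ) ≤ B := by exact_mod_cast hxB
  have hB3 : (3 : ℝ) ≤ B := by linarith
  have hlB : 0 < Real.log B := Real.log_pos (by linarith)
  set T : Finset ℕ := Ioc y0 x with hT
  have hTcard : (x : ℝ) ≤ 2 * T.card := by
    rw [hT, Nat.card_Ioc]
    have : x ≤ 2 * (x - y0) := by omega
    exact_mod_cast this
  have hTsub : T ⊆ Icc 1 x := by
    intro t ht
    rw [hT, mem_Ioc] at ht
    rw [mem_Icc]; omega
  have hTpos : (0 : ℝ) < T.card := by linarith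
  set G : Fin k → ℕ → ℤ := fun i t => (F i).eval (t : ℤ) with hG
  have hM := hmain B (hxB0.trans hxB) z (by
      have h1 : (Pz z : ℝ) / η ≤ x := (Nat.le_ceil _).trans (by exact_mod_cast hxP)
      rw [div_le_iff₀ hη] at h1
      calc (Pz z : ℝ) ≤ x * η := h1
        _ ≤ B * η := by gcongr
        _ = _ := mul_comm _ _) G T
    (by
      intro i t ht
      have ht' := mem_Icc.1 (hTsub ht)
      refine (hFB i t ht'.1 ht'.2).trans ?_
      have : (0 : ℝ) ≤ B := by linarith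
      nlinarith)
    (by
      intro t₁ h₁ t₂ h₂ hne i
      rw [hT, mem_Ioc] at h₁ h₂
      exact hN i t₁ t₂ (by have := hNy i; omega) (by have := hNy i; omega) hne)
    (by
      intro i
      have h1 := hX i x ((single_le_sum (f := X) (fun _ _ => Nat.zero_le _) (mem_univ i)).trans hxX) T hTsub
      calc ∑ t₁ ∈ T, ∑ t₂ ∈ T, GG (G i t₁ - G i t₂).natAbs ^ (2 * k) ≤ C i * (x : ℝ) ^ 2 := h1
        _ ≤ CC * (2 * T.card : ℝ) ^ 2 := by
            have := hCi i
            gcongr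
        _ = _ := by ring)
    (by
      calc Real.log B ^ k = 1 / c * (c * Real.log B ^ k) := by field_simp
        _ ≤ 1 / c * x := by gcongr
        _ ≤ 1 / c * (2 * T.card) := by gcongr
        _ = _ := by ring)
  have hBk : (0 : ℝ) ≤ (B : ℝ) ^ k := by positivity
  refine le_trans (by nlinarith) (hM.trans ?_)
  have hsub : (Fintype.piFinset (fun _ : Fin k => Ioc B (2 * B))).filter (fun b =>
      θ₁ * (roughS z G b T / Wz z ^ k) / Real.log B ^ k ≤ primeS G b T ∧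
      η * T.card / Real.log B ^ k ≤ primeS G b T) ⊆
      (Fintype.piFinset (fun _ : Fin k => Ioc B (2 * B))).filter (fun b =>
      θ * EI F b z * (x / Real.log B ^ k) ≤ cntI F b x ∧
      η / 2 * (x / Real.log B ^ k) ≤ cntI F b x) := by
    intro b hb
    rw [mem_filter] at hb ⊢
    obtain ⟨hb0, hb1, hb2⟩ := hb
    have hcnt : (primeS G b T : ℝ) ≤ cntI F b x := by
      have : primeS G b T ≤ cntI F b x := by
        unfold primeS cntI
        apply card_le_card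
        intro t ht
        rw [mem_filter] at ht ⊢
        exact ⟨hTsub ht.1, ht.2⟩
      exact_mod_cast this
    refine ⟨hb0, ?_, ?_⟩
    · refine le_trans ?_ (hb1.trans hcnt)
      have hr := hrough x hxx1 (Vf F b) (fun p _ t => Vf_mod F b p t)
      rw [← roughS_Vf F b z (Ioc y0 x)] at hr
      have hEI := EI_eq F b z
      have hp0 := prodI_nonneg (Vf F b) z
      set Q : ℝ := ∏ p ∈ PS z, (1 - (wI (Vf F b) p : ℝ) / p) with hQ
      have hW : 0 < Wz z ^ k := pow_pos (Wz_pos z) k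
      have hL : 0 < Real.log B ^ k := by positivity
      rw [hEI]
      have hrr : (1 - ε) * Q * x ≤ (roughS z G b T : ℝ) := hr
      have h1 : θ * (Q * x) ≤ θ₁ * (roughS z G b T : ℝ) := by
        have hθ₁0 : 0 ≤ θ₁ := by rw [hθ₁]; linarith
        have hQx : 0 ≤ Q * x := by positivity
        calc θ * (Q * x) ≤ θ₀ * (Q * x) := mul_le_mul_of_nonneg_right hθθ hQx
          _ ≤ (θ₁ * (1 - ε)) * (Q * x) := by
              apply mul_le_mul_of_nonneg_right _ hQx
              rw [hθ₁, hε]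
              nlinarith [mul_nonneg (sub_nonneg.2 hθ1.le) (by linarith : (0:ℝ) ≤ 3 - θ₀)]
          _ = θ₁ * ((1 - ε) * Q * x) := by ring
          _ ≤ θ₁ * (roughS z G b T : ℝ) := mul_le_mul_of_nonneg_left hrr hθ₁0
      calc θ * (Q / Wz z ^ k) * (x / Real.log B ^ k) = θ * (Q * x) / (Wz z ^ k * Real.log B ^ k) := by
            field_simp
        _ ≤ θ₁ * (roughS z G b T : ℝ) / (Wz z ^ k * Real.log B ^ k) := by gcongr
        _ = _ := by field_simp
    · refine le_trans ?_ (hb2.trans hcnt)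
      rw [mul_div_assoc]
      calc η / 2 * (x / Real.log B ^ k) ≤ η / 2 * (2 * T.card / Real.log B ^ k) := by gcongr
        _ = _ := by ring
  exact_mod_cast card_le_card hsub

end Pool.Agent.W218.PG
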