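import Mathlib
import Pool.Agent.W218.PG.Poly
import Pool.Agent.W218.PG.MainI
import Pool.Agent.W218.PF.Main4

set_option autoImplicit false

/-! Arbitrary dense sets of small primes `q`: prime values of `N_i ± q`. -/

namespace Pool.Agent.W218.PG

open Finset Pool.Agent.Erdos456 Pool.Agent.Erdos456.Mert Pool.Agent.W218.HF Pool.Agent.W218.LF Pool.Agent.W218.PF

/-- the number of `q ∈ T` with all `s q + N_i` prime -/
def PQ {k : ℕ} (s : ℤ) (T : Finset ℕ) (N : Fin k → ℕ) : ℕ :=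
  (T.filter (fun q : ℕ => ∀ i, (s * (q : ℤ) + N i).toNat.Prime)).card

/-- the number of `q ∈ T` for which no `s q + N_i` has a prime factor `≤ z` -/
def RQ {k : ℕ} (s : ℤ) (z : ℕ) (T : Finset ℕ) (N : Fin k → ℕ) : ℕ :=
  (T.filter (fun q : ℕ => ∀ i, ∀ p ≤ z, p.Prime → ¬ ((p : ℤ) ∣ s * (q : ℤ) + N i))).card

open Classical in
theorem denseP (k : ℕ) (hk : 1 ≤ k) (s : ℤ) (hs : s = 1 ∨ s = -1) (c δ : ℝ) (hc : 0 < c) (hδ : 0 < δ) (θ : ℝ)
    (hθ : θ < 1) : ∃ κ : ℝ, 0 < κ ∧ κ ≤ 1 / 4 ∧ ∃ M₀ : ℕ, ∀ M : ℕ, M₀ ≤ M → ∀ z : ℕ, (Pz z : ℝ) ≤ κ * M →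
      ∀ x : ℕ, c * Real.log M ^ k ≤ x / Real.log x → (x : ℝ) ≤ κ * M →
      ∀ T : Finset ℕ, T ⊆ (Icc 3 x).filter Nat.Prime → δ * (x / Real.log x) ≤ T.card →
      κ * M ^ k ≤ (((Fintype.piFinset (fun _ : Fin k => Ioc M (2 * M))).filter (fun N =>
        (∀ i, Even (N i)) ∧ κ * T.card / Real.log M ^ k ≤ PQ s T N ∧
        θ * (RQ s z T N / Wz z ^ k) / Real.log M ^ k ≤ PQ s T N)).card : ℝ) := by
  have hs0 : s ≠ 0 := by rcases hs with h | h <;> rw [h] <;> norm_num
  have hdeg : 1 ≤ (Polynomial.C s * Polynomial.X : Polynomial ℤ).natDegree := by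
    rw [Polynomial.natDegree_C_mul_X s hs0]
  obtain ⟨C, hC, X0, hX⟩ := mom_P (2 * k) (by omega) (Polynomial.C s * Polynomial.X) hdeg
  obtain ⟨η, hη, B₀, hmain⟩ := main4 k hk (1 / (c * δ)) (C / δ) (by positivity) (by positivity) θ hθ
  set κ : ℝ := min η (1 / 4) with hκ
  have hκ0 : 0 < κ := by positivity
  have hκη : κ ≤ η := min_le_left _ _
  have hκ4 : κ ≤ 1 / 4 := min_le_right _ _
  refine ⟨κ, hκ0, hκ4, max (max B₀ 4) ⌈Real.exp (1 + (X0 + 3 : ℕ) / c)⌉₊, fun A hA z hz x hcx hxκ T hT hTc => ?_⟩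
  have hAB : B₀ ≤ A := ((le_max_left _ _).trans (le_max_left _ _)).trans hA
  have hA4 : 4 ≤ A := ((le_max_right _ _).trans (le_max_left _ _)).trans hA
  have hA1 : Real.exp (1 + (X0 + 3 : ℕ) / c) ≤ A := (Nat.le_ceil _).trans (by exact_mod_cast (le_max_right _ _).trans hA)
  have hA0 : (0 : ℝ) < A := lt_of_lt_of_le (Real.exp_pos _) hA1
  have hlA : 1 + ((X0 + 3 : ℕ) : ℝ) / c ≤ Real.log A := by
    rwa [Real.le_log_iff_exp_le hA0]
  have hlA1 : 1 ≤ Real.log A := by
    have : (0 : ℝ) ≤ ((X0 + 3 : ℕ) : ℝ) / c := by positivity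
    linarith
  have hXX : ((X0 + 3 : ℕ) : ℝ) ≤ x / Real.log x := by
    refine le_trans ?_ hcx
    have h1 : ((X0 + 3 : ℕ) : ℝ) / c ≤ Real.log A ^ k := by
      calc ((X0 + 3 : ℕ) : ℝ) / c ≤ Real.log A := by linarith
        _ ≤ Real.log A ^ k := le_self_pow₀ hlA1 (by omega)
    rw [div_le_iff₀ hc] at h1
    linarith
  have hX3 : (3 : ℝ) ≤ x / Real.log x := by
    push_cast at hXX
    have : (0 : ℝ) ≤ X0 := Nat.cast_nonneg _
    linarith
  have hx3 : 3 ≤ x := by
    by_contra hcon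
    have hx2 : x ≤ 2 := by omega
    have h2 : (x : ℝ) / Real.log x < 3 := by
      interval_cases x
      · simp
      · simp
      · have h3 := Real.log_two_gt_d9
        rw [div_lt_iff₀ (by push_cast; linarith)]
        push_cast
        linarith
    linarith
  have hx3r : (3 : ℝ) ≤ x := by exact_mod_cast hx3
  have hx0 : (0 : ℝ) < x := by linarith
  have hlx1 : 1 ≤ Real.log x := by
    rw [Real.le_log_iff_exp_le hx0]
    have := Real.exp_one_lt_d9
    linarith
  have hXx : (x : ℝ) / Real.log x ≤ x := by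
    rw [div_le_iff₀ (by linarith)]
    nlinarith
  have hx1 : X0 ≤ x := by
    have : ((X0 + 3 : ℕ) : ℝ) ≤ x := hXX.trans hXx
    have h2 : X0 + 3 ≤ x := by exact_mod_cast this
    omega
  have hTmem : ∀ t ∈ T, 3 ≤ t ∧ t ≤ x ∧ t.Prime := by
    intro t ht
    have := hT ht
    rw [mem_filter, mem_Icc] at this
    exact ⟨this.1.1, this.1.2, this.2⟩
  have hTpos : (0 : ℝ) < T.card := lt_of_lt_of_le (by positivity) hTc
  have heval : ∀ t : ℕ, (Polynomial.C s * Polynomial.X : Polynomial ℤ).eval (t : ℤ) = s * t := by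
    intro t; simp
  have hM := hmain A hAB z (hz.trans (mul_le_mul_of_nonneg_right hκη hA0.le)) (fun _ t => s * (t : ℤ)) T
    (by
      intro i t ht
      obtain ⟨h1, h2, h3⟩ := hTmem t ht
      have h4 : |((s * (t : ℤ) : ℤ) : ℝ)| = t := by
        rcases hs with h | h <;> subst h <;> simp
      rw [h4]
      calc (t : ℝ) ≤ x := by exact_mod_cast h2
        _ ≤ κ * A := hxκ
        _ ≤ η * A := mul_le_mul_of_nonneg_right hκη hA0.le)
    (by
      intro t₁ _ t₂ _ hne i h
      apply hne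
      exact_mod_cast mul_left_cancel₀ hs0 h)
    (by
      intro i
      have h1 := hX x hx1 T (by
        intro t ht
        obtain ⟨h1, h2, h3⟩ := hTmem t ht
        simp only [PP, mem_filter, mem_Icc]
        exact ⟨⟨by omega, h2⟩, h3⟩)
      simp only [heval] at h1
      refine h1.trans ?_
      have h2 : (x : ℝ) / Real.log x ≤ T.card / δ := by
        rw [le_div_iff₀ hδ]; linarith
      calc C * ((x : ℝ) / Real.log x) * T.card ≤ C * (T.card / δ) * T.card := by gcongr
        _ = C / δ * (T.card : ℝ) ^ 2 := by ring)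
    (by
      calc Real.log A ^ k = 1 / (c * δ) * (δ * (c * Real.log A ^ k)) := by field_simp
        _ ≤ 1 / (c * δ) * (δ * (x / Real.log x)) := by gcongr
        _ ≤ 1 / (c * δ) * T.card := by gcongr)
  refine le_trans (mul_le_mul_of_nonneg_right hκη (by positivity)) (hM.trans ?_)
  have hsub : (Fintype.piFinset (fun _ : Fin k => Ioc A (2 * A))).filter (fun b =>
      θ * (roughS z (fun _ t => s * (t : ℤ)) b T / Wz z ^ k) / Real.log A ^ k ≤ primeS (fun _ t => s * (t : ℤ)) b T ∧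
      η * T.card / Real.log A ^ k ≤ primeS (fun _ t => s * (t : ℤ)) b T) ⊆
      (Fintype.piFinset (fun _ : Fin k => Ioc A (2 * A))).filter (fun N =>
        (∀ i, Even (N i)) ∧ κ * T.card / Real.log A ^ k ≤ PQ s T N ∧
        θ * (RQ s z T N / Wz z ^ k) / Real.log A ^ k ≤ PQ s T N) := by
    intro b hb
    rw [mem_filter] at hb ⊢
    obtain ⟨hbI, h1, h2⟩ := hb
    have e1 : primeS (fun _ t => s * (t : ℤ)) b T = PQ s T b := rfl
    have e2 : roughS z (fun _ t => s * (t : ℤ)) b T = RQ s z T b := rfl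
    rw [e1] at h1 h2
    rw [e2] at h1
    refine ⟨hbI, fun i => ?_, ?_, h1⟩
    · -- parity
      have hpos : (0 : ℝ) < PQ s T b := lt_of_lt_of_le (by positivity) h2
      have hpos' : 0 < PQ s T b := by exact_mod_cast hpos
      unfold PQ at hpos'
      rw [card_pos] at hpos'
      obtain ⟨t, ht⟩ := hpos'
      rw [mem_filter] at ht
      obtain ⟨htT, ht2⟩ := ht
      obtain ⟨k1, k2, k3⟩ := hTmem t htT
      have hbi := mem_Ioc.1 (Fintype.mem_piFinset.1 hbI i)
      have hto : t % 2 = 1 := by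
        have := k3.eq_two_or_odd
        omega
      have hpr := ht2 i
      by_contra hodd
      rw [Nat.not_even_iff_odd, Nat.odd_iff] at hodd
      have hxA : x ≤ A / 4 + 1 := by
        have h4 : (x : ℝ) ≤ A / 4 := by
          refine hxκ.trans ?_
          have := mul_le_mul_of_nonneg_right hκ4 hA0.le
          linarith
        have h5 : 4 * x ≤ A := by
          have : (4 : ℝ) * x ≤ A := by linarith
          exact_mod_cast this
        omega
      have h6 : (s * (t : ℤ) + b i) % 2 = 0 ∧ 2 < s * (t : ℤ) + b i := by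
        rcases hs with h | h <;> subst h <;> omega
      have h7 : 2 ∣ (s * (t : ℤ) + b i).toNat := by omega
      rcases (Nat.dvd_prime hpr).1 h7 with h | h
      · omega
      · omega
    · refine le_trans ?_ h2
      have : κ * T.card ≤ η * T.card := mul_le_mul_of_nonneg_right hκη hTpos.le
      gcongr
  exact_mod_cast card_le_card hsub

end Pool.Agent.W218.PG
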