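import Mathlib
import Pool.Agent.W468.CFMost

set_option autoImplicit false

/-!
For all but few `c`, the Euler product of `a x^2 + b x + c` is close to its cut product (`a ≠ 0` of any sign).
-/

namespace Pool.Agent.W218.PG
open Finset Filter Topology
open Pool.Agent.W468.ConjF

/-- all but few `c` have a small tail -/
theorem good_most2 (a b : ℤ) (ha : a ≠ 0) (ε η : ℝ) (hε : 0 < ε) (hη : 0 < η) :
    ∃ z₀ : ℕ, ∀ z : ℕ, z₀ ≤ z → ∃ H₀ : ℕ, ∀ H : ℕ, H₀ ≤ H → ∃ E : Finset ℕ, (#E : ℝ) ≤ η * H ∧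
      ∀ c ∈ Icc 1 H, c ∉ E → ¬ IsSquare (b ^ 2 - 4 * a * (c : ℤ)) →
        ∀ᶠ N in atTop, |SJ (b ^ 2 - 4 * a * (c : ℤ)) z N| ≤ ε := by
  classical
  set K : ℕ := b.natAbs ^ 2 + 4 * a.natAbs with hK
  obtain ⟨n₁, hn₁⟩ := tail 402
  obtain ⟨m₁, hm₁⟩ := ev_small K (ε / 3) (by positivity)
  obtain ⟨m₂, hm₂⟩ := ev_log (ε / 3) (by positivity)
  refine ⟨max (max 2 (2 * a.natAbs)) ⌈36 / (η * ε ^ 2)⌉₊, fun z hz => ?_⟩
  have hz2 : 2 ≤ z := ((le_max_left _ _).trans (le_max_left _ _)).trans hz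
  have hza : 2 * a.natAbs ≤ z := ((le_max_right _ _).trans (le_max_left _ _)).trans hz
  have hzε : 36 / (η * ε ^ 2) ≤ z := (Nat.le_ceil _).trans (by exact_mod_cast (le_max_right _ _).trans hz)
  have hz0 : (0 : ℝ) < z := by exact_mod_cast (by omega : 0 < z)
  have hev : ∀ᶠ H : ℕ in atTop, (max (max 2 m₁) (max z (K ^ 3))) ≤ Nat.log 2 H / 3 ∧
      (128 * (K + 1) * 320 ^ 10 / η) ≤ (H : ℝ) ^ ((1 : ℝ) / 200) ∧
      ((max (max n₁ m₂) (4 * K + 3) : ℕ) : ℝ) ≤ (H : ℝ) ^ ((1 : ℝ) / 200) ∧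
      ((Nat.log 2 H / 3 : ℕ) : ℝ) ≤ (H : ℝ) ^ ((1 : ℝ) / 200) ∧ 1 ≤ H := by
    filter_upwards [ev_i0 (max (max 2 m₁) (max z (K ^ 3))), ev_t (128 * (K + 1) * 320 ^ 10 / η),
      ev_t ((max (max n₁ m₂) (4 * K + 3) : ℕ) : ℝ), ev_logt, eventually_ge_atTop 1] with H h1 h2 h3 h4 h5
    exact ⟨h1, h2, h3, h4, h5⟩
  obtain ⟨H₀, hH₀⟩ := eventually_atTop.1 hev
  refine ⟨H₀, fun H hH => ?_⟩
  obtain ⟨c1, c2, c3, c4, c5⟩ := hH₀ H hH
  set i0 := Nat.log 2 H / 3 with hi0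
  set t : ℝ := (H : ℝ) ^ ((1 : ℝ) / 200) with ht
  set I := ⌈t⌉₊ with hI
  have hH0 : (1 : ℝ) ≤ H := by exact_mod_cast c5
  have hi2 : 2 ≤ i0 := ((le_max_left _ _).trans (le_max_left _ _)).trans c1
  have him : m₁ ≤ i0 := ((le_max_right _ _).trans (le_max_left _ _)).trans c1
  have hiz : z ≤ i0 := ((le_max_left _ _).trans (le_max_right _ _)).trans c1
  have hiK : K ^ 3 ≤ i0 := ((le_max_right _ _).trans (le_max_right _ _)).trans c1
  have htI : t ≤ I := Nat.le_ceil t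
  have hIn : n₁ ≤ I := by
    have h1 : ((n₁ : ℕ) : ℝ) ≤ I := le_trans (by exact_mod_cast ((le_max_left _ _).trans (le_max_left _ _))) (c3.trans htI)
    exact_mod_cast h1
  have hIm : m₂ ≤ I := by
    have h1 : ((m₂ : ℕ) : ℝ) ≤ I := le_trans (by exact_mod_cast ((le_max_right _ _).trans (le_max_left _ _))) (c3.trans htI)
    exact_mod_cast h1
  have hIK : 4 * K + 3 ≤ I := by
    have h1 : ((4 * K + 3 : ℕ) : ℝ) ≤ I := le_trans (by exact_mod_cast (le_max_right _ _)) (c3.trans htI)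
    exact_mod_cast h1
  have hiI : i0 ≤ I := by
    have h1 : (i0 : ℝ) ≤ I := c4.trans htI
    exact_mod_cast h1
  have ht1 : 1 ≤ t := Real.one_le_rpow hH0 (by norm_num)
  have hI2t : (I : ℝ) ≤ 2 * t := by
    have := Nat.ceil_lt_add_one (show 0 ≤ t by linarith)
    linarith
  have ht200 : t ^ 200 = H := by
    rw [ht, ← Real.rpow_natCast, ← Real.rpow_mul (by positivity)]
    norm_num
  have hHI : H ≤ I ^ 200 := by
    have h1 : (H : ℝ) ≤ (I : ℝ) ^ 200 := by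
      rw [← ht200]
      exact pow_le_pow_left₀ (by linarith) htI 200
    exact_mod_cast h1
  -- size of the discriminants
  have hΔ : ∀ c ∈ Icc 1 H, (b ^ 2 - 4 * a * (c : ℤ)).natAbs ≤ K * H := by
    intro c hc
    rw [mem_Icc] at hc
    calc (b ^ 2 - 4 * a * (c : ℤ)).natAbs ≤ (b ^ 2).natAbs + (4 * a * (c : ℤ)).natAbs := Int.natAbs_sub_le _ _
      _ = b.natAbs ^ 2 + 4 * a.natAbs * c := by
          rw [Int.natAbs_pow, Int.natAbs_mul, Int.natAbs_mul]; rfl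
      _ ≤ b.natAbs ^ 2 * H + 4 * a.natAbs * H := by
          apply add_le_add
          · exact Nat.le_mul_of_pos_right _ (by omega)
          · exact Nat.mul_le_mul_left _ hc.2
      _ = K * H := by rw [hK]; ring
  -- powers of two
  have hp1 : (2 ^ i0) ^ 3 ≤ H := by
    rw [← pow_mul]
    calc 2 ^ (i0 * 3) ≤ 2 ^ Nat.log 2 H := Nat.pow_le_pow_right (by norm_num) (Nat.div_mul_le_self _ _)
      _ ≤ H := Nat.pow_log_le_self 2 (by omega)
  have hp2 : H ≤ (2 * 2 ^ i0) ^ 3 := by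
    have h1 : H < 2 ^ (Nat.log 2 H + 1) := Nat.lt_pow_succ_log_self (by norm_num) H
    have h2 : Nat.log 2 H + 1 ≤ 3 * (i0 + 1) := by
      have := Nat.div_add_mod (Nat.log 2 H) 3
      have := Nat.mod_lt (Nat.log 2 H) (show 0 < 3 by norm_num)
      omega
    calc H ≤ 2 ^ (Nat.log 2 H + 1) := h1.le
      _ ≤ 2 ^ (3 * (i0 + 1)) := Nat.pow_le_pow_right (by norm_num) h2
      _ = (2 * 2 ^ i0) ^ 3 := by rw [← pow_succ', ← pow_mul]; ring_nf
  have hi2i : i0 < 2 ^ i0 := Nat.lt_two_pow_self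
  have hΔ3 : (K * H) ^ 3 ≤ (2 * 2 ^ i0) ^ 10 := by
    calc (K * H) ^ 3 = K ^ 3 * H ^ 3 := mul_pow _ _ _
      _ ≤ (2 * 2 ^ i0) * ((2 * 2 ^ i0) ^ 3) ^ 3 := by
          apply Nat.mul_le_mul
          · omega
          · exact Nat.pow_le_pow_left hp2 3
      _ = (2 * 2 ^ i0) ^ 10 := by ring
  have hL : Nat.log 2 (K * H) ≤ K + 3 * i0 + 3 := by
    apply Nat.le_of_lt_succ
    apply Nat.log_lt_of_lt_pow'
    · omega
    · calc K * H ≤ 2 ^ K * (2 * 2 ^ i0) ^ 3 := Nat.mul_le_mul Nat.lt_two_pow_self.le hp2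
        _ = 2 ^ (K + 3 * i0 + 3) := by
            rw [← pow_succ', ← pow_mul, ← pow_add]; ring_nf
        _ < 2 ^ (K + 3 * i0 + 3 + 1) := Nat.pow_lt_pow_right (by norm_num) (by omega)
  -- the first exceptional set
  set P := (Ioc z (2 ^ i0)).filter Nat.Prime with hP
  have hPp : ∀ p ∈ P, p.Prime ∧ p ≠ 2 ∧ z < p ∧ p ≤ 2 ^ i0 ∧ ¬ (p : ℤ) ∣ (-4 * a) := by
    intro p hp
    rw [hP, mem_filter, mem_Ioc] at hp
    refine ⟨hp.2, by omega, hp.1.1, hp.1.2, ?_⟩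
    intro hd
    have h1 : (p : ℤ) ∣ 4 * a := by
      have := (dvd_neg (α := ℤ)).2 hd
      simpa using this
    rcases (Nat.prime_iff_prime_int.1 hp.2).dvd_or_dvd h1 with h2 | h2
    · have h3 : p ∣ 2 ^ 2 := by exact_mod_cast h2
      have := Nat.le_of_dvd (by norm_num) (hp.2.dvd_of_dvd_pow h3)
      omega
    · have h4 : p ∣ a.natAbs := Int.natCast_dvd.1 h2
      have := Nat.le_of_dvd (Int.natAbs_pos.2 ha) h4
      omega
  have hlow := low_count (b ^ 2 - 4 * a) (-4 * a) P z (2 ^ i0) H (by omega) hPp (ε / 3) (by positivity)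
  set E1' := (range H).filter (fun c : ℕ => ε / 3 < |∑ p ∈ P, (jacobiSym ((b ^ 2 - 4 * a) + (-4 * a) * c) p : ℝ) / p|) with hE1'
  set E1 := E1'.image (fun c => c + 1) with hE1
  have hE1c : (#E1 : ℝ) ≤ η / 2 * H := by
    have h1 : (#E1 : ℝ) ≤ #E1' := by exact_mod_cast card_image_le
    refine h1.trans (hlow.trans ?_)
    have h2 : ((2 ^ i0 : ℕ) : ℝ) ^ 2 ≤ H / z := by
      rw [le_div_iff₀ hz0]
      have h3 : (2 ^ i0) ^ 2 * z ≤ H := by
        calc (2 ^ i0) ^ 2 * z ≤ (2 ^ i0) ^ 2 * 2 ^ i0 := Nat.mul_le_mul_left _ (by omega)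
          _ = (2 ^ i0) ^ 3 := by ring
          _ ≤ H := hp1
      exact_mod_cast h3
    have h4 : (36 : ℝ) / (η * ε ^ 2) * (η * ε ^ 2) = 36 := by field_simp
    have h5 : 36 ≤ z * (η * ε ^ 2) := by
      rw [← h4]
      exact mul_le_mul_of_nonneg_right hzε (by positivity)
    calc ((H : ℝ) / z + ((2 ^ i0 : ℕ) : ℝ) ^ 2) / (ε / 3) ^ 2 ≤ (H / z + H / z) / (ε / 3) ^ 2 := by
          apply div_le_div_of_nonneg_right _ (by positivity)
          linarith
      _ = (18 / (z * ε ^ 2)) * H := by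
          field_simp
          ring
      _ ≤ η / 2 * H := by
          apply mul_le_mul_of_nonneg_right _ (by positivity)
          rw [div_le_iff₀ (by positivity)]
          nlinarith
  -- the second exceptional set
  obtain ⟨E2, hE2c, hE2⟩ := mid_count a b ha H (K * H) i0 I 10 hΔ (by omega) (by norm_num) hΔ3
  have hE2c' : (#E2 : ℝ) ≤ η / 2 * H := by
    refine hE2c.trans ?_
    have h1 : ((Nat.sqrt (K * H) : ℕ) : ℝ) ≤ K * t ^ 100 := by
      have h2 : ((Nat.sqrt (K * H) : ℕ) : ℝ) ^ 2 ≤ (K * t ^ 100) ^ 2 := by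
        have h3 : (Nat.sqrt (K * H)) ^ 2 ≤ K * H := Nat.sqrt_le' _
        calc ((Nat.sqrt (K * H) : ℕ) : ℝ) ^ 2 ≤ ((K * H : ℕ) : ℝ) := by exact_mod_cast h3
          _ = K * t ^ 200 := by rw [ht200]; push_cast; ring
          _ ≤ (K : ℝ) ^ 2 * t ^ 200 := by
              apply mul_le_mul_of_nonneg_right _ (by positivity)
              have : (K : ℝ) ≤ (K : ℝ) ^ 2 := by exact_mod_cast Nat.le_self_pow (by norm_num) K
              exact this
          _ = (K * t ^ 100) ^ 2 := by ring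
      exact (pow_le_pow_iff_left₀ (by positivity) (by positivity) (by norm_num)).1 h2
    have h2 : (Nat.sqrt (K * H) : ℝ) + 1 ≤ (K + 1) * t ^ 100 := by
      have : 1 ≤ t ^ 100 := one_le_pow₀ ht1
      nlinarith
    have h3 : (I : ℝ) * (8 * (2 * ((10 : ℕ) : ℝ) * (I : ℝ) ^ 4) ^ 10) ≤ 2 * t * (8 * (2 * 10 * (2 * t) ^ 4) ^ 10) := by
      push_cast
      gcongr
    have h4 : (128 * ((K : ℝ) + 1) * 320 ^ 10 / η) * η = 128 * (K + 1) * 320 ^ 10 := by field_simp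
    have h5 : 128 * ((K : ℝ) + 1) * 320 ^ 10 ≤ t * η := by
      rw [← h4]
      exact mul_le_mul_of_nonneg_right c2 hη.le
    have h6 : t ≤ t ^ 59 := le_self_pow₀ ht1 (by norm_num)
    calc 4 * ((Nat.sqrt (K * H) : ℝ) + 1) * ((I : ℝ) * (8 * (2 * ((10 : ℕ) : ℝ) * (I : ℝ) ^ 4) ^ 10))
        ≤ 4 * ((K + 1) * t ^ 100) * (2 * t * (8 * (2 * 10 * (2 * t) ^ 4) ^ 10)) := by
          apply mul_le_mul _ h3 (by positivity) (by positivity)
          linarith
      _ = (128 * (K + 1) * 320 ^ 10) / 2 * t ^ 141 := by ring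
      _ ≤ (t ^ 59 * η) / 2 * t ^ 141 := by
          apply mul_le_mul_of_nonneg_right _ (by positivity)
          have : t * η ≤ t ^ 59 * η := mul_le_mul_of_nonneg_right h6 hη.le
          linarith
      _ = η / 2 * t ^ 200 := by ring
      _ = η / 2 * H := by rw [ht200]
  refine ⟨E1 ∪ E2, ?_, ?_⟩
  · calc (#(E1 ∪ E2) : ℝ) ≤ #E1 + #E2 := by exact_mod_cast card_union_le _ _
      _ ≤ η * H := by linarith
  · intro c hc hcE hsq
    rw [mem_union, not_or] at hcE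
    set D : ℤ := b ^ 2 - 4 * a * (c : ℤ) with hD
    have hD0 : D ≠ 0 := by
      intro h; apply hsq; rw [h]; exact ⟨0, by simp⟩
    have hcI := mem_Icc.1 hc
    have b1 : |SJ D z (2 ^ i0)| ≤ ε / 3 := by
      by_contra hcon
      push Not at hcon
      apply hcE.1
      rw [hE1, mem_image]
      refine ⟨c - 1, ?_, by omega⟩
      rw [hE1', mem_filter, mem_range]
      refine ⟨by omega, ?_⟩
      have e : (b ^ 2 - 4 * a) + (-4 * a) * ((c - 1 : ℕ) : ℤ) = D := by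
        rw [hD, Nat.cast_sub hcI.1]; push_cast; ring
      rw [e]
      exact hcon
    have b2 : |SJ D (2 ^ i0) (2 ^ (I + 1))| ≤ ε / 3 := by
      refine (mid_sum D i0 I (Nat.log 2 (K * H)) (by positivity) hi2 hiI (hE2 c hc hcE.2 hD0)).trans ?_
      refine le_trans ?_ (hm₁ i0 him)
      have h1 : (Nat.log 2 (K * H) : ℝ) ≤ ((K + 3 * i0 + 3 : ℕ) : ℝ) := by exact_mod_cast hL
      gcongr
    have hzi : z ≤ 2 ^ i0 := by omega
    have hII : 2 ^ i0 ≤ 2 ^ (I + 1) := Nat.pow_le_pow_right (by norm_num) (by omega)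
    have hIlt : I + 1 < 2 ^ (I + 1) := Nat.lt_two_pow_self
    filter_upwards [eventually_ge_atTop (2 ^ (I + 1))] with N hN
    have b3 : |SJ D (2 ^ (I + 1)) N| ≤ ε / 3 := by
      refine (hn₁ (2 ^ (I + 1)) (by omega) D hsq ?_ N hN).trans (hm₂ (2 ^ (I + 1)) (by omega))
      have h1 : (4 * D.natAbs : ℝ) ≤ 4 * K * (I : ℝ) ^ 200 := by
        have h2 : 4 * D.natAbs ≤ 4 * K * I ^ 200 := by
          calc 4 * D.natAbs ≤ 4 * (K * H) := Nat.mul_le_mul_left 4 (hΔ c hc)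
            _ ≤ 4 * (K * I ^ 200) := Nat.mul_le_mul_left 4 (Nat.mul_le_mul_left K hHI)
            _ = 4 * K * I ^ 200 := by ring
        exact_mod_cast h2
      have h3 : Real.log ((2 ^ (I + 1) : ℕ) : ℝ) = ((I + 1 : ℕ) : ℝ) * Real.log 2 := by
        push_cast
        rw [Real.log_pow]
        push_cast
        ring
      rw [h3]
      refine h1.trans ?_
      set y : ℝ := ((I + 1 : ℕ) : ℝ) with hy
      have hy4 : 4 ≤ y := by
        rw [hy]; exact_mod_cast (by omega : 4 ≤ I + 1)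
      have hyK : 4 * (K : ℝ) ≤ y := by
        rw [hy]; exact_mod_cast (by omega : 4 * K ≤ I + 1)
      have hyI : (I : ℝ) ≤ y := by rw [hy]; exact_mod_cast (by omega : I ≤ I + 1)
      have h8 : (0.6 : ℝ) < Real.log 2 := by have := Real.log_two_gt_d9; linarith
      have h4 : y ≤ (y * Real.log 2) ^ 2 := by
        have h5 : y * 0.6 ≤ y * Real.log 2 := mul_le_mul_of_nonneg_left h8.le (by linarith)
        have h6 : (y * 0.6) ^ 2 ≤ (y * Real.log 2) ^ 2 := pow_le_pow_left₀ (by positivity) h5 2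
        nlinarith
      calc 4 * (K : ℝ) * (I : ℝ) ^ 200 ≤ y * y ^ 200 := by
            apply mul_le_mul hyK _ (by positivity) (by linarith)
            exact pow_le_pow_left₀ (by positivity) hyI 200
        _ = y ^ 201 := by ring
        _ ≤ ((y * Real.log 2) ^ 2) ^ 201 := pow_le_pow_left₀ (by linarith) h4 201
        _ = (y * Real.log 2) ^ 402 := by rw [← pow_mul]
    rw [SJ_add D z (2 ^ (I + 1)) N (hzi.trans hII) hN, SJ_add D z (2 ^ i0) (2 ^ (I + 1)) hzi hII]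
    refine (abs_add_le _ _).trans ?_
    have h1 := abs_add_le (SJ D z (2 ^ i0)) (SJ D (2 ^ i0) (2 ^ (I + 1)))
    linarith

end Pool.Agent.W218.PG
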