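import Mathlib
import Pool.Agent.W218.PG.MainI
import Pool.Agent.W218.PG.Most

set_option autoImplicit false

/-! Prime values of `s t^2 + β t + b`, `s = ±1`, `b` variable and large: the exact constant of Conjecture F. -/

namespace Pool.Agent.W218.PG

open Finset Filter Topology Pool.Agent.W218.PF
open Pool.Agent.W468.ConjF (PJ SJ nr nr_odd PJ_le PJ_tendsto PJ_pos factor_pos)
open Polynomial (C X)

lemma exp_le_lin {u : ℝ} (h0 : 0 ≤ u) (h1 : u ≤ 1 / 2) : Real.exp u ≤ 1 + 2 * u := by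
  have h2 := Real.one_sub_le_exp_neg u
  have h3 : Real.exp u * Real.exp (-u) = 1 := by rw [← Real.exp_add]; simp
  have h4 := Real.exp_pos u
  have h5 : Real.exp u * (1 - u) ≤ 1 := by
    calc Real.exp u * (1 - u) ≤ Real.exp u * Real.exp (-u) := mul_le_mul_of_nonneg_left h2 h4.le
      _ = 1 := h3
  have h6 : 1 ≤ (1 + 2 * u) * (1 - u) := by nlinarith
  have h7 : 0 < 1 - u := by linarith
  by_contra h
  push Not at h
  have : (1 + 2 * u) * (1 - u) < Real.exp u * (1 - u) := mul_lt_mul_of_pos_right h h7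
  linarith

/-- the polynomial `s X^2 + β X` -/
noncomputable def Fq (s β : ℤ) : Polynomial ℤ := C s * X ^ 2 + C β * X

lemma Fq_eval (s β t : ℤ) : (Fq s β).eval t = s * t ^ 2 + β * t := by
  simp [Fq]

lemma Fq_deg (s β : ℤ) (hs : s ≠ 0) : (Fq s β).natDegree = 2 := by
  unfold Fq
  have h : (C s * X ^ 2 + C β * X : Polynomial ℤ) = C s * X ^ 2 + C β * X + C 0 := by simp
  rw [h]
  exact Polynomial.natDegree_quadratic hs

lemma wI_nr (s β : ℤ) (b : Fin 1 → ℕ) (p : ℕ) : wI (Vf (fun _ : Fin 1 => Fq s β) b) p = nr s β (b 0) p := by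
  classical
  unfold wI nr Vf
  congr 1
  ext r
  simp only [mem_filter]
  apply and_congr_right
  intro _
  constructor
  · rintro ⟨i, hi⟩
    rw [Subsingleton.elim i 0, Fq_eval] at hi
    exact hi
  · intro h
    exact ⟨0, by rw [Fq_eval]; exact h⟩

/-- the factor at two -/
noncomputable def e2 (β : ℤ) : ℝ := if (2 : ℤ) ∣ β then 1 else 2

lemma e2_pos (β : ℤ) : 0 < e2 β := by
  unfold e2; split_ifs <;> norm_num

lemma EI_PJ (s β : ℤ) (hs : s = 1 ∨ s = -1) (b : Fin 1 → ℕ) (hb : ¬ (2 : ℤ) ∣ β → ¬ (2 : ℤ) ∣ (b 0 : ℤ)) (z : ℕ)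
    (hz : 2 ≤ z) :
    EI (fun _ : Fin 1 => Fq s β) b z = e2 β * PJ (β ^ 2 - 4 * s * (b 0 : ℤ)) 2 z := by
  classical
  have hS : PS z = insert 2 ((Ioc 2 z).filter Nat.Prime) := by
    unfold PS
    ext p
    simp only [mem_insert, mem_filter, mem_range, mem_Ioc]
    constructor
    · rintro ⟨h1, h2⟩
      have := h2.two_le
      by_cases h3 : p = 2
      · exact Or.inl h3
      · exact Or.inr ⟨by omega, h2⟩
    · rintro (rfl | ⟨h1, h2⟩)
      · exact ⟨by omega, Nat.prime_two⟩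
      · exact ⟨by omega, h2⟩
  have hn2 : 2 ∉ (Ioc 2 z).filter Nat.Prime := by
    rw [mem_filter, mem_Ioc]; omega
  unfold EI
  rw [hS, prod_insert hn2]
  have hsu : IsUnit s := by
    rcases hs with h | h <;> rw [h] <;> simp
  congr 1
  · rw [wI_nr]
    have h2 : nr s β (b 0 : ℤ) 2 = if (2 : ℤ) ∣ s + β then 0 else 1 := by
      apply Pool.Agent.W468.ConjF.nr_two
      rintro ⟨h1, h3⟩
      have h4 : ¬ (2 : ℤ) ∣ β := by
        rcases hs with h | h <;> subst h <;> omega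
      exact hb h4 h3
    rw [h2]
    unfold e2
    by_cases hβ : (2 : ℤ) ∣ β
    · have h3 : ¬ (2 : ℤ) ∣ s + β := by
        rcases hs with h | h <;> subst h <;> omega
      rw [if_pos hβ, if_neg h3]; norm_num
    · have h3 : (2 : ℤ) ∣ s + β := by
        rcases hs with h | h <;> subst h <;> omega
      rw [if_neg hβ, if_pos h3]; norm_num
  · unfold PJ
    apply prod_congr rfl
    intro p hp
    rw [mem_filter, mem_Ioc] at hp
    have hp3 : 3 ≤ p := by omega
    have hps : ¬ (p : ℤ) ∣ s := by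
      intro h
      have h1 := isUnit_of_dvd_unit h hsu
      rw [Int.isUnit_iff] at h1
      omega
    rw [wI_nr]
    have h3 := nr_odd s β (b 0) p hp.2 hp3 hps
    have h4 : (nr s β (b 0) p : ℝ) = (jacobiSym (β ^ 2 - 4 * s * (b 0 : ℤ)) p : ℝ) + 1 := by exact_mod_cast h3
    rw [h4]
    have hpr : (3 : ℝ) ≤ p := by exact_mod_cast hp3
    have hp0 : (p : ℝ) ≠ 0 := by positivity
    have hp1 : (p : ℝ) - 1 ≠ 0 := by linarith
    field_simp
    ring

lemma PJ_split (D : ℤ) (z N : ℕ) (hz : 2 ≤ z) (hN : z ≤ N) : PJ D 2 N = PJ D 2 z * PJ D z N := by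
  unfold PJ
  rw [← prod_union]
  · congr 1
    rw [← filter_union, Ioc_union_Ioc_eq_Ioc hz hN]
  · apply disjoint_filter_filter
    rw [Finset.disjoint_left]
    intro p h1 h2
    rw [mem_Ioc] at h1 h2
    omega

/-- few square discriminants -/
lemma few_squares (s β : ℤ) (hs : s = 1 ∨ s = -1) (B : ℕ) :
    (((Ioc B (2 * B)).filter (fun b : ℕ => IsSquare (β ^ 2 - 4 * s * (b : ℤ)))).card) ≤
      Nat.sqrt (β.natAbs ^ 2 + 8 * B) + 1 := by
  classical
  rw [← card_range (Nat.sqrt (β.natAbs ^ 2 + 8 * B) + 1)]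
  apply card_le_card_of_injOn (fun b : ℕ => Nat.sqrt (β ^ 2 - 4 * s * (b : ℤ)).toNat)
  · intro b hb
    rw [mem_coe, mem_filter, mem_Ioc] at hb
    rw [mem_coe, mem_range]
    apply Nat.lt_succ_of_le
    apply Nat.sqrt_le_sqrt
    rw [Int.toNat_le]
    push_cast
    have h1 : (b : ℤ) ≤ 2 * B := by exact_mod_cast hb.1.2
    have h2 : (0 : ℤ) ≤ b := Nat.cast_nonneg b
    rw [sq_abs]
    rcases hs with h | h <;> subst h <;> linarith
  · intro b hb c hc h
    rw [mem_coe, mem_filter, mem_Ioc] at hb hc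
    obtain ⟨-, m, hm⟩ := hb
    obtain ⟨-, n, hn⟩ := hc
    simp only at h
    have e1 : (m * m).toNat = m.natAbs * m.natAbs := by
      have h := mul_self_nonneg m
      zify
      rw [Int.toNat_of_nonneg h, abs_mul_abs_self]
    have e2' : (n * n).toNat = n.natAbs * n.natAbs := by
      have h := mul_self_nonneg n
      zify
      rw [Int.toNat_of_nonneg h, abs_mul_abs_self]
    rw [hm, hn, e1, e2', Nat.sqrt_eq, Nat.sqrt_eq] at h
    have h3 : m * m = n * n := by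
      rw [← Int.natAbs_mul_self, ← Int.natAbs_mul_self (a := n), h]
    have h4 : (b : ℤ) = c := by
      rcases hs with h | h <;> subst h <;> linarith
    exact_mod_cast h4

/-- the number of `1 ≤ t ≤ x` with `s t^2 + β t + b` prime -/
def cq (s β : ℤ) (b x : ℕ) : ℕ := ((Icc 1 x).filter (fun t : ℕ => (s * (t : ℤ) ^ 2 + β * t + b).toNat.Prime)).card

lemma cntI_cq (s β : ℤ) (b : Fin 1 → ℕ) (x : ℕ) : cntI (fun _ : Fin 1 => Fq s β) b x = cq s β (b 0) x := by
  classical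
  unfold cntI cq
  congr 1
  apply filter_congr
  intro t _
  constructor
  · intro h
    have := h 0
    rwa [Fq_eval] at this
  · intro h i
    rw [Subsingleton.elim i 0, Fq_eval]
    exact h

open Classical in
theorem quadI (s β : ℤ) (hs : s = 1 ∨ s = -1) (c : ℝ) (hc : 0 < c) (θ : ℝ) (hθ : θ < 1) :
    ∃ κ : ℝ, 0 < κ ∧ ∃ x0 : ℕ, ∀ x : ℕ, x0 ≤ x → ∀ B : ℕ, x ≤ B → c * Real.log B ≤ x →
    (∀ t : ℕ, 1 ≤ t → t ≤ x → |((s * (t : ℤ) ^ 2 + β * t : ℤ) : ℝ)| ≤ κ * B) →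
    κ * B ≤ (((Ioc B (2 * B)).filter (fun b : ℕ => ¬ IsSquare (β ^ 2 - 4 * s * (b : ℤ)) ∧
      (¬ (2 : ℤ) ∣ β → ¬ (2 : ℤ) ∣ (b : ℤ)) ∧
      ∃ K : ℝ, 0 < K ∧ Tendsto (fun N => PJ (β ^ 2 - 4 * s * (b : ℤ)) 2 N) atTop (𝓝 K) ∧
        θ * (e2 β * K) * (x / Real.log B) ≤ cq s β b x ∧ κ * (x / Real.log B) ≤ cq s β b x)).card : ℝ) := by
  have hs0 : s ≠ 0 := by rcases hs with h | h <;> rw [h] <;> norm_num
  set θ₀ : ℝ := max θ 0 with hθ₀
  have hθ0 : 0 ≤ θ₀ := le_max_right _ _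
  have hθ1 : θ₀ < 1 := max_lt hθ one_pos
  have hθθ : θ ≤ θ₀ := le_max_left _ _
  obtain ⟨η, hη, hmain⟩ := mainI 1 le_rfl (fun _ => Fq s β) (fun _ => by rw [Fq_deg s β hs0]; norm_num) c hc
    ((1 + θ₀) / 2) (by linarith)
  set δ : ℝ := (1 - θ₀) / 8 with hδ
  have hδ0 : 0 < δ := by rw [hδ]; linarith
  have hδ1 : δ ≤ 1 / 8 := by rw [hδ]; linarith
  obtain ⟨z₀, hz₀⟩ := good_most2 s β hs0 δ (η / 8) hδ0 (by positivity)
  set z : ℕ := max (max z₀ 2) ⌈1 / δ⌉₊ with hz
  have hz2 : 2 ≤ z := (le_max_right _ _).trans (le_max_left _ _)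
  have hzδ : 1 / (z : ℝ) ≤ δ := by
    have h1 : 1 / δ ≤ z := (Nat.le_ceil _).trans (by exact_mod_cast le_max_right _ _)
    have hz0 : (0 : ℝ) < z := by exact_mod_cast (by omega : 0 < z)
    rw [div_le_iff₀ hδ0] at h1
    rw [div_le_iff₀ hz0]
    linarith
  obtain ⟨H₀, hH₀⟩ := hz₀ z ((le_max_left _ _).trans (le_max_left _ _))
  obtain ⟨x₁, hmain⟩ := hmain z
  set κ : ℝ := min (η / 4) (1 / 2) with hκ
  have hκ0 : 0 < κ := by positivity
  have hκη : κ ≤ η / 4 := min_le_left _ _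
  have hκ2 : κ ≤ 1 / 2 := min_le_right _ _
  refine ⟨κ, hκ0, max (max x₁ H₀) (max (max 6 (β.natAbs ^ 2)) ⌈(64 / η) ^ 2⌉₊), ?_⟩
  intro x hx B hxB hcx hFB
  have hxx1 : x₁ ≤ x := ((le_max_left _ _).trans (le_max_left _ _)).trans hx
  have hxH : H₀ ≤ x := ((le_max_right _ _).trans (le_max_left _ _)).trans hx
  have hx6 : 6 ≤ x := (((le_max_left _ _).trans (le_max_left _ _)).trans (le_max_right _ _)).trans hx
  have hxβ : β.natAbs ^ 2 ≤ x := (((le_max_right _ _).trans (le_max_left _ _)).trans (le_max_right _ _)).trans hx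
  have hxη : ⌈(64 / η) ^ 2⌉₊ ≤ x := ((le_max_right _ _).trans (le_max_right _ _)).trans hx
  have hB6 : 6 ≤ B := hx6.trans hxB
  have hB6r : (6 : ℝ) ≤ B := by exact_mod_cast hB6
  have hB0 : (0 : ℝ) < B := by linarith
  have hlB : 0 < Real.log B := Real.log_pos (by linarith)
  have hx0 : (0 : ℝ) < x := by exact_mod_cast (by omega : 0 < x)
  have hM := hmain x hxx1 B hxB (by rw [pow_one]; exact hcx) (by
    intro i t h1 h2
    rw [Fq_eval]
    refine (hFB t h1 h2).trans ?_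
    apply mul_le_mul_of_nonneg_right _ hB0.le
    linarith)
  obtain ⟨E, hEc, hE⟩ := hH₀ (2 * B) (by omega)
  -- the good constant terms
  set S := (Ioc B (2 * B)).filter (fun b : ℕ =>
      (1 + θ₀) / 2 * EI (fun _ : Fin 1 => Fq s β) (fun _ => b) z * (x / Real.log B) ≤ cq s β b x ∧
      η * (x / Real.log B) ≤ cq s β b x) with hS
  have hScard : η * B ≤ (S.card : ℝ) := by
    rw [pow_one] at hM
    refine hM.trans ?_
    have : ((Fintype.piFinset (fun _ : Fin 1 => Ioc B (2 * B))).filter (fun b =>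
      (1 + θ₀) / 2 * EI (fun _ : Fin 1 => Fq s β) b z * (x / Real.log B ^ 1) ≤ cntI (fun _ : Fin 1 => Fq s β) b x ∧
      η * (x / Real.log B ^ 1) ≤ cntI (fun _ : Fin 1 => Fq s β) b x)).card ≤ S.card := by
      apply card_le_card_of_injOn (fun b => b 0)
      · intro b hb
        rw [mem_coe, mem_filter, Fintype.mem_piFinset] at hb
        obtain ⟨h1, h2, h3⟩ := hb
        have hb0 : b = fun _ => b 0 := by funext i; rw [Subsingleton.elim i 0]
        rw [pow_one, cntI_cq] at h2 h3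
        rw [mem_coe, hS, mem_filter]
        refine ⟨h1 0, ?_, h3⟩
        rw [← hb0]; exact h2
      · intro b _ b' _ h
        funext i
        rw [Subsingleton.elim i 0]
        exact h
    exact_mod_cast this
  set Sq := (Ioc B (2 * B)).filter (fun b : ℕ => IsSquare (β ^ 2 - 4 * s * (b : ℤ))) with hSq
  have hSqc : (Sq.card : ℝ) ≤ η / 4 * B := by
    have h1 : (Sq.card : ℝ) ≤ ((Nat.sqrt (β.natAbs ^ 2 + 8 * B) + 1 : ℕ) : ℝ) := by
      exact_mod_cast few_squares s β hs B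
    refine h1.trans ?_
    set y : ℝ := Real.sqrt B with hy
    have hy2 : y ^ 2 = B := Real.sq_sqrt hB0.le
    have hy0 : 0 ≤ y := Real.sqrt_nonneg _
    have h2 : ((Nat.sqrt (β.natAbs ^ 2 + 8 * B) : ℕ) : ℝ) ≤ 3 * y := by
      have h3 : (Nat.sqrt (β.natAbs ^ 2 + 8 * B)) ^ 2 ≤ β.natAbs ^ 2 + 8 * B := Nat.sqrt_le' _
      have h4 : (Nat.sqrt (β.natAbs ^ 2 + 8 * B)) ^ 2 ≤ 9 * B := by omega
      have h5 : ((Nat.sqrt (β.natAbs ^ 2 + 8 * B) : ℕ) : ℝ) ^ 2 ≤ (3 * y) ^ 2 := by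
        calc ((Nat.sqrt (β.natAbs ^ 2 + 8 * B) : ℕ) : ℝ) ^ 2 ≤ ((9 * B : ℕ) : ℝ) := by exact_mod_cast h4
          _ = (3 * y) ^ 2 := by rw [mul_pow, hy2]; push_cast; norm_num
      exact (pow_le_pow_iff_left₀ (Nat.cast_nonneg _) (by positivity) (by norm_num)).1 h5
    have hy1 : 1 ≤ y := by
      rw [hy]; exact Real.one_le_sqrt.2 (by linarith)
    have h6 : 64 / η ≤ y := by
      have h7 : (64 / η) ^ 2 ≤ B := (Nat.le_ceil _).trans (by exact_mod_cast hxη.trans hxB)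
      rw [hy]
      exact Real.le_sqrt_of_sq_le h7
    have h8 : 64 ≤ η * y := by
      rw [div_le_iff₀ hη] at h6; linarith
    push_cast
    calc ((Nat.sqrt (β.natAbs ^ 2 + 8 * B) : ℕ) : ℝ) + 1 ≤ 4 * y := by linarith
      _ ≤ (η * y) / 4 * y := by nlinarith
      _ = η / 4 * y ^ 2 := by ring
      _ = η / 4 * B := by rw [hy2]
  have hEc' : (E.card : ℝ) ≤ η / 4 * B := by
    refine hEc.trans (le_of_eq ?_)
    push_cast; ring
  have hdiff : κ * B ≤ ((S \ (Sq ∪ E)).card : ℝ) := by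
    have h1 : S.card ≤ (S \ (Sq ∪ E)).card + (Sq ∪ E).card := by
      have := card_le_card_sdiff_add_card (s := S) (t := Sq ∪ E)
      omega
    have h2 : (Sq ∪ E).card ≤ Sq.card + E.card := card_union_le _ _
    have h3 : (S.card : ℝ) ≤ ((S \ (Sq ∪ E)).card : ℝ) + ((Sq.card : ℝ) + (E.card : ℝ)) := by
      exact_mod_cast h1.trans (by omega)
    nlinarith
  refine hdiff.trans ?_
  have hsub : S \ (Sq ∪ E) ⊆ (Ioc B (2 * B)).filter (fun b : ℕ => ¬ IsSquare (β ^ 2 - 4 * s * (b : ℤ)) ∧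
      (¬ (2 : ℤ) ∣ β → ¬ (2 : ℤ) ∣ (b : ℤ)) ∧
      ∃ K : ℝ, 0 < K ∧ Tendsto (fun N => PJ (β ^ 2 - 4 * s * (b : ℤ)) 2 N) atTop (𝓝 K) ∧
        θ * (e2 β * K) * (x / Real.log B) ≤ cq s β b x ∧ κ * (x / Real.log B) ≤ cq s β b x) := by
    intro b hb
    rw [Finset.mem_sdiff, mem_union, not_or, hS, mem_filter, hSq, mem_filter] at hb
    obtain ⟨⟨hbI, hb1, hb2⟩, hb3, hb4⟩ := hb
    have hbI' := mem_Ioc.1 hbI
    have hD : ¬ IsSquare (β ^ 2 - 4 * s * (b : ℤ)) := fun h => hb3 ⟨hbI, h⟩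
    have hxl : (0 : ℝ) < x / Real.log B := by positivity
    -- parity
    have hpar : ¬ (2 : ℤ) ∣ β → ¬ (2 : ℤ) ∣ (b : ℤ) := by
      intro hβ h2b
      have hpos : (0 : ℝ) < cq s β b x := lt_of_lt_of_le (by positivity) hb2
      have hpos' : 0 < cq s β b x := by exact_mod_cast hpos
      unfold cq at hpos'
      rw [card_pos] at hpos'
      obtain ⟨t, ht⟩ := hpos'
      rw [mem_filter, mem_Icc] at ht
      obtain ⟨⟨ht1, ht2⟩, ht3⟩ := ht
      have hev : (2 : ℤ) ∣ s * (t : ℤ) ^ 2 + β * t + b := by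
        refine dvd_add ?_ h2b
        rcases Int.even_or_odd (t : ℤ) with ⟨m, hm⟩ | ⟨m, hm⟩
        · rw [hm]; exact ⟨s * 2 * m ^ 2 + β * m, by ring⟩
        · have h3 : (2 : ℤ) ∣ s + β := by
            rcases hs with h | h <;> subst h <;> omega
          obtain ⟨n, hn⟩ := h3
          rw [hm]
          exact ⟨s * (2 * m ^ 2 + 2 * m) + β * m + n, by linear_combination hn⟩
      set v : ℤ := s * (t : ℤ) ^ 2 + β * t + b with hv
      have h2v : 2 ∣ v.toNat := by
        have h3 : 0 < v := by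
          by_contra h4
          have h5 : v.toNat = 0 := Int.toNat_of_nonpos (by omega)
          rw [h5] at ht3
          exact Nat.not_prime_zero ht3
        have h4 : ((2 : ℕ) : ℤ) ∣ ((v.toNat : ℕ) : ℤ) := by
          rw [Int.toNat_of_nonneg h3.le]; exact_mod_cast hev
        exact_mod_cast h4
      have h2eq : v.toNat = 2 := by
        rcases (Nat.dvd_prime ht3).1 h2v with h | h
        · omega
        · exact h.symm
      have hv2 : v = 2 := by omega
      have h6 := (abs_le.1 (hFB t ht1 ht2)).1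
      have h7 : ((s * (t : ℤ) ^ 2 + β * t : ℤ) : ℝ) = 2 - b := by
        have : s * (t : ℤ) ^ 2 + β * t = 2 - b := by linarith
        rw [this]; push_cast; ring
      rw [h7] at h6
      have h8 : (B : ℝ) < b := by exact_mod_cast hbI'.1
      have h9 : κ * B ≤ 1 / 2 * B := mul_le_mul_of_nonneg_right hκ2 hB0.le
      linarith
    obtain ⟨K, hK0, hK⟩ := PJ_tendsto (β ^ 2 - 4 * s * (b : ℤ)) hD 2 le_rfl
    have hev := hE b (by rw [mem_Icc]; omega) hb4 hD
    set D : ℤ := β ^ 2 - 4 * s * (b : ℤ) with hDdef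
    have hKle : K ≤ PJ D 2 z * Real.exp (2 * δ) := by
      apply le_of_tendsto hK
      filter_upwards [hev, eventually_ge_atTop z] with N h1 hN
      rw [PJ_split D z N hz2 hN]
      apply mul_le_mul_of_nonneg_left _ (PJ_pos D 2 z le_rfl).le
      refine (PJ_le D z N hz2 hN).trans (Real.exp_le_exp.2 ?_)
      linarith
    rw [mem_filter]
    refine ⟨hbI, hD, hpar, K, hK0, hK, ?_, ?_⟩
    · refine le_trans ?_ hb1
      rw [EI_PJ s β hs (fun _ => b) hpar z hz2]
      have hPJ := PJ_pos D 2 z le_rfl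
      have he2 := e2_pos β
      have hexp : Real.exp (2 * δ) ≤ 1 + 2 * (2 * δ) := exp_le_lin (by linarith) (by linarith)
      have h1 : θ * (e2 β * K) ≤ (1 + θ₀) / 2 * (e2 β * PJ D 2 z) := by
        calc θ * (e2 β * K) ≤ θ₀ * (e2 β * K) := by
              apply mul_le_mul_of_nonneg_right hθθ; positivity
          _ ≤ θ₀ * (e2 β * (PJ D 2 z * (1 + 2 * (2 * δ)))) := by
              apply mul_le_mul_of_nonneg_left _ hθ0
              apply mul_le_mul_of_nonneg_left _ he2.le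
              exact hKle.trans (mul_le_mul_of_nonneg_left hexp hPJ.le)
          _ = (θ₀ * (1 + 2 * (2 * δ))) * (e2 β * PJ D 2 z) := by ring
          _ ≤ (1 + θ₀) / 2 * (e2 β * PJ D 2 z) := by
              apply mul_le_mul_of_nonneg_right _ (by positivity)
              rw [hδ]
              nlinarith
      exact mul_le_mul_of_nonneg_right h1 hxl.le
    · refine le_trans ?_ hb2
      apply mul_le_mul_of_nonneg_right _ hxl.le
      linarith
  exact_mod_cast card_le_card hsub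

end Pool.Agent.W218.PG
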