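import Mathlib
import Pool.Agent.W218.PG.MainI
import Pool.Agent.W218.PG.QI
import Pool.Agent.W218.LF.Main2
import Pool.Agent.W218.PF.Tail

set_option autoImplicit false

/-! Preparations: numbers `t` with `t` prime to `a` and `a + b t` without small prime factors. -/

namespace Pool.Agent.W218.PG

open Finset Pool.Agent.Erdos456 Pool.Agent.Erdos456.Mert Pool.Agent.W218.HF Pool.Agent.W218.LF Pool.Agent.W218.PF

/-- `z ∏_{p ≤ z} (1 - 1/p)` tends to infinity -/
lemma z_Wz (M : ℝ) (hM : 0 < M) : ∃ z0 : ℕ, ∀ z : ℕ, z0 ≤ z → M ≤ z * Wz z := by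
  obtain ⟨C, hC, h⟩ := prod_mertens_gen 8
  refine ⟨⌈C * M ^ 2⌉₊ + 1, fun z hz => ?_⟩
  have hz1 : 1 ≤ z := by omega
  have hzC : C * M ^ 2 ≤ z := (Nat.le_ceil _).trans (by exact_mod_cast (by omega : ⌈C * M ^ 2⌉₊ ≤ z))
  have hz0 : (0 : ℝ) < z := by exact_mod_cast hz1
  have hW := Wz_pos z
  have h1 : ((Wz z)⁻¹) ^ 2 ≤ C * z := by
    refine le_trans ?_ (h z hz1)
    rw [Wz_PS, ← prod_inv_distrib, ← prod_pow]
    have e : PP z = PS z := by
      rw [PS_eq]
    rw [e]
    apply Finset.prod_le_prod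
    · intro p _; positivity
    · intro p hp
      have := pow_factor 2 (prime_PS hp)
      rw [one_div]
      norm_num at this ⊢
      exact this
  have h2 : (M / z) ^ 2 ≤ (Wz z) ^ 2 := by
    have h3 : 1 ≤ C * z * Wz z ^ 2 := by
      calc (1 : ℝ) = ((Wz z)⁻¹) ^ 2 * Wz z ^ 2 := by
            rw [← mul_pow, inv_mul_cancel₀ hW.ne', one_pow]
        _ ≤ C * z * Wz z ^ 2 := mul_le_mul_of_nonneg_right h1 (by positivity)
    rw [div_pow, div_le_iff₀ (by positivity)]
    have h4 : 0 ≤ Wz z ^ 2 * z := by positivity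
    calc M ^ 2 = M ^ 2 * 1 := by ring
      _ ≤ M ^ 2 * (C * z * Wz z ^ 2) := by gcongr
      _ = (C * M ^ 2) * (z * Wz z ^ 2) := by ring
      _ ≤ z * (z * Wz z ^ 2) := by gcongr
      _ = Wz z ^ 2 * z ^ 2 := by ring
  have h3 : M / z ≤ Wz z := (pow_le_pow_iff_left₀ (by positivity) hW.le (by norm_num)).1 h2
  rw [div_le_iff₀ hz0] at h3
  linarith

/-- the product of `1 - 1/p` over the primes `p ≤ z` which do not divide `b` -/
noncomputable def Eb (z b : ℕ) : ℝ := ∏ p ∈ PS z, (if p ∣ b then 1 else 1 - 1 / (p : ℝ))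

lemma Eb_pos (z b : ℕ) : 0 < Eb z b := by
  unfold Eb
  apply prod_pos
  intro p hp
  split_ifs
  · norm_num
  · exact one_sub_pos (prime_PS hp)

lemma Wz_le_Eb (z b : ℕ) : Wz z ≤ Eb z b := by
  rw [Wz_PS]
  unfold Eb
  apply Finset.prod_le_prod
  · intro p hp; exact (one_sub_pos (prime_PS hp)).le
  · intro p hp
    split_ifs
    · have : 0 ≤ 1 / (p : ℝ) := by positivity
      linarith
    · exact le_rfl

open Classical in
lemma rough_ab (z R : ℕ) (ε : ℝ) (hε : 0 < ε) (hR : (R : ℝ) ≤ ε * (z * Wz z)) (hz : 1 ≤ z) : ∃ x0 : ℕ, ∀ x : ℕ, x0 ≤ x →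
    ∀ a : ℤ, a ≠ 0 → a.natAbs.primeFactors.card ≤ R → ∀ b : ℕ, IsCoprime a (b : ℤ) →
      (1 - 2 * ε) * Eb z b * x ≤ (((Ioc 1 x).filter (fun t : ℕ => Nat.Coprime t a.natAbs ∧
        ∀ p ≤ z, p.Prime → ¬ ((p : ℤ) ∣ a + b * t))).card : ℝ) := by
  obtain ⟨x0, hx0⟩ := rough_I z 1 ε hε
  refine ⟨x0, fun x hx a ha hRa b hab => ?_⟩
  obtain ⟨V, hV⟩ : ∃ V : ℕ → ℕ → Prop, ∀ p t, V p t ↔ (p : ℤ) ∣ a + b * t := ⟨_, fun _ _ => Iff.rfl⟩
  have hz0 : (0 : ℝ) < z := by exact_mod_cast hz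
  have hper : ∀ p ∈ PS z, ∀ t, V p (t % p) ↔ V p t := by
    intro p _ t
    rw [hV, hV]
    have h1 : (p : ℤ) ∣ ((t % p : ℕ) : ℤ) - t := by
      rw [← Int.modEq_iff_dvd]
      push_cast
      exact (Int.mod_modEq _ _).symm
    constructor
    · intro h
      have := dvd_sub h (dvd_mul_of_dvd_right h1 (b : ℤ))
      have e : a + (b : ℤ) * ((t % p : ℕ) : ℤ) - b * (((t % p : ℕ) : ℤ) - t) = a + b * t := by ring
      rwa [e] at this
    · intro h
      have := dvd_add h (dvd_mul_of_dvd_right h1 (b : ℤ))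
      have e : a + (b : ℤ) * t + b * (((t % p : ℕ) : ℤ) - t) = a + b * ((t % p : ℕ) : ℤ) := by ring
      rwa [e] at this
  have h1 := hx0 x hx V hper
  have hw : Eb z b ≤ ∏ p ∈ PS z, (1 - (wI V p : ℝ) / p) := by
    unfold Eb
    apply Finset.prod_le_prod
    · intro p hp
      split_ifs
      · norm_num
      · exact (one_sub_pos (prime_PS hp)).le
    · intro p hp
      have hpp := prime_PS hp
      have hpi : Prime (p : ℤ) := Nat.prime_iff_prime_int.1 hpp
      have hp0 : (0 : ℝ) < p := by exact_mod_cast hpp.pos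
      split_ifs with hb
      · have hw0 : wI V p = 0 := by
          unfold wI
          rw [card_eq_zero, filter_eq_empty_iff]
          intro r _ hr
          rw [hV] at hr
          have hb' : (p : ℤ) ∣ b := Int.natCast_dvd_natCast.2 hb
          have ha' : (p : ℤ) ∣ a := (dvd_add_left (dvd_mul_of_dvd_left hb' _)).1 hr
          have := hab.isUnit_of_dvd' ha' hb'
          exact hpi.not_unit this
        rw [hw0]; simp
      · have hw1 : wI V p ≤ 1 := by
          unfold wI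
          rw [card_le_one]
          intro r hr s hs
          rw [mem_filter, mem_range] at hr hs
          obtain ⟨hr1, hr2⟩ := hr
          obtain ⟨hs1, hs2⟩ := hs
          rw [hV] at hr2 hs2
          have h3 := dvd_sub hr2 hs2
          have e : a + (b : ℤ) * r - (a + b * s) = b * ((r : ℤ) - s) := by ring
          rw [e] at h3
          have h4 : (p : ℤ) ∣ (r : ℤ) - s := by
            rcases hpi.dvd_or_dvd h3 with h | h
            · exact absurd (Int.natCast_dvd_natCast.1 h) hb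
            · exact h
          have h5 : (r : ℤ) ≡ s [ZMOD p] := (Int.modEq_iff_dvd.2 h4).symm
          have h6 : r ≡ s [MOD p] := Int.natCast_modEq_iff.1 h5
          exact Nat.ModEq.eq_of_lt_of_lt h6 hr1 hs1
        have hw1r : (wI V p : ℝ) ≤ 1 := by exact_mod_cast hw1
        have : (wI V p : ℝ) / p ≤ 1 / p := by gcongr
        linarith
  set N1 := (((Ioc 1 x).filter (fun t : ℕ => ∀ p ∈ PS z, ¬ V p t)).card : ℝ) with hN1
  set N2 := (((Ioc 1 x).filter (fun t : ℕ => Nat.Coprime t a.natAbs ∧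
        ∀ p ≤ z, p.Prime → ¬ ((p : ℤ) ∣ a + b * t))).card : ℝ) with hN2
  have hx0' : (0 : ℝ) ≤ x := Nat.cast_nonneg x
  -- comparison
  set A := a.natAbs.primeFactors.filter (fun p => z < p) with hA
  have hcomp : N1 ≤ N2 + ∑ p ∈ A, (x : ℝ) / p := by
    have hsub : (Ioc 1 x).filter (fun t : ℕ => ∀ p ∈ PS z, ¬ V p t) ⊆
        (Ioc 1 x).filter (fun t : ℕ => Nat.Coprime t a.natAbs ∧ ∀ p ≤ z, p.Prime → ¬ ((p : ℤ) ∣ a + b * t)) ∪
        A.biUnion (fun p => (Ioc 0 x).filter (fun t => p ∣ t)) := by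
      intro t ht
      rw [mem_filter, mem_Ioc] at ht
      obtain ⟨⟨ht1, ht2⟩, ht3⟩ := ht
      rw [mem_union, mem_filter, mem_biUnion, mem_Ioc]
      by_cases hex : ∃ p ∈ A, p ∣ t
      · right
        obtain ⟨p, hp, hpt⟩ := hex
        exact ⟨p, hp, by rw [mem_filter, mem_Ioc]; exact ⟨by omega, hpt⟩⟩
      · left
        push Not at hex
        have hsm : ∀ p ≤ z, p.Prime → ¬ ((p : ℤ) ∣ a + b * t) := by
          intro p hp hpp
          rw [← hV]
          exact ht3 p (by unfold PS; rw [mem_filter, mem_range]; exact ⟨by omega, hpp⟩)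
        refine ⟨⟨ht1, ht2⟩, ?_, hsm⟩
        by_contra hcop
        obtain ⟨p, hpp, hp1, hp2⟩ := Nat.Prime.not_coprime_iff_dvd.1 hcop
        by_cases hpz : z < p
        · exact hex p (by rw [hA, mem_filter, Nat.mem_primeFactors]; exact ⟨⟨hpp, hp2, by omega⟩, hpz⟩) hp1
        · apply hsm p (by omega) hpp
          have h3 : (p : ℤ) ∣ a := Int.natCast_dvd.2 hp2
          have h4 : (p : ℤ) ∣ t := Int.natCast_dvd_natCast.2 hp1
          exact dvd_add h3 (dvd_mul_of_dvd_right h4 _)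
    have h2 := (card_le_card hsub).trans ((card_union_le _ _).trans (Nat.add_le_add_left card_biUnion_le _))
    have h3 : N1 ≤ N2 + ∑ p ∈ A, (((Ioc 0 x).filter (fun t => p ∣ t)).card : ℝ) := by
      rw [hN1, hN2]; exact_mod_cast h2
    refine h3.trans ?_
    have h4 : ∑ p ∈ A, (((Ioc 0 x).filter (fun t => p ∣ t)).card : ℝ) ≤ ∑ p ∈ A, (x : ℝ) / p := by
      apply sum_le_sum
      intro p _
      rw [Nat.Ioc_filter_dvd_card_eq_div]
      exact Nat.cast_div_le
    linarith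
  have hA2 : ∑ p ∈ A, (x : ℝ) / p ≤ ε * Wz z * x := by
    calc ∑ p ∈ A, (x : ℝ) / p ≤ ∑ _p ∈ A, (x : ℝ) / z := by
          apply sum_le_sum
          intro p hp
          rw [hA, mem_filter] at hp
          have : (z : ℝ) ≤ p := by exact_mod_cast hp.2.le
          gcongr
      _ = A.card * (x / z) := by rw [sum_const, nsmul_eq_mul]
      _ ≤ R * (x / z) := by
          have : (A.card : ℝ) ≤ R := by exact_mod_cast (card_filter_le _ _).trans hRa
          gcongr
      _ ≤ (ε * (z * Wz z)) * (x / z) := by gcongr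
      _ = ε * Wz z * x := by field_simp
  have hWE := Wz_le_Eb z b
  have hE0 := Eb_pos z b
  by_cases hε1 : ε ≤ 1
  · have h5 : (1 - ε) * Eb z b * x ≤ N1 := by
      refine le_trans ?_ h1
      have : 0 ≤ 1 - ε := by linarith
      gcongr
    have h6 : ε * Wz z * x ≤ ε * Eb z b * x := by gcongr
    have e : (1 - 2 * ε) * Eb z b * x = (1 - ε) * Eb z b * x - ε * Eb z b * x := by ring
    rw [e]
    linarith
  · have h5 : (1 - 2 * ε) * Eb z b * x ≤ 0 := by
      have : (1 - 2 * ε) ≤ 0 := by linarith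
      have h6 : 0 ≤ Eb z b * x := by positivity
      calc (1 - 2 * ε) * Eb z b * x = (1 - 2 * ε) * (Eb z b * x) := by ring
        _ ≤ 0 := mul_nonpos_of_nonpos_of_nonneg this h6
    have h7 : 0 ≤ N2 := Nat.cast_nonneg _
    linarith

end Pool.Agent.W218.PG
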