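import Mathlib
import Pool.Agent.W218.PG.EH1

set_option autoImplicit false

/-! Primes in arithmetic progressions to large moduli, for a positive proportion of the moduli. -/

namespace Pool.Agent.W218.PG

open Finset Filter Topology Pool.Agent.Erdos456 Pool.Agent.Erdos456.Mert Pool.Agent.W218.HF Pool.Agent.W218.LF
  Pool.Agent.W218.PF

/-- the number of primes `p ≤ y` with `p ≡ a (mod q)` -/
def piA (y q : ℕ) (a : ℤ) : ℕ := ((Icc 1 y).filter (fun p : ℕ => p.Prime ∧ (p : ℤ) ≡ a [ZMOD q])).card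

/-- the prime number theorem, upper bound -/
lemma pnt_up (ε : ℝ) (hε : 0 < ε) : ∃ x0 : ℕ, ∀ x : ℕ, x0 ≤ x →
    (Nat.primeCounting x : ℝ) ≤ (1 + ε) * (x / Real.log x) := by
  have h1 := Helper507.PNT.pi_tendsto
  have h2 := h1.eventually_le_const (show (1 : ℝ) < 1 + ε by linarith)
  obtain ⟨u, hu⟩ := eventually_atTop.1 h2
  refine ⟨max ⌈u⌉₊ 3, fun x hx => ?_⟩
  have hx3 : (3 : ℝ) ≤ x := by exact_mod_cast (le_max_right _ _).trans hx
  have hxu : u ≤ x := (Nat.le_ceil _).trans (by exact_mod_cast (le_max_left _ _).trans hx)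
  have h3 := hu x hxu
  rw [Nat.floor_natCast] at h3
  have hl : 0 < Real.log x := Real.log_pos (by linarith)
  have hx0 : (0 : ℝ) < x := by linarith
  rw [div_le_iff₀ hx0] at h3
  have : (1 + ε) * ((x : ℝ) / Real.log x) = (1 + ε) * x / Real.log x := by ring
  rw [this, le_div_iff₀ hl]
  exact h3

/-- `q / φ(q)` and the cut product -/
lemma GG_cut (z q : ℕ) (hz : 1 ≤ z) (hq : 0 < q) (Y : ℕ) (hY : q ≤ Y) (ε : ℝ)
    (hdiv : ∑ p ∈ (PY z Y).filter (fun p : ℕ => (p : ℤ) ∣ 1 * (q : ℤ) - 0), 1 / (p : ℝ) ≤ ε) :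
    (q : ℝ) / Nat.totient q * Wz z ≤ Eb z q * Real.exp (2 * ε) := by
  classical
  have h1 : (q : ℝ) / Nat.totient q = ∏ p ∈ q.primeFactors, (1 - (p : ℝ)⁻¹)⁻¹ := GG_eq_prod hq
  set A := q.primeFactors.filter (fun p => p ≤ z) with hA
  set B := q.primeFactors.filter (fun p => ¬ p ≤ z) with hB
  have h2 : ∏ p ∈ q.primeFactors, (1 - (p : ℝ)⁻¹)⁻¹ = (∏ p ∈ A, (1 - (p : ℝ)⁻¹)⁻¹) * ∏ p ∈ B, (1 - (p : ℝ)⁻¹)⁻¹ :=
    (prod_filter_mul_prod_filter_not _ _ _).symm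
  have h3 : (∏ p ∈ A, (1 - (p : ℝ)⁻¹)⁻¹) * Wz z = Eb z q := by
    have e1 : A = (PS z).filter (fun p => p ∣ q) := by
      ext p
      rw [hA, mem_filter, mem_filter, Nat.mem_primeFactors]
      unfold PS
      rw [mem_filter, mem_range]
      constructor
      · rintro ⟨⟨k1, k2, k3⟩, k4⟩; exact ⟨⟨by omega, k1⟩, k2⟩
      · rintro ⟨⟨k1, k2⟩, k3⟩; exact ⟨⟨k2, k3, by omega⟩, by omega⟩
    rw [e1, Wz_PS, prod_filter, ← prod_mul_distrib]
    unfold Eb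
    apply prod_congr rfl
    intro p hp
    have := one_sub_pos (prime_PS hp)
    split_ifs
    · rw [one_div] at this ⊢
      exact inv_mul_cancel₀ this.ne'
    · rw [one_mul]
  have h4 : ∏ p ∈ B, (1 - (p : ℝ)⁻¹)⁻¹ ≤ Real.exp (2 * ε) := by
    have h5 : ∏ p ∈ B, (1 - (p : ℝ)⁻¹)⁻¹ ≤ ∏ p ∈ B, Real.exp (2 / (p : ℝ)) := by
      apply Finset.prod_le_prod
      · intro p hp
        rw [hB, mem_filter, Nat.mem_primeFactors] at hp
        have := one_sub_pos hp.1.1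
        rw [one_div] at this
        positivity
      · intro p hp
        rw [hB, mem_filter, Nat.mem_primeFactors] at hp
        have hp2 : (2 : ℝ) ≤ p := by exact_mod_cast hp.1.1.two_le
        have h6 := Real.add_one_le_exp (2 / (p : ℝ))
        refine le_trans ?_ h6
        have h7 : (1 - (p : ℝ)⁻¹)⁻¹ = p / (p - 1) := by
          have : (p : ℝ) - 1 ≠ 0 := by linarith
          field_simp
        rw [h7, div_le_iff₀ (by linarith)]
        have hp0 : (p : ℝ) ≠ 0 := by linarith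
        have : (2 / (p : ℝ) + 1) * (p - 1) = p + 1 - 2 / p := by field_simp; ring
        rw [this]
        have h8 : 2 / (p : ℝ) ≤ 1 := by rw [div_le_one (by linarith)]; linarith
        linarith
    refine h5.trans ?_
    rw [← Real.exp_sum, Real.exp_le_exp]
    have h6 : ∑ p ∈ B, 2 / (p : ℝ) ≤ ∑ p ∈ (PY z Y).filter (fun p : ℕ => (p : ℤ) ∣ 1 * (q : ℤ) - 0), 2 / (p : ℝ) := by
      apply sum_le_sum_of_subset_of_nonneg
      · intro p hp
        rw [hB, mem_filter, Nat.mem_primeFactors] at hp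
        obtain ⟨⟨k1, k2, k3⟩, k4⟩ := hp
        unfold PY
        rw [mem_filter, mem_filter, mem_Ioc, one_mul, sub_zero]
        exact ⟨⟨⟨by omega, (Nat.le_of_dvd hq k2).trans hY⟩, k1⟩, Int.natCast_dvd_natCast.2 k2⟩
      · intro p _ _; positivity
    refine h6.trans ?_
    have e2 : ∑ p ∈ (PY z Y).filter (fun p : ℕ => (p : ℤ) ∣ 1 * (q : ℤ) - 0), 2 / (p : ℝ) =
        2 * ∑ p ∈ (PY z Y).filter (fun p : ℕ => (p : ℤ) ∣ 1 * (q : ℤ) - 0), 1 / (p : ℝ) := by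
      rw [mul_sum]
      apply sum_congr rfl
      intro p _; ring
    rw [e2]
    linarith
  rw [h1, h2]
  have h5 : 0 ≤ ∏ p ∈ B, (1 - (p : ℝ)⁻¹)⁻¹ := by
    apply prod_nonneg
    intro p hp
    rw [hB, mem_filter, Nat.mem_primeFactors] at hp
    have := one_sub_pos hp.1.1
    rw [one_div] at this
    positivity
  calc (∏ p ∈ A, (1 - (p : ℝ)⁻¹)⁻¹) * (∏ p ∈ B, (1 - (p : ℝ)⁻¹)⁻¹) * Wz z =
      ((∏ p ∈ A, (1 - (p : ℝ)⁻¹)⁻¹) * Wz z) * ∏ p ∈ B, (1 - (p : ℝ)⁻¹)⁻¹ := by ring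
    _ = Eb z q * ∏ p ∈ B, (1 - (p : ℝ)⁻¹)⁻¹ := by rw [h3]
    _ ≤ Eb z q * Real.exp (2 * ε) := mul_le_mul_of_nonneg_left h4 (Eb_pos z q).le

end Pool.Agent.W218.PG
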