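import Mathlib
import Pool.Agent.W218.PG.EH2

set_option autoImplicit false

/-! Primes in arithmetic progressions to large moduli: the main theorem. -/

namespace Pool.Agent.W218.PG

open Finset Filter Topology Pool.Agent.Erdos456 Pool.Agent.Erdos456.Mert Pool.Agent.W218.HF Pool.Agent.W218.LF
  Pool.Agent.W218.PF

lemma tot_low (R : ℕ) (a : ℕ) (ha : 0 < a) (hR : a.primeFactors.card ≤ R) : 1 / 2 ^ R * (a : ℝ) ≤ Nat.totient a := by
  have h1 : (a : ℝ) / Nat.totient a = ∏ p ∈ a.primeFactors, (1 - (p : ℝ)⁻¹)⁻¹ := GG_eq_prod ha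
  have h2 : ∏ p ∈ a.primeFactors, (1 - (p : ℝ)⁻¹)⁻¹ ≤ 2 ^ R := by
    calc ∏ p ∈ a.primeFactors, (1 - (p : ℝ)⁻¹)⁻¹ ≤ ∏ _p ∈ a.primeFactors, (2 : ℝ) := by
          apply Finset.prod_le_prod
          · intro p hp
            have := one_sub_pos (Nat.prime_of_mem_primeFactors hp)
            rw [one_div] at this
            positivity
          · intro p hp
            have hp2 : (2 : ℝ) ≤ p := by exact_mod_cast (Nat.prime_of_mem_primeFactors hp).two_le
            have h3 : (1 - (p : ℝ)⁻¹)⁻¹ = p / (p - 1) := by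
              have : (p : ℝ) - 1 ≠ 0 := by linarith
              field_simp
            rw [h3, div_le_iff₀ (by linarith)]
            linarith
      _ = 2 ^ a.primeFactors.card := by rw [prod_const]
      _ ≤ 2 ^ R := pow_le_pow_right₀ (by norm_num) hR
  have hφ : (0 : ℝ) < Nat.totient a := by exact_mod_cast Nat.totient_pos.2 ha
  rw [← h1, div_le_iff₀ hφ] at h2
  have h4 : (0 : ℝ) < 2 ^ R := by positivity
  rw [one_div, inv_mul_le_iff₀ h4]
  linarith

open Classical in
theorem ehMain : ∃ C : ℕ, ∀ R : ℕ, ∀ θ : ℝ, θ < 1 → ∃ κ : ℝ, 0 < κ ∧ ∃ Q₀ : ℕ, ∀ Q : ℕ, Q₀ ≤ Q →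
    ∀ a : ℤ, a ≠ 0 → a.natAbs ≤ Q → a.natAbs.primeFactors.card ≤ R →
    ∀ K : ℕ, Real.log Q ≤ K → K * Real.log Q ^ C ≤ Q →
    κ * Q ≤ (((Ioc Q (2 * Q)).filter (fun q : ℕ => IsCoprime a (q : ℤ) ∧
      θ * ((Nat.primeCounting (K * q) : ℝ) / Nat.totient q) ≤ piA (K * q) q a ∧
      κ * (K / Real.log Q) ≤ piA (K * q) q a)).card : ℝ) := by
  obtain ⟨C, hmain⟩ := main2 1 le_rfl
  refine ⟨C, fun R θ hθ => ?_⟩
  set θ₀ : ℝ := max θ 0 with hθ₀
  have hθ0 : 0 ≤ θ₀ := le_max_right _ _
  have hθ1 : θ₀ < 1 := max_lt hθ one_pos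
  have hθθ : θ ≤ θ₀ := le_max_left _ _
  set u : ℝ := 1 - θ₀ with hu
  have hu0 : 0 < u := by rw [hu]; linarith
  have hu1 : u ≤ 1 := by rw [hu]; linarith
  set ε : ℝ := u / 32 with hε
  have hε0 : 0 < ε := by positivity
  have hε1 : ε ≤ 1 / 32 := by rw [hε]; linarith
  -- a first cut
  obtain ⟨z₁', hz₁'⟩ := z_Wz (4 * R + 1) (by positivity)
  set z₁ : ℕ := max z₁' 1 with hz₁
  have hz₁R : (R : ℝ) ≤ 1 / 4 * (z₁ * Wz z₁) := by
    have := hz₁' z₁ (le_max_left _ _)
    linarith
  obtain ⟨x₁, hx₁⟩ := rough_ab z₁ R (1 / 4) (by norm_num) hz₁R (le_max_right _ _)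
  set δ : ℝ := min (Wz z₁ / 4) (1 / 2 ^ R) with hδ
  have hWz₁ := Wz_pos z₁
  have hδ0 : 0 < δ := by rw [hδ]; positivity
  obtain ⟨η, hη, B₀, hmain⟩ := hmain 1 le_rfl δ hδ0 ((1 + θ₀) / 2) (by linarith)
  -- the second cut
  obtain ⟨z₂', hz₂'⟩ := z_Wz ((R + 1) / ε) (by positivity)
  set z : ℕ := max (max z₂' 1) ⌈8 / (ε * η)⌉₊ with hz
  have hz1 : 1 ≤ z := (le_max_right _ _).trans (le_max_left _ _)
  have hzr : (0 : ℝ) < z := by exact_mod_cast hz1
  have hzR : (R : ℝ) ≤ ε * (z * Wz z) := by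
    have h1 := hz₂' z ((le_max_left _ _).trans (le_max_left _ _))
    rw [div_le_iff₀ hε0] at h1
    linarith
  have hzη : 8 / (ε * η) ≤ z := (Nat.le_ceil _).trans (by exact_mod_cast le_max_right _ _)
  have hWz := Wz_pos z
  obtain ⟨x₂, hx₂⟩ := rough_ab z R ε hε0 hzR hz1
  obtain ⟨x₃, hx₃⟩ := pnt_up ε hε0
  obtain ⟨y₄, hy₄⟩ := eventually_atTop.1 ((Real.isLittleO_log_id_atTop.bound
    (show (0 : ℝ) < 1 / (4 * z) by positivity)).and (eventually_ge_atTop (4 * (z : ℝ))))
  set κ : ℝ := η / 2 with hκ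
  have hκ0 : 0 < κ := by positivity
  set L : ℕ := max (max x₁ x₂) (max 4 ⌈1 / ε⌉₊) with hL
  refine ⟨κ, hκ0, max (max (max B₀ ⌈Real.exp (L + 1)⌉₊) (max x₃ ⌈y₄⌉₊)) (max ⌈(Pz z : ℝ) / η⌉₊ 3), ?_⟩
  intro Q hQ a ha0 haQ haR K hK1 hK2
  have hQB : B₀ ≤ Q := (((le_max_left _ _).trans (le_max_left _ _)).trans (le_max_left _ _)).trans hQ
  have hQL : ⌈Real.exp (L + 1)⌉₊ ≤ Q := (((le_max_right _ _).trans (le_max_left _ _)).trans (le_max_left _ _)).trans hQ
  have hQ3 : x₃ ≤ Q := (((le_max_left _ _).trans (le_max_right _ _)).trans (le_max_left _ _)).trans hQ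
  have hQ4 : ⌈y₄⌉₊ ≤ Q := (((le_max_right _ _).trans (le_max_right _ _)).trans (le_max_left _ _)).trans hQ
  have hQP : ⌈(Pz z : ℝ) / η⌉₊ ≤ Q := ((le_max_left _ _).trans (le_max_right _ _)).trans hQ
  have hQ3' : 3 ≤ Q := ((le_max_right _ _).trans (le_max_right _ _)).trans hQ
  have hQr : (3 : ℝ) ≤ Q := by exact_mod_cast hQ3'
  have hQ0 : (0 : ℝ) < Q := by linarith
  have hexp : Real.exp (L + 1) ≤ Q := (Nat.le_ceil _).trans (by exact_mod_cast hQL)
  have hlQ : (L : ℝ) + 1 ≤ Real.log Q := by rwa [Real.le_log_iff_exp_le hQ0]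
  have hlQ0 : 0 < Real.log Q := by
    have : (0 : ℝ) ≤ L := Nat.cast_nonneg _
    linarith
  have hKL : L + 1 ≤ K := by
    have : ((L + 1 : ℕ) : ℝ) ≤ K := by push_cast; linarith
    exact_mod_cast this
  have hK4 : 4 ≤ K - 1 := by
    have : 4 ≤ L := (le_max_left _ _).trans (le_max_right _ _)
    omega
  have hKx₁ : x₁ ≤ K - 1 := by
    have : x₁ ≤ L := (le_max_left _ _).trans (le_max_left _ _)
    omega
  have hKx₂ : x₂ ≤ K - 1 := by
    have : x₂ ≤ L := (le_max_right _ _).trans (le_max_left _ _)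
    omega
  have hKr : (0 : ℝ) < K := by exact_mod_cast (by omega : 0 < K)
  have hK1r : ((K - 1 : ℕ) : ℝ) = K - 1 := by
    rw [Nat.cast_sub (by omega)]; simp
  have hKε : (1 - ε) * K ≤ K - 1 := by
    have h1 : 1 / ε ≤ K := by
      have h2 : ⌈1 / ε⌉₊ ≤ L := (le_max_right _ _).trans (le_max_right _ _)
      exact (Nat.le_ceil _).trans (by exact_mod_cast (by omega : ⌈1 / ε⌉₊ ≤ K))
    rw [div_le_iff₀ hε0] at h1
    linarith
  set T : Finset ℕ := (Ioc 1 (K - 1)).filter (fun t : ℕ => Nat.Coprime t a.natAbs) with hT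
  have hTc : δ * K ≤ T.card := by
    have h1 := hx₁ (K - 1) hKx₁ a ha0 haR 1 (by simpa using isCoprime_one_right)
    have h2 : (((Ioc 1 (K - 1)).filter (fun t : ℕ => Nat.Coprime t a.natAbs ∧
        ∀ p ≤ z₁, p.Prime → ¬ ((p : ℤ) ∣ a + ((1 : ℕ) : ℤ) * t))).card : ℝ) ≤ T.card := by
      have : ((Ioc 1 (K - 1)).filter (fun t : ℕ => Nat.Coprime t a.natAbs ∧
        ∀ p ≤ z₁, p.Prime → ¬ ((p : ℤ) ∣ a + ((1 : ℕ) : ℤ) * t))).card ≤ T.card := by
        apply card_le_card
        intro t ht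
        rw [mem_filter] at ht
        rw [hT, mem_filter]
        exact ⟨ht.1, ht.2.1⟩
      exact_mod_cast this
    have h3 := Wz_le_Eb z₁ 1
    have h3' := Eb_pos z₁ 1
    have h4 : δ ≤ Wz z₁ / 4 := min_le_left _ _
    rw [hK1r] at h1
    have h5 : (K : ℝ) / 2 ≤ K - 1 := by
      have : (5 : ℝ) ≤ K := by exact_mod_cast (by omega : 5 ≤ K)
      linarith
    calc δ * K ≤ Wz z₁ / 4 * K := by gcongr
      _ = 1 / 2 * Wz z₁ * (K / 2) := by ring
      _ ≤ 1 / 2 * Eb z₁ 1 * (K - 1) := by gcongr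
      _ = (1 - 2 * (1 / 4)) * Eb z₁ 1 * (K - 1) := by norm_num
      _ ≤ _ := h1.trans h2
  have ha1 : 0 < a.natAbs := Int.natAbs_pos.2 ha0
  have hPz : (Pz z : ℝ) ≤ η * Q := by
    have h1 : (Pz z : ℝ) / η ≤ Q := (Nat.le_ceil _).trans (by exact_mod_cast hQP)
    rw [div_le_iff₀ hη] at h1
    linarith
  have hM := hmain Q hQB z hPz K (fun _ => Polynomial.C a) T
    (fun _ => by rw [Polynomial.natDegree_C]; omega)
    (fun _ => by
      rw [Polynomial.coeff_C_zero]
      refine ⟨ha0, haQ, ?_⟩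
      refine le_trans ?_ (tot_low R _ ha1 haR)
      have : δ ≤ 1 / 2 ^ R := min_le_right _ _
      gcongr)
    (fun _ => by
      rw [Icc_self, sum_singleton, Polynomial.coeff_C_succ]
      simp)
    (by rw [pow_one]; exact hK1) hK2
    (by
      intro t ht
      rw [hT, mem_filter, mem_Ioc] at ht
      rw [mem_Icc]; omega)
    (fun t ht _ => by
      rw [hT, mem_filter] at ht
      rw [Polynomial.coeff_C_zero]
      exact ht.2)
    hTc
  rw [pow_one] at hM
  -- the good moduli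
  set S := (Ioc Q (2 * Q)).filter (fun b : ℕ =>
      (1 + θ₀) / 2 * (roughT z (fun _ : Fin 1 => Polynomial.C a) (fun _ => b) T / Wz z ^ 1) / Real.log (Q * K) ^ 1 ≤
        primeT (fun _ : Fin 1 => Polynomial.C a) (fun _ => b) T ∧
      η * K / Real.log Q ^ 1 ≤ primeT (fun _ : Fin 1 => Polynomial.C a) (fun _ => b) T) with hS
  have hScard : η * Q ≤ (S.card : ℝ) := by
    refine hM.trans ?_
    have : ((Fintype.piFinset (fun _ : Fin 1 => Ioc Q (2 * Q))).filter (fun b =>
      (1 + θ₀) / 2 * (roughT z (fun _ : Fin 1 => Polynomial.C a) b T / Wz z ^ 1) / Real.log (Q * K) ^ 1 ≤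
        primeT (fun _ : Fin 1 => Polynomial.C a) b T ∧
      η * K / Real.log Q ^ 1 ≤ primeT (fun _ : Fin 1 => Polynomial.C a) b T)).card ≤ S.card := by
      apply card_le_card_of_injOn (fun b => b 0)
      · intro b hb
        rw [mem_coe, mem_filter, Fintype.mem_piFinset] at hb
        obtain ⟨h1, h2, h3⟩ := hb
        have hb0 : b = fun _ => b 0 := by funext i; rw [Subsingleton.elim i 0]
        rw [mem_coe, hS, mem_filter]
        refine ⟨h1 0, ?_, ?_⟩
        · rw [hb0] at h2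
          exact h2
        · rw [hb0] at h3
          exact h3
      · intro b _ b' _ h
        funext i
        rw [Subsingleton.elim i 0]
        exact h
    exact_mod_cast this
  -- moduli with many large prime factors
  set Y : ℕ := 2 * Q with hY
  set W : ℕ → ℝ := fun v => ∑ p ∈ (PY z Y).filter (fun p : ℕ => (p : ℤ) ∣ 1 * (v : ℤ) - 0), 1 / (p : ℝ) with hW
  set Bd := (Ioc Q (2 * Q)).filter (fun b : ℕ => ε < W b) with hBd
  have hBdc : (Bd.card : ℝ) ≤ η / 2 * Q := by
    have h1 := div_sum z Y Q 1 0 hz1 (by norm_num) (by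
      have : (1 : ℤ).natAbs = 1 := rfl
      omega)
    have h2 : ε * (Bd.card : ℝ) ≤ ∑ v ∈ Ioc Q (2 * Q), W v := by
      calc ε * (Bd.card : ℝ) = ∑ _v ∈ Bd, ε := by rw [sum_const, nsmul_eq_mul]; ring
        _ ≤ ∑ v ∈ Bd, W v := sum_le_sum fun v hv => by
            rw [hBd, mem_filter] at hv; exact hv.2.le
        _ ≤ ∑ v ∈ Ioc Q (2 * Q), W v := by
            apply sum_le_sum_of_subset_of_nonneg (filter_subset _ _)
            intro v _ _
            rw [hW]
            exact sum_nonneg fun p _ => by positivity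
    have hY0 : (Y : ℝ) = 2 * Q := by rw [hY]; push_cast; ring
    have hy4 : y₄ ≤ (Y : ℝ) := by
      have h6 : y₄ ≤ Q := (Nat.le_ceil _).trans (by exact_mod_cast hQ4)
      rw [hY0]; linarith
    obtain ⟨h8, h9⟩ := hy₄ Y hy4
    rw [id, Real.norm_eq_abs, Real.norm_eq_abs, abs_of_pos (by rw [hY0]; positivity : (0 : ℝ) < Y)] at h8
    have h10 : Real.log Y ≤ 1 / (4 * z) * Y := (le_abs_self _).trans h8
    have h11 : (1 : ℝ) ≤ 1 / (4 * z) * Y := by
      rw [one_div, inv_mul_eq_div, le_div_iff₀ (by positivity)]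
      linarith
    rw [hY0] at h10 h11
    have h12 : 1 / (4 * (z : ℝ)) * (2 * Q) = Q / z / 2 := by field_simp; norm_num
    rw [h12] at h10 h11
    have h13 : 2 * (Q : ℝ) / z = 2 * (Q / z) := by ring
    have h14 : ε * (Bd.card : ℝ) ≤ 4 * (Q / z) := by
      refine h2.trans (h1.trans ?_)
      rw [hY0, h13]
      have : (0 : ℝ) ≤ Q / z := by positivity
      linarith
    have h15 : 4 * ((Q : ℝ) / z) ≤ ε * (η / 2 * Q) := by
      have h16 : 8 ≤ z * (ε * η) := by rwa [div_le_iff₀ (by positivity)] at hzη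
      have h17 : 4 * ((Q : ℝ) / z) = 4 * Q / z := by ring
      rw [h17, div_le_iff₀ hzr]
      have hQ2 : (0 : ℝ) ≤ Q / 2 := by positivity
      calc 4 * (Q : ℝ) = 8 * (Q / 2) := by ring
        _ ≤ (z * (ε * η)) * (Q / 2) := mul_le_mul_of_nonneg_right h16 hQ2
        _ = ε * (η / 2 * Q) * z := by ring
    exact le_of_mul_le_mul_left (h14.trans h15) hε0
  have hdiff : κ * Q ≤ ((S \ Bd).card : ℝ) := by
    have h1 : S.card ≤ (S \ Bd).card + Bd.card := by
      have := card_le_card_sdiff_add_card (s := S) (t := Bd)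
      omega
    have h3 : (S.card : ℝ) ≤ ((S \ Bd).card : ℝ) + (Bd.card : ℝ) := by exact_mod_cast h1
    rw [hκ]
    linarith
  refine hdiff.trans ?_
  have hsub : S \ Bd ⊆ (Ioc Q (2 * Q)).filter (fun q : ℕ => IsCoprime a (q : ℤ) ∧
      θ * ((Nat.primeCounting (K * q) : ℝ) / Nat.totient q) ≤ piA (K * q) q a ∧
      κ * (K / Real.log Q) ≤ piA (K * q) q a) := by
    intro b hb
    rw [Finset.mem_sdiff, hS, mem_filter, hBd, mem_filter] at hb
    obtain ⟨⟨hbI, hb1, hb2⟩, hb3⟩ := hb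
    have hbI' := mem_Ioc.1 hbI
    have hbW : W b ≤ ε := by
      by_contra hcon
      exact hb3 ⟨hbI, not_le.1 hcon⟩
    rw [pow_one, pow_one] at hb1
    rw [pow_one] at hb2
    have hb0 : 0 < b := by omega
    have hbr : (0 : ℝ) < b := by exact_mod_cast hb0
    have hQb : (Q : ℝ) < b := by exact_mod_cast hbI'.1
    set N := primeT (fun _ : Fin 1 => Polynomial.C a) (fun _ => b) T with hN
    have hNdef : N = (T.filter (fun t : ℕ => (a + (b : ℤ) * t).toNat.Prime)).card := by
      rw [hN]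
      unfold primeT
      congr 1
      apply filter_congr
      intro t _
      constructor
      · intro h
        have := h 0
        rwa [Polynomial.eval_C] at this
      · intro h i
        rw [Polynomial.eval_C]
        exact h
    have hTmem : ∀ t ∈ T, 2 ≤ t ∧ t + 1 ≤ K := by
      intro t ht
      rw [hT, mem_filter, mem_Ioc] at ht
      omega
    have hval : ∀ t ∈ T, (Q : ℤ) < a + b * t ∧ a + b * t ≤ K * b := by
      intro t ht
      obtain ⟨h1, h2⟩ := hTmem t ht
      have h3 : -(Q : ℤ) ≤ a ∧ a ≤ Q := by omega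
      have h4 : (b : ℤ) * 2 ≤ b * t := by
        have k1 : (2 : ℤ) ≤ t := by exact_mod_cast h1
        exact mul_le_mul_of_nonneg_left k1 (Nat.cast_nonneg b)
      have h5 : (b : ℤ) * (t + 1) ≤ b * K := by
        have k1 : (t : ℤ) + 1 ≤ K := by exact_mod_cast h2
        exact mul_le_mul_of_nonneg_left k1 (Nat.cast_nonneg b)
      have h6 : (Q : ℤ) < b := by exact_mod_cast hbI'.1
      constructor <;> linarith
    have hNpos : (0 : ℝ) < N := lt_of_lt_of_le (by positivity) hb2
    have hNpos' : 0 < N := by exact_mod_cast hNpos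
    have hcop : IsCoprime a (b : ℤ) := by
      rw [Int.isCoprime_iff_gcd_eq_one]
      by_contra hg
      obtain ⟨p, hp, hpg⟩ := Nat.exists_prime_and_dvd hg
      have hpa : (p : ℤ) ∣ a := (Int.natCast_dvd_natCast.2 hpg).trans (Int.gcd_dvd_left _ _)
      have hpb : (p : ℤ) ∣ b := (Int.natCast_dvd_natCast.2 hpg).trans (Int.gcd_dvd_right _ _)
      rw [hNdef, card_pos] at hNpos'
      obtain ⟨t, ht⟩ := hNpos'
      rw [mem_filter] at ht
      obtain ⟨htT, htp⟩ := ht
      obtain ⟨h1, h2⟩ := hval t htT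
      have h3 : (p : ℤ) ∣ a + b * t := dvd_add hpa (dvd_mul_of_dvd_left hpb _)
      have h4 : p ∣ (a + (b : ℤ) * t).toNat := by
        have : ((p : ℕ) : ℤ) ∣ (((a + (b : ℤ) * t).toNat : ℕ) : ℤ) := by
          rw [Int.toNat_of_nonneg (by omega)]; exact h3
        exact_mod_cast this
      have h5 : p = (a + (b : ℤ) * t).toNat := (Nat.prime_dvd_prime_iff_eq hp htp).1 h4
      have h6 : p ≤ a.natAbs := Nat.le_of_dvd ha1 (Int.natCast_dvd.1 hpa)
      omega
    have hNle : N ≤ piA (K * b) b a := by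
      rw [hNdef]
      unfold piA
      apply card_le_card_of_injOn (fun t : ℕ => (a + (b : ℤ) * t).toNat)
      · intro t ht
        rw [mem_coe, mem_filter] at ht
        obtain ⟨htT, htp⟩ := ht
        obtain ⟨h1, h2⟩ := hval t htT
        rw [mem_coe, mem_filter, mem_Icc]
        have h0 : 0 ≤ a + (b : ℤ) * t := by omega
        refine ⟨⟨htp.one_lt.le, ?_⟩, htp, ?_⟩
        · rw [Int.toNat_le]
          push_cast
          exact h2
        · rw [Int.toNat_of_nonneg h0]
          apply Int.ModEq.symm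
          rw [Int.modEq_iff_dvd]
          exact ⟨t, by ring⟩
      · intro t ht s hs h
        rw [mem_coe, mem_filter] at ht hs
        have h1 := (hval t ht.1).1
        have h2 := (hval s hs.1).1
        simp only at h
        have h3 : a + (b : ℤ) * t = a + (b : ℤ) * s := by omega
        have h4 : (b : ℤ) * t = b * s := by linarith
        have h5 : (t : ℤ) = s := mul_left_cancel₀ (by exact_mod_cast hb0.ne') h4
        exact_mod_cast h5
    have hNler : (N : ℝ) ≤ piA (K * b) b a := by exact_mod_cast hNle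
    rw [mem_filter]
    refine ⟨hbI, hcop, ?_, ?_⟩
    · refine le_trans ?_ hNler
      refine le_trans ?_ hb1
      -- the sifted count
      have hrough : (1 - 2 * ε) * Eb z b * (K - 1) ≤
          (roughT z (fun _ : Fin 1 => Polynomial.C a) (fun _ => b) T : ℝ) := by
        have h1 := hx₂ (K - 1) hKx₂ a ha0 haR b hcop
        rw [hK1r] at h1
        refine h1.trans ?_
        have : ((Ioc 1 (K - 1)).filter (fun t : ℕ => Nat.Coprime t a.natAbs ∧
          ∀ p ≤ z, p.Prime → ¬ ((p : ℤ) ∣ a + b * t))).card ≤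
          roughT z (fun _ : Fin 1 => Polynomial.C a) (fun _ => b) T := by
          unfold roughT
          apply card_le_card
          intro t ht
          rw [mem_filter] at ht
          rw [mem_filter, hT, mem_filter]
          refine ⟨⟨ht.1, ht.2.1⟩, fun i p hp hpp => ?_⟩
          rw [Polynomial.eval_C]
          exact ht.2.2 p hp hpp
        exact_mod_cast this
      have hEb := Eb_pos z b
      have hGG := GG_cut z b hz1 hb0 Y hbI'.2 ε hbW
      have hexp2 : Real.exp (2 * ε) ≤ 1 + 4 * ε := by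
        have := exp_le_lin (u := 2 * ε) (by linarith) (by linarith)
        linarith
      have hKb : x₃ ≤ K * b := by
        have h1 : Q ≤ b := hbI'.1.le
        have h2 : 1 ≤ K := by omega
        calc x₃ ≤ b := hQ3.trans h1
          _ = 1 * b := (one_mul b).symm
          _ ≤ K * b := Nat.mul_le_mul_right b h2
      have hpi := hx₃ (K * b) hKb
      push_cast at hpi
      have hφ : (0 : ℝ) < Nat.totient b := by exact_mod_cast Nat.totient_pos.2 hb0
      have hK1' : (1 : ℝ) ≤ K := by exact_mod_cast (by omega : 1 ≤ K)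
      have hlQK : 0 < Real.log (Q * K) := by
        apply Real.log_pos
        calc (1 : ℝ) < Q := by linarith
          _ = Q * 1 := (mul_one _).symm
          _ ≤ Q * K := mul_le_mul_of_nonneg_left hK1' hQ0.le
      have hll : Real.log (Q * K) ≤ Real.log (K * b) := by
        apply Real.log_le_log (mul_pos hQ0 hKr)
        rw [mul_comm]
        exact mul_le_mul_of_nonneg_left hQb.le hKr.le
      have hpi2 : (Nat.primeCounting (K * b) : ℝ) ≤ (1 + ε) * (K * b / Real.log (Q * K)) := by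
        refine hpi.trans ?_
        gcongr
      -- combine
      set G : ℝ := (b : ℝ) / Nat.totient b with hG
      have hG0 : 0 ≤ G := by positivity
      have hG1 : G ≤ Eb z b * (1 + 4 * ε) / Wz z := by
        rw [le_div_iff₀ hWz]
        refine hGG.trans ?_
        gcongr
      calc θ * ((Nat.primeCounting (K * b) : ℝ) / Nat.totient b) ≤
          θ₀ * ((Nat.primeCounting (K * b) : ℝ) / Nat.totient b) := by gcongr
        _ ≤ θ₀ * (((1 + ε) * (K * b / Real.log (Q * K))) / Nat.totient b) := by gcongr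
        _ = θ₀ * (1 + ε) * (K / Real.log (Q * K)) * G := by rw [hG]; field_simp
        _ ≤ θ₀ * (1 + ε) * (K / Real.log (Q * K)) * (Eb z b * (1 + 4 * ε) / Wz z) := by gcongr
        _ = (θ₀ * (1 + ε) * (1 + 4 * ε)) * (K * Eb z b / Wz z / Real.log (Q * K)) := by ring
        _ ≤ ((1 + θ₀) / 2 * ((1 - 2 * ε) * (1 - ε))) * (K * Eb z b / Wz z / Real.log (Q * K)) := by
            apply mul_le_mul_of_nonneg_right _ (by positivity)
            have hθu : θ₀ = 1 - u := by rw [hu]; ring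
            have e : (1 + θ₀) / 2 * ((1 - 2 * ε) * (1 - ε)) - θ₀ * (1 + ε) * (1 + 4 * ε) =
                u / 4 + 206 / 1024 * u ^ 2 + 3 / 1024 * u ^ 3 := by
              rw [hθu, hε]; ring
            have e2 : 0 ≤ u / 4 + 206 / 1024 * u ^ 2 + 3 / 1024 * u ^ 3 := by positivity
            linarith
        _ = (1 + θ₀) / 2 * (((1 - 2 * ε) * Eb z b * ((1 - ε) * K)) / Wz z) / Real.log (Q * K) := by ring
        _ ≤ (1 + θ₀) / 2 * (((1 - 2 * ε) * Eb z b * (K - 1)) / Wz z) / Real.log (Q * K) := by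
            have : 0 ≤ 1 - 2 * ε := by linarith
            gcongr
        _ ≤ (1 + θ₀) / 2 * ((roughT z (fun _ : Fin 1 => Polynomial.C a) (fun _ => b) T : ℝ) / Wz z) /
            Real.log (Q * K) := by gcongr
    · refine le_trans ?_ hNler
      refine le_trans ?_ hb2
      rw [hκ]
      have : 0 ≤ (K : ℝ) / Real.log Q := by positivity
      have e : η * K / Real.log Q = η * (K / Real.log Q) := by ring
      rw [e]
      have := mul_nonneg hη.le this
      linarith
  exact_mod_cast card_le_card hsub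

end Pool.Agent.W218.PG
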