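import Mathlib
import Pool.Agent.W218.PG.MainP

set_option autoImplicit false

/-! Prime values of `F_i(q) + b_i` at primes `q`, where the `F_i` are fixed polynomials and the constant terms `b_i`
vary. -/

namespace Pool.Agent.W218.PG

open Finset Pool.Agent.Erdos456 Pool.Agent.Erdos456.Mert Pool.Agent.W218.HF Pool.Agent.W218.LF Pool.Agent.W218.PF
open H343E hiding TT

/-- the number of primes `y1 < q ≤ x` with all `F_i(q) + b_i` prime -/
def cntQ {k : ℕ} (F : Fin k → Polynomial ℤ) (b : Fin k → ℕ) (y1 x : ℕ) : ℕ :=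
  ((Ioc y1 x).filter (fun q : ℕ => q.Prime ∧ ∀ i, ((F i).eval (q : ℤ) + b i).toNat.Prime)).card

open Classical in
theorem mainP2 (k : ℕ) (hk : 1 ≤ k) (F : Fin k → Polynomial ℤ) (hF : ∀ i, 1 ≤ (F i).natDegree)
    (c : ℝ) (hc : 0 < c) (θ : ℝ) (hθ : θ < 1) : ∃ κ : ℝ, 0 < κ ∧ ∀ z y1 : ℕ, ∃ x0 : ℕ, ∀ x : ℕ, x0 ≤ x →
    ∀ B : ℕ, x ≤ B → c * Real.log B ^ k ≤ x / Real.log x →
    (∀ i, ∀ t : ℕ, 1 ≤ t → t ≤ x → |(((F i).eval (t : ℤ) : ℤ) : ℝ)| ≤ κ * B) →
    κ * B ^ k ≤ (((Fintype.piFinset (fun _ : Fin k => Ioc B (2 * B))).filter (fun b =>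
      θ * EP F b z * (x / (Real.log x * Real.log B ^ k)) ≤ cntQ F b y1 x ∧
      κ * (x / (Real.log x * Real.log B ^ k)) ≤ cntQ F b y1 x)).card : ℝ) := by
  set θ₀ : ℝ := max θ 0 with hθ₀
  have hθ0 : 0 ≤ θ₀ := le_max_right _ _
  have hθ1 : θ₀ < 1 := max_lt hθ one_pos
  have hθθ : θ ≤ θ₀ := le_max_left _ _
  set θ₁ : ℝ := (θ₀ + 1) / 2 with hθ₁
  set ε : ℝ := (1 - θ₀) / 4 with hε
  have hε0 : 0 < ε := by rw [hε]; linarith
  have hinj := fun i => poly_inj (F i) (hF i)
  choose N hN using hinj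
  have hmom := fun i => mom_P (2 * k) (by omega) (F i) (hF i)
  choose C hC X hX using hmom
  set CC : ℝ := ∑ i, C i with hCC
  have hCi : ∀ i, C i ≤ CC := fun i => single_le_sum (f := C) (fun j _ => (hC j).le) (mem_univ i)
  have hCC0 : 0 ≤ CC := sum_nonneg fun i _ => (hC i).le
  obtain ⟨η, hη, B₀, hmain⟩ := main4 k hk (2 / c) (4 * CC) (by positivity) (by positivity) θ₁
    (by rw [hθ₁]; linarith)
  refine ⟨η / 2, by positivity, fun z y1 => ?_⟩
  set y0 : ℕ := y1 + ∑ i, N i with hy0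
  have hNy : ∀ i, N i ≤ y0 := fun i =>
    (single_le_sum (f := N) (fun _ _ => Nat.zero_le _) (mem_univ i)).trans (Nat.le_add_left _ _)
  obtain ⟨x₁, hrough⟩ := rough_P z y0 ε hε0
  obtain ⟨x₂, hpnt⟩ := pnt_low (1 / 4) (by norm_num)
  obtain ⟨x₃, hx3l⟩ := isLittle 1 (4 * (y0 : ℝ) + 1) (by positivity)
  refine ⟨max (max B₀ x₁) (max (max (∑ i, X i) 3) (max (max x₂ x₃) ⌈(Pz z : ℝ) / η⌉₊)), ?_⟩
  intro x hx B hxB hcx hFB
  have hxB0 : B₀ ≤ x := ((le_max_left _ _).trans (le_max_left _ _)).trans hx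
  have hxx1 : x₁ ≤ x := ((le_max_right _ _).trans (le_max_left _ _)).trans hx
  have hxX : ∑ i, X i ≤ x := (((le_max_left _ _).trans (le_max_left _ _)).trans (le_max_right _ _)).trans hx
  have hx3 : 3 ≤ x := (((le_max_right _ _).trans (le_max_left _ _)).trans (le_max_right _ _)).trans hx
  have hxx : max x₂ x₃ ≤ x := (((le_max_left _ _).trans (le_max_right _ _)).trans (le_max_right _ _)).trans hx
  have hxx2 : x₂ ≤ x := (le_max_left _ _).trans hxx
  have hxx3 : x₃ ≤ x := (le_max_right _ _).trans hxx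
  have hxP : ⌈(Pz z : ℝ) / η⌉₊ ≤ x :=
    (((le_max_right _ _).trans (le_max_right _ _)).trans (le_max_right _ _)).trans hx
  have hx3r : (3 : ℝ) ≤ x := by exact_mod_cast hx3
  have hxBr : (x : ℝ) ≤ B := by exact_mod_cast hxB
  have hB3 : (3 : ℝ) ≤ B := by linarith
  have hlB : 0 < Real.log B := Real.log_pos (by linarith)
  have hx0 : (0 : ℝ) < x := by linarith
  have hlx1 : 1 ≤ Real.log x := by
    rw [Real.le_log_iff_exp_le hx0]
    have := Real.exp_one_lt_d9
    linarith
  have hlx0 : 0 < Real.log x := by linarith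
  set XX : ℝ := x / Real.log x with hXX
  have hXX0 : 0 < XX := by rw [hXX]; positivity
  set T : Finset ℕ := TT x y0 with hT
  have hTsub : T ⊆ PP x := filter_subset _ _
  have hTmem : ∀ t ∈ T, t.Prime ∧ y0 < t ∧ 1 ≤ t ∧ t ≤ x := by
    intro t ht
    rw [hT, TT, mem_filter] at ht
    have h1 := mem_PP' ht.1
    exact ⟨h1.2.2, ht.2, h1.1, h1.2.1⟩
  have hTcard : XX ≤ 2 * T.card := by
    have h1 := hpnt x hxx2
    have h2 : pi1 x ≤ T.card + y0 := by
      have h3 : ((Icc 1 x).filter (fun p => p.Prime)) ⊆ T ∪ Icc 1 y0 := by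
        intro p hp
        rw [mem_filter, mem_Icc] at hp
        rw [mem_union, mem_Icc, hT, TT, mem_filter]
        by_cases h4 : y0 < p
        · left
          refine ⟨?_, h4⟩
          simp only [PP, mem_filter, mem_Icc]
          exact hp
        · right; omega
      have h4 := (card_le_card h3).trans (card_union_le _ _)
      rw [Nat.card_Icc, Nat.add_sub_cancel] at h4
      unfold pi1
      exact_mod_cast h4
    have h5 : (1 - 1 / 4) * XX ≤ T.card + y0 := h1.trans h2
    have h6 := hx3l x hxx3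
    rw [pow_one] at h6
    have h7 : 4 * (y0 : ℝ) + 1 ≤ XX := by
      rw [hXX, le_div_iff₀ hlx0]; exact h6
    linarith
  have hTpos : (0 : ℝ) < T.card := by linarith
  set G : Fin k → ℕ → ℤ := fun i t => (F i).eval (t : ℤ) with hG
  have hM := hmain B (hxB0.trans hxB) z (by
      have h1 : (Pz z : ℝ) / η ≤ x := (Nat.le_ceil _).trans (by exact_mod_cast hxP)
      rw [div_le_iff₀ hη] at h1
      calc (Pz z : ℝ) ≤ x * η := h1
        _ ≤ B * η := by gcongr
        _ = _ := mul_comm _ _) G T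
    (by
      intro i t ht
      have ht' := hTmem t ht
      refine (hFB i t ht'.2.2.1 ht'.2.2.2).trans ?_
      have : (0 : ℝ) ≤ B := by linarith
      nlinarith)
    (by
      intro t₁ h₁ t₂ h₂ hne i
      have h₁' := (hTmem t₁ h₁).2.1
      have h₂' := (hTmem t₂ h₂).2.1
      exact hN i t₁ t₂ (by have := hNy i; omega) (by have := hNy i; omega) hne)
    (by
      intro i
      have h1 := hX i x ((single_le_sum (f := X) (fun _ _ => Nat.zero_le _) (mem_univ i)).trans hxX) T hTsub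
      have hCi' := hCi i
      calc ∑ t₁ ∈ T, ∑ t₂ ∈ T, GG (G i t₁ - G i t₂).natAbs ^ (2 * k) ≤ C i * XX * T.card := h1
        _ ≤ CC * (2 * T.card) * T.card := by gcongr
        _ ≤ 4 * CC * (T.card : ℝ) ^ 2 := by nlinarith [mul_nonneg hCC0 (sq_nonneg (T.card : ℝ))])
    (by
      calc Real.log B ^ k = 1 / c * (c * Real.log B ^ k) := by field_simp
        _ ≤ 1 / c * XX := by gcongr
        _ ≤ 1 / c * (2 * T.card) := by gcongr
        _ = _ := by ring)
  have hBk : (0 : ℝ) ≤ (B : ℝ) ^ k := by positivity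
  refine le_trans (by nlinarith) (hM.trans ?_)
  have hsub : (Fintype.piFinset (fun _ : Fin k => Ioc B (2 * B))).filter (fun b =>
      θ₁ * (roughS z G b T / Wz z ^ k) / Real.log B ^ k ≤ primeS G b T ∧
      η * T.card / Real.log B ^ k ≤ primeS G b T) ⊆
      (Fintype.piFinset (fun _ : Fin k => Ioc B (2 * B))).filter (fun b =>
      θ * EP F b z * (x / (Real.log x * Real.log B ^ k)) ≤ cntQ F b y1 x ∧
      η / 2 * (x / (Real.log x * Real.log B ^ k)) ≤ cntQ F b y1 x) := by
    intro b hb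
    rw [mem_filter] at hb ⊢
    obtain ⟨hb0, hb1, hb2⟩ := hb
    have hcnt : (primeS G b T : ℝ) ≤ cntQ F b y1 x := by
      have : primeS G b T ≤ cntQ F b y1 x := by
        unfold primeS cntQ
        apply card_le_card
        intro t ht
        rw [mem_filter] at ht
        obtain ⟨h1, h2, h3, h4⟩ := hTmem t ht.1
        rw [mem_filter, mem_Ioc]
        exact ⟨⟨by omega, h4⟩, h1, ht.2⟩
      exact_mod_cast this
    refine ⟨hb0, ?_, ?_⟩
    · refine le_trans ?_ (hb1.trans hcnt)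
      have hr := hrough x hxx1 (Vf F b) (fun p _ t => Vf_mod F b p t)
      rw [← roughS_Vf F b z (TT x y0)] at hr
      have hEI := EP_eq F b z
      have hp0 := prodP_nonneg (Vf F b) z
      set Q0 : ℝ := ∏ p ∈ PS z, (1 - (wP (Vf F b) p : ℝ) / p) with hQ0
      have hW : 0 < Wz z ^ k := pow_pos (Wz_pos z) k
      have hL : 0 < Real.log B ^ k := by positivity
      rw [hEI]
      set Q : ℝ := Q0 / Wz z with hQ
      have hQp : 0 ≤ Q := div_nonneg hp0 (Wz_pos z).le
      have hrr : (1 - ε) * Q * XX ≤ (roughS z G b T : ℝ) := by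
        refine le_trans (le_of_eq ?_) hr
        rw [hQ]; ring
      have h1 : θ * (Q * XX) ≤ θ₁ * (roughS z G b T : ℝ) := by
        have hθ₁0 : 0 ≤ θ₁ := by rw [hθ₁]; linarith
        have hQx : 0 ≤ Q * XX := by positivity
        calc θ * (Q * XX) ≤ θ₀ * (Q * XX) := mul_le_mul_of_nonneg_right hθθ hQx
          _ ≤ (θ₁ * (1 - ε)) * (Q * XX) := by
              apply mul_le_mul_of_nonneg_right _ hQx
              rw [hθ₁, hε]
              nlinarith [mul_nonneg (sub_nonneg.2 hθ1.le) (by linarith : (0:ℝ) ≤ 3 - θ₀)]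
          _ = θ₁ * ((1 - ε) * Q * XX) := by ring
          _ ≤ θ₁ * (roughS z G b T : ℝ) := mul_le_mul_of_nonneg_left hrr hθ₁0
      calc θ * (Q / Wz z ^ k) * (x / (Real.log x * Real.log B ^ k)) =
            θ * (Q * XX) / (Wz z ^ k * Real.log B ^ k) := by
            rw [hXX]
            have := (Wz_pos z).ne'
            field_simp
        _ ≤ θ₁ * (roughS z G b T : ℝ) / (Wz z ^ k * Real.log B ^ k) := by gcongr
        _ = _ := by field_simp
    · refine le_trans ?_ (hb2.trans hcnt)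
      rw [mul_div_assoc]
      calc η / 2 * (x / (Real.log x * Real.log B ^ k)) = η / 2 * (XX / Real.log B ^ k) := by
            rw [hXX]; field_simp
        _ ≤ η / 2 * (2 * T.card / Real.log B ^ k) := by gcongr
        _ = _ := by ring
  exact_mod_cast card_le_card hsub

end Pool.Agent.W218.PG
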