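import Mathlib
import Pool.Agent.W218.PG.QI
import Pool.Agent.W218.PG.MainP2
import Pool.Agent.W218.PF.Tail

set_option autoImplicit false

/-! The singular series of `n = f(q) + p`, `f` a monic quadratic polynomial, `q` and `p` prime. -/

namespace Pool.Agent.W218.PG

open Finset Filter Topology Pool.Agent.W218.PF
open Pool.Agent.W468.ConjF (PJ SJ nr nr_odd PJ_le PJ_tendsto PJ_pos factor_pos js_abs)
open Polynomial (C X)

/-- the polynomial `-(X^2 + β X + γ)` -/
noncomputable def Fm (β γ : ℤ) : Polynomial ℤ := C (-1) * X ^ 2 + C (-β) * X + C (-γ)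

lemma Fm_eval (β γ t : ℤ) : (Fm β γ).eval t = -(t ^ 2 + β * t + γ) := by
  simp [Fm]; ring

lemma Fm_deg (β γ : ℤ) : (Fm β γ).natDegree = 2 := Polynomial.natDegree_quadratic (by norm_num)

/-- the discriminant of `n - f` -/
def Dn (β γ : ℤ) (n : ℕ) : ℤ := β ^ 2 - 4 * γ + 4 * n

/-- the number of residues `r` mod `p` with `r (n - f(r)) ≡ 0` -/
def om2 (β γ : ℤ) (n p : ℕ) : ℕ :=
  ((range p).filter (fun r : ℕ => (p : ℤ) ∣ (r : ℤ) * ((n : ℤ) - ((r : ℤ) ^ 2 + β * r + γ)))).card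

/-- the singular series cut at `N` -/
noncomputable def S2 (β γ : ℤ) (n N : ℕ) : ℝ :=
  ∏ p ∈ (range (N + 1)).filter Nat.Prime, (((1 - 1 / (p : ℝ)) ^ 2)⁻¹ * (1 - (om2 β γ n p : ℝ) / p))

lemma wP_om2 (β γ : ℤ) (n p : ℕ) (hp : p.Prime) :
    wP (Vf (fun _ : Fin 1 => Fm β γ) (fun _ => n)) p = om2 β γ n p := by
  have hpi : Prime (p : ℤ) := Nat.prime_iff_prime_int.1 hp
  unfold wP om2 Vf
  congr 1
  ext r
  simp only [mem_filter]
  apply and_congr_right
  intro _
  rw [hpi.dvd_mul]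
  apply or_congr
  · exact Int.natCast_dvd_natCast.symm
  · have e : -((r : ℤ) ^ 2 + β * r + γ) + n = (n : ℤ) - ((r : ℤ) ^ 2 + β * r + γ) := by ring
    constructor
    · rintro ⟨i, hi⟩
      rwa [Fm_eval, e] at hi
    · intro h
      exact ⟨0, by rw [Fm_eval, e]; exact h⟩

lemma EP_S2 (β γ : ℤ) (n z : ℕ) : EP (fun _ : Fin 1 => Fm β γ) (fun _ => n) z = S2 β γ n z := by
  unfold EP S2 PS
  apply prod_congr rfl
  intro p hp
  rw [wP_om2 β γ n p (mem_filter.1 hp).2]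

/-- the value of `om2` at odd primes -/
lemma om2_odd (β γ : ℤ) (n p : ℕ) (hp : p.Prime) (hp3 : 3 ≤ p) :
    (om2 β γ n p : ℤ) = jacobiSym (Dn β γ n) p + (if (p : ℤ) ∣ n - γ then 1 else 2) := by
  classical
  have hpi : Prime (p : ℤ) := Nat.prime_iff_prime_int.1 hp
  have hD : (-β) ^ 2 - 4 * (-1) * ((n : ℤ) - γ) = Dn β γ n := by unfold Dn; ring
  have h1 := nr_odd (-1) (-β) ((n : ℤ) - γ) p hp hp3 (by
    intro h
    have := isUnit_of_dvd_unit h (by norm_num)
    rw [Int.isUnit_iff] at this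
    omega)
  rw [hD] at h1
  have hroot : ∀ r : ℕ, (p : ℤ) ∣ ((n : ℤ) - ((r : ℤ) ^ 2 + β * r + γ)) ↔
      (p : ℤ) ∣ -1 * (r : ℤ) ^ 2 + -β * r + ((n : ℤ) - γ) := by
    intro r
    have e : (n : ℤ) - ((r : ℤ) ^ 2 + β * r + γ) = -1 * (r : ℤ) ^ 2 + -β * r + ((n : ℤ) - γ) := by ring
    rw [e]
  have hset : (range p).filter (fun r : ℕ => (p : ℤ) ∣ (r : ℤ) * ((n : ℤ) - ((r : ℤ) ^ 2 + β * r + γ))) =
      insert 0 ((range p).filter (fun r : ℕ => (p : ℤ) ∣ -1 * (r : ℤ) ^ 2 + -β * r + ((n : ℤ) - γ))) := by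
    ext r
    simp only [mem_filter, mem_insert, mem_range]
    constructor
    · rintro ⟨h2, h3⟩
      rcases hpi.dvd_or_dvd h3 with h4 | h4
      · left
        have h5 : p ∣ r := by exact_mod_cast h4
        exact Nat.eq_zero_of_dvd_of_lt h5 h2
      · right; exact ⟨h2, (hroot r).1 h4⟩
    · rintro (rfl | ⟨h2, h3⟩)
      · exact ⟨hp.pos, by simp⟩
      · exact ⟨h2, dvd_mul_of_dvd_right ((hroot r).2 h3) _⟩
  unfold om2
  rw [hset]
  by_cases hd : (p : ℤ) ∣ n - γ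
  · rw [if_pos hd, insert_eq_of_mem]
    · unfold nr at h1
      rw [h1]
    · rw [mem_filter, mem_range]
      refine ⟨hp.pos, ?_⟩
      have e : -1 * (((0 : ℕ) : ℤ)) ^ 2 + -β * ((0 : ℕ) : ℤ) + ((n : ℤ) - γ) = n - γ := by push_cast; ring
      rw [e]; exact hd
  · rw [if_neg hd, card_insert_of_notMem]
    · unfold nr at h1
      push_cast
      rw [h1]; ring
    · rw [mem_filter, mem_range]
      rintro ⟨-, h2⟩
      apply hd
      have e : -1 * (((0 : ℕ) : ℤ)) ^ 2 + -β * ((0 : ℕ) : ℤ) + ((n : ℤ) - γ) = n - γ := by push_cast; ring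
      rwa [e] at h2

/-- the quotient of the local factors -/
noncomputable def rho (β γ : ℤ) (n p : ℕ) : ℝ :=
  if (p : ℤ) ∣ n - γ then (p : ℝ) / (p - 1)
  else 1 - (1 + (jacobiSym (Dn β γ n) p : ℝ)) / ((p - 1) * (p - 1 - (jacobiSym (Dn β γ n) p : ℝ)))

lemma fac_rho (β γ : ℤ) (n p : ℕ) (hp : p.Prime) (hp3 : 3 ≤ p) :
    ((1 - 1 / (p : ℝ)) ^ 2)⁻¹ * (1 - (om2 β γ n p : ℝ) / p) =
      (1 - (jacobiSym (Dn β γ n) p : ℝ) / (p - 1)) * rho β γ n p := by
  have h := om2_odd β γ n p hp hp3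
  have h4 : (om2 β γ n p : ℝ) = (jacobiSym (Dn β γ n) p : ℝ) + (if (p : ℤ) ∣ n - γ then 1 else 2) := by
    have h5 : ((om2 β γ n p : ℤ) : ℝ) = ((jacobiSym (Dn β γ n) p + (if (p : ℤ) ∣ n - γ then 1 else 2) : ℤ) : ℝ) := by
      rw [h]
    push_cast at h5
    exact h5
  have hj1 : |(jacobiSym (Dn β γ n) p : ℝ)| ≤ 1 := js_abs _ _
  unfold rho
  rw [h4]
  generalize (jacobiSym (Dn β γ n) p : ℝ) = j at hj1
  have hj2 := (abs_le.1 hj1)
  have hpr : (3 : ℝ) ≤ p := by exact_mod_cast hp3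
  have hp0 : (p : ℝ) ≠ 0 := by positivity
  have hp1 : (p : ℝ) - 1 ≠ 0 := by linarith
  have hp2 : (p : ℝ) - 1 - j ≠ 0 := by linarith
  by_cases hd : (p : ℤ) ∣ n - γ
  · rw [if_pos hd, if_pos hd]
    field_simp
    ring
  · rw [if_neg hd, if_neg hd]
    field_simp
    ring

lemma rho_le (β γ : ℤ) (n p : ℕ) (hp3 : 3 ≤ p) (hd : ¬ (p : ℤ) ∣ n - γ) : rho β γ n p ≤ 1 := by
  unfold rho
  rw [if_neg hd]
  set j : ℝ := (jacobiSym (Dn β γ n) p : ℝ) with hj
  have hj2 := (abs_le.1 (js_abs (Dn β γ n) p))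
  rw [← hj] at hj2
  have hpr : (3 : ℝ) ≤ p := by exact_mod_cast hp3
  have : 0 ≤ (1 + j) / (((p : ℝ) - 1) * (p - 1 - j)) := by
    apply div_nonneg (by linarith)
    apply mul_nonneg <;> linarith
  linarith

lemma rho_ge (β γ : ℤ) (n p : ℕ) (hp3 : 5 ≤ p) (hd : ¬ (p : ℤ) ∣ n - γ) :
    1 - 2 / (((p : ℝ) - 1) * (p - 2)) ≤ rho β γ n p := by
  unfold rho
  rw [if_neg hd]
  set j : ℝ := (jacobiSym (Dn β γ n) p : ℝ) with hj
  have hj2 := (abs_le.1 (js_abs (Dn β γ n) p))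
  rw [← hj] at hj2
  have hpr : (5 : ℝ) ≤ p := by exact_mod_cast hp3
  have h1 : (1 + j) / (((p : ℝ) - 1) * (p - 1 - j)) ≤ 2 / (((p : ℝ) - 1) * (p - 2)) := by
    apply div_le_div₀ (by norm_num) (by linarith) (by apply mul_pos <;> linarith)
    apply mul_le_mul_of_nonneg_left _ (by linarith)
    linarith
  linarith

lemma rho_pos (β γ : ℤ) (h3 : ¬ (3 : ℤ) ∣ β) (n p : ℕ) (hp : p.Prime) (hp3 : 3 ≤ p) : 0 < rho β γ n p := by
  have hpr : (3 : ℝ) ≤ p := by exact_mod_cast hp3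
  by_cases hd : (p : ℤ) ∣ n - γ
  · unfold rho
    rw [if_pos hd]
    apply div_pos <;> linarith
  · by_cases h5 : 5 ≤ p
    · refine lt_of_lt_of_le ?_ (rho_ge β γ n p h5 hd)
      have h5r : (5 : ℝ) ≤ p := by exact_mod_cast h5
      have h1 : 2 / (((p : ℝ) - 1) * (p - 2)) < 1 := by
        rw [div_lt_one (by apply mul_pos <;> linarith)]
        nlinarith
      linarith
    · have hp3' : p = 3 := by
        have : p ≠ 4 := by rintro rfl; revert hp; decide
        omega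
      subst hp3'
      unfold rho
      rw [if_neg hd]
      -- the symbol is not one
      have hj : jacobiSym (Dn β γ n) 3 ≤ 0 := by
        have hmod : Dn β γ n % 3 = 0 ∨ Dn β γ n % 3 = 2 := by
          unfold Dn
          have hd' : ¬ (3 : ℤ) ∣ (n : ℤ) - γ := by exact_mod_cast hd
          have hβ : β % 3 = 1 ∨ β % 3 = 2 := by omega
          have hb2 : β ^ 2 % 3 = 1 := by
            rw [sq, Int.mul_emod]
            rcases hβ with h | h <;> rw [h] <;> norm_num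
          omega
        rw [jacobiSym.mod_left]
        rcases hmod with h | h
        · have e : Dn β γ n % ((3 : ℕ) : ℤ) = 0 := by exact_mod_cast h
          rw [e]; norm_num
        · have e : Dn β γ n % ((3 : ℕ) : ℤ) = 2 := by exact_mod_cast h
          rw [e]; norm_num
      have hjr : (jacobiSym (Dn β γ n) 3 : ℝ) ≤ 0 := by exact_mod_cast hj
      set j : ℝ := (jacobiSym (Dn β γ n) 3 : ℝ) with hjd
      have hj2 := (abs_le.1 (js_abs (Dn β γ n) 3))
      rw [← hjd] at hj2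
      have h1 : (1 + j) / ((((3 : ℕ) : ℝ) - 1) * (((3 : ℕ) : ℝ) - 1 - j)) < 1 := by
        push_cast
        rw [div_lt_one (by apply mul_pos <;> linarith)]
        linarith
      linarith

/-- the product of the `rho` converges to a positive number -/
lemma rho_tendsto (β γ : ℤ) (h3 : ¬ (3 : ℤ) ∣ β) (n : ℕ) (hn : (n : ℤ) ≠ γ) :
    ∃ R : ℝ, 0 < R ∧ Tendsto (fun N => ∏ p ∈ (Ioc 2 N).filter Nat.Prime, rho β γ n p) atTop (𝓝 R) := by
  classical
  set N1 : ℕ := max 4 ((n : ℤ) - γ).natAbs with hN1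
  have hN4 : 4 ≤ N1 := le_max_left _ _
  have hnd : ∀ p : ℕ, N1 < p → ¬ (p : ℤ) ∣ n - γ := by
    intro p hp hd
    have h1 : p ∣ ((n : ℤ) - γ).natAbs := Int.natCast_dvd.1 hd
    have h2 := Nat.le_of_dvd (Int.natAbs_pos.2 (sub_ne_zero.2 hn)) h1
    have h3 : ((n : ℤ) - γ).natAbs ≤ N1 := le_max_right _ _
    omega
  set u : ℕ → ℝ := fun p => if p.Prime then rho β γ n p else 1 with hu
  set U : ℕ → ℝ := fun m => ∏ i ∈ Ioc N1 (N1 + m), u i with hU
  have hsucc : ∀ m, U (m + 1) = U m * u (N1 + m + 1) := by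
    intro m
    rw [hU]
    simp only
    rw [← add_assoc, ← Finset.insert_Ioc_right_eq_Ioc_add_one (by omega), prod_insert (by simp), mul_comm]
  have hu1 : ∀ i, N1 < i → u i ≤ 1 := by
    intro i hi
    rw [hu]; simp only
    split_ifs with h
    · exact rho_le β γ n i (by omega) (hnd i hi)
    · exact le_rfl
  have huge : ∀ i, N1 < i → 1 - 2 / (((i : ℝ) - 1) * (i - 2)) ≤ u i := by
    intro i hi
    have hir : (5 : ℝ) ≤ i := by exact_mod_cast (by omega : 5 ≤ i)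
    rw [hu]; simp only
    split_ifs with h
    · exact rho_ge β γ n i (by omega) (hnd i hi)
    · have : 0 ≤ 2 / (((i : ℝ) - 1) * (i - 2)) := by
        apply div_nonneg (by norm_num)
        apply mul_nonneg <;> linarith
      linarith
  have hN1r : (4 : ℝ) ≤ N1 := by exact_mod_cast hN4
  have hlow : ∀ m : ℕ, (((N1 : ℝ) + m) / (N1 + m - 2)) * ((N1 - 2) / N1) ≤ U m := by
    intro m
    induction m with
    | zero =>
      rw [hU]
      simp only [add_zero, Ioc_self, prod_empty, Nat.cast_zero]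
      apply le_of_eq
      have h1 : (N1 : ℝ) - 2 ≠ 0 := by linarith
      have h2 : (N1 : ℝ) ≠ 0 := by linarith
      field_simp
    | succ m ih =>
      rw [hsucc]
      have hm : (0 : ℝ) ≤ m := Nat.cast_nonneg m
      have h1 := huge (N1 + m + 1) (by omega)
      push_cast at h1 ⊢
      set y : ℝ := (N1 : ℝ) + m with hy
      have hy4 : 4 ≤ y := by rw [hy]; linarith
      have e1 : y + 1 - 1 = y := by ring
      have e2 : y + 1 - 2 = y - 1 := by ring
      have e3 : (N1 : ℝ) + (m + 1) = y + 1 := by rw [hy]; ring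
      rw [e1, e2] at h1
      rw [e3, e2]
      have hq : 0 ≤ ((N1 : ℝ) - 2) / N1 := by
        apply div_nonneg <;> linarith
      have h2 : (y + 1) / (y - 1) * ((N1 - 2) / N1) = (y / (y - 2) * ((N1 - 2) / N1)) * (1 - 2 / (y * (y - 1))) := by
        have g1 : y - 2 ≠ 0 := by linarith
        have g2 : y - 1 ≠ 0 := by linarith
        have g3 : y ≠ 0 := by linarith
        have g4 : (N1 : ℝ) ≠ 0 := by linarith
        field_simp
        ring
      rw [h2]
      have h3 : 0 ≤ 1 - 2 / (y * (y - 1)) := by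
        have : 2 / (y * (y - 1)) ≤ 1 := by
          rw [div_le_one (by nlinarith)]
          nlinarith
        linarith
      have h4 : 0 ≤ y / (y - 2) * (((N1 : ℝ) - 2) / N1) := by
        apply mul_nonneg _ hq
        apply div_nonneg <;> linarith
      calc (y / (y - 2) * ((N1 - 2) / N1)) * (1 - 2 / (y * (y - 1))) ≤ U m * (1 - 2 / (y * (y - 1))) :=
            mul_le_mul_of_nonneg_right ih h3
        _ ≤ U m * u (N1 + m + 1) := mul_le_mul_of_nonneg_left h1 (h4.trans ih)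
  have hhalf : ∀ m, 1 / 2 ≤ U m := by
    intro m
    refine le_trans ?_ (hlow m)
    have hm : (0 : ℝ) ≤ m := Nat.cast_nonneg m
    have h1 : 1 ≤ ((N1 : ℝ) + m) / (N1 + m - 2) := by
      rw [one_le_div (by linarith)]; linarith
    have h2 : (1 : ℝ) / 2 ≤ ((N1 : ℝ) - 2) / N1 := by
      rw [div_le_div_iff₀ (by norm_num) (by linarith)]; linarith
    nlinarith
  have hanti : Antitone U := by
    apply antitone_nat_of_succ_le
    intro m
    rw [hsucc]
    have := hhalf m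
    calc U m * u (N1 + m + 1) ≤ U m * 1 := mul_le_mul_of_nonneg_left (hu1 _ (by omega)) (by linarith)
      _ = U m := mul_one _
  have hlim := tendsto_atTop_ciInf hanti ⟨1 / 2, by rintro _ ⟨m, rfl⟩; exact hhalf m⟩
  set L : ℝ := ⨅ m, U m with hL
  have hL0 : 1 / 2 ≤ L := le_ciInf hhalf
  set A : ℝ := ∏ p ∈ (Ioc 2 N1).filter Nat.Prime, rho β γ n p with hA
  have hA0 : 0 < A := by
    apply prod_pos
    intro p hp
    rw [mem_filter, mem_Ioc] at hp
    exact rho_pos β γ h3 n p hp.2 (by omega)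
  refine ⟨A * L, mul_pos hA0 (by linarith), ?_⟩
  have h1 : Tendsto (fun N => A * U (N - N1)) atTop (𝓝 (A * L)) :=
    (hlim.comp (tendsto_sub_atTop_nat N1)).const_mul A
  refine h1.congr' ?_
  filter_upwards [eventually_ge_atTop N1] with N hN
  have e : Ioc 2 N = Ioc 2 N1 ∪ Ioc N1 N := (Ioc_union_Ioc_eq_Ioc (by omega) hN).symm
  rw [e, filter_union, prod_union]
  · rw [hA]
    congr 1
    rw [hU]
    simp only
    rw [Nat.add_sub_cancel' hN, hu, prod_filter]
  · apply disjoint_filter_filter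
    rw [Finset.disjoint_left]
    intro p h1 h2
    rw [mem_Ioc] at h1 h2
    omega

/-- the factor at two of the singular series -/
noncomputable def f2 (β γ : ℤ) (n : ℕ) : ℝ := ((1 - 1 / ((2 : ℕ) : ℝ)) ^ 2)⁻¹ * (1 - (om2 β γ n 2 : ℝ) / (2 : ℕ))

lemma S2_split (β γ : ℤ) (n N : ℕ) (hN : 2 ≤ N) :
    S2 β γ n N = f2 β γ n * (PJ (Dn β γ n) 2 N * ∏ p ∈ (Ioc 2 N).filter Nat.Prime, rho β γ n p) := by
  classical
  have hS : (range (N + 1)).filter Nat.Prime = insert 2 ((Ioc 2 N).filter Nat.Prime) := by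
    ext p
    simp only [mem_insert, mem_filter, mem_range, mem_Ioc]
    constructor
    · rintro ⟨h1, h2⟩
      have := h2.two_le
      by_cases h3 : p = 2
      · exact Or.inl h3
      · exact Or.inr ⟨by omega, h2⟩
    · rintro (rfl | ⟨h1, h2⟩)
      · exact ⟨by omega, Nat.prime_two⟩
      · exact ⟨by omega, h2⟩
  unfold S2 PJ
  rw [hS, prod_insert (by rw [mem_filter, mem_Ioc]; omega), ← prod_mul_distrib]
  congr 1
  apply prod_congr rfl
  intro p hp
  rw [mem_filter, mem_Ioc] at hp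
  exact fac_rho β γ n p hp.2 (by omega)

lemma f2_odd (β γ : ℤ) (hpar : Odd (β + γ)) (n : ℕ) (hn : Odd n) : f2 β γ n = 2 := by
  unfold f2
  have h : om2 β γ n 2 = 1 := by
    unfold om2
    have e : (range 2).filter (fun r : ℕ => ((2 : ℕ) : ℤ) ∣ (r : ℤ) * ((n : ℤ) - ((r : ℤ) ^ 2 + β * r + γ))) = {0} := by
      ext r
      simp only [mem_filter, mem_range, mem_singleton]
      constructor
      · rintro ⟨h1, h2⟩
        interval_cases r
        · rfl
        · exfalso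
          obtain ⟨m, hm⟩ := hpar
          obtain ⟨l, hl⟩ := hn
          push_cast at h2
          subst hl
          push_cast at h2
          omega
      · rintro rfl
        exact ⟨by norm_num, by simp⟩
    rw [e, card_singleton]
  rw [h]; norm_num

/-- the singular series converges to a positive number -/
theorem S2_tendsto (β γ : ℤ) (h3 : ¬ (3 : ℤ) ∣ β) (hpar : Odd (β + γ)) (n : ℕ) (hn : Odd n) (hnγ : (n : ℤ) ≠ γ)
    (hD : ¬ IsSquare (Dn β γ n)) : ∃ S : ℝ, 0 < S ∧ Tendsto (S2 β γ n) atTop (𝓝 S) := by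
  obtain ⟨K, hK0, hK⟩ := PJ_tendsto (Dn β γ n) hD 2 le_rfl
  obtain ⟨R, hR0, hR⟩ := rho_tendsto β γ h3 n hnγ
  refine ⟨2 * (K * R), by positivity, ?_⟩
  refine ((hK.mul hR).const_mul 2).congr' ?_
  filter_upwards [eventually_ge_atTop 2] with N hN
  rw [S2_split β γ n N hN, f2_odd β γ hpar n hn]

/-- comparison with the cut series -/
theorem S2_le (β γ : ℤ) (h3 : ¬ (3 : ℤ) ∣ β) (hpar : Odd (β + γ)) (n : ℕ) (hn : Odd n) (hnγ : (n : ℤ) ≠ γ)
    (z Y : ℕ) (hz : 2 ≤ z) (hY : ((n : ℤ) - γ).natAbs ≤ Y) (ε : ℝ)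
    (hSJ : ∀ᶠ N in atTop, |SJ (Dn β γ n) z N| ≤ ε)
    (hdiv : ∑ p ∈ (PY z Y).filter (fun p : ℕ => (p : ℤ) ∣ 1 * (n : ℤ) - γ), 1 / (p : ℝ) ≤ ε)
    (S : ℝ) (hS : Tendsto (S2 β γ n) atTop (𝓝 S)) : S ≤ S2 β γ n z * Real.exp (3 * ε + 1 / z) := by
  classical
  apply le_of_tendsto hS
  filter_upwards [hSJ, eventually_ge_atTop (max z Y)] with N h1 hN
  have hzN : z ≤ N := (le_max_left _ _).trans hN
  rw [S2_split β γ n N (by omega), S2_split β γ n z hz, f2_odd β γ hpar n hn, PJ_split (Dn β γ n) z N hz hzN]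
  have e : Ioc 2 N = Ioc 2 z ∪ Ioc z N := (Ioc_union_Ioc_eq_Ioc hz hzN).symm
  have hsplit : ∏ p ∈ (Ioc 2 N).filter Nat.Prime, rho β γ n p =
      (∏ p ∈ (Ioc 2 z).filter Nat.Prime, rho β γ n p) * ∏ p ∈ (Ioc z N).filter Nat.Prime, rho β γ n p := by
    rw [e, filter_union, prod_union]
    apply disjoint_filter_filter
    rw [Finset.disjoint_left]
    intro p h1 h2
    rw [mem_Ioc] at h1 h2
    omega
  have hrz : 0 < ∏ p ∈ (Ioc 2 z).filter Nat.Prime, rho β γ n p := by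
    apply prod_pos
    intro p hp
    rw [mem_filter, mem_Ioc] at hp
    exact rho_pos β γ h3 n p hp.2 (by omega)
  have htail : ∏ p ∈ (Ioc z N).filter Nat.Prime, rho β γ n p ≤ Real.exp (2 * ε) := by
    have h2 : ∏ p ∈ (Ioc z N).filter Nat.Prime, rho β γ n p ≤
        ∏ p ∈ (Ioc z N).filter Nat.Prime, Real.exp (if (p : ℤ) ∣ 1 * (n : ℤ) - γ then 2 / (p : ℝ) else 0) := by
      apply Finset.prod_le_prod
      · intro p hp
        rw [mem_filter, mem_Ioc] at hp
        exact (rho_pos β γ h3 n p hp.2 (by omega)).le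
      · intro p hp
        rw [mem_filter, mem_Ioc] at hp
        rw [one_mul]
        split_ifs with hd
        · unfold rho
          rw [if_pos hd]
          have hpr : (3 : ℝ) ≤ p := by exact_mod_cast (by omega : 3 ≤ p)
          have h5 := Real.add_one_le_exp (2 / (p : ℝ))
          refine le_trans ?_ h5
          rw [div_le_iff₀ (by linarith)]
          have hp0 : (p : ℝ) ≠ 0 := by positivity
          have : (2 / (p : ℝ) + 1) * (p - 1) = p + 1 - 2 / p := by field_simp; ring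
          rw [this]
          have h6 : 2 / (p : ℝ) ≤ 1 := by
            rw [div_le_one (by positivity)]; linarith
          linarith
        · rw [Real.exp_zero]
          exact rho_le β γ n p (by omega) hd
    refine h2.trans ?_
    rw [← Real.exp_sum, Real.exp_le_exp, ← sum_filter, filter_filter]
    have h3' : ∑ p ∈ (Ioc z N).filter (fun p : ℕ => p.Prime ∧ (p : ℤ) ∣ 1 * (n : ℤ) - γ), 2 / (p : ℝ) ≤
        ∑ p ∈ (PY z Y).filter (fun p : ℕ => (p : ℤ) ∣ 1 * (n : ℤ) - γ), 2 / (p : ℝ) := by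
      apply sum_le_sum_of_subset_of_nonneg
      · intro p hp
        rw [mem_filter, mem_Ioc] at hp
        unfold PY
        rw [mem_filter, mem_filter, mem_Ioc]
        refine ⟨⟨⟨hp.1.1, ?_⟩, hp.2.1⟩, hp.2.2⟩
        have hd := hp.2.2
        rw [one_mul] at hd
        have h4 : p ∣ ((n : ℤ) - γ).natAbs := Int.natCast_dvd.1 hd
        exact (Nat.le_of_dvd (Int.natAbs_pos.2 (sub_ne_zero.2 hnγ)) h4).trans hY
      · intro p _ _; positivity
    refine h3'.trans ?_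
    have e2 : ∑ p ∈ (PY z Y).filter (fun p : ℕ => (p : ℤ) ∣ 1 * (n : ℤ) - γ), 2 / (p : ℝ) =
        2 * ∑ p ∈ (PY z Y).filter (fun p : ℕ => (p : ℤ) ∣ 1 * (n : ℤ) - γ), 1 / (p : ℝ) := by
      rw [mul_sum]
      apply sum_congr rfl
      intro p _; ring
    rw [e2]
    linarith
  have hPJ := PJ_le (Dn β γ n) z N hz hzN
  have hPJ2 : PJ (Dn β γ n) z N ≤ Real.exp (ε + 1 / z) := by
    refine hPJ.trans (Real.exp_le_exp.2 ?_)
    linarith
  have hP0 := PJ_pos (Dn β γ n) z N hz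
  have hP2 := PJ_pos (Dn β γ n) 2 z le_rfl
  rw [hsplit]
  set r1 := ∏ p ∈ (Ioc 2 z).filter Nat.Prime, rho β γ n p with hr1
  set r2 := ∏ p ∈ (Ioc z N).filter Nat.Prime, rho β γ n p with hr2
  have hr20 : 0 ≤ r2 := by
    rw [hr2]
    apply prod_nonneg
    intro p hp
    rw [mem_filter, mem_Ioc] at hp
    exact (rho_pos β γ h3 n p hp.2 (by omega)).le
  calc 2 * (PJ (Dn β γ n) 2 z * PJ (Dn β γ n) z N * (r1 * r2)) =
      2 * (PJ (Dn β γ n) 2 z * r1) * (PJ (Dn β γ n) z N * r2) := by ring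
    _ ≤ 2 * (PJ (Dn β γ n) 2 z * r1) * (Real.exp (ε + 1 / z) * Real.exp (2 * ε)) := by gcongr
    _ = 2 * (PJ (Dn β γ n) 2 z * r1) * Real.exp (3 * ε + 1 / z) := by
        rw [← Real.exp_add]; congr 2; ring

end Pool.Agent.W218.PG
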