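import Mathlib
import Pool.Agent.W218.PG.QP

set_option autoImplicit false

/-! The number of representations `n = f(q) + p` with small primes `q`. -/

namespace Pool.Agent.W218.PG

open Finset Filter Topology Pool.Agent.W218.PF
open Pool.Agent.W468.ConjF (PJ SJ nr nr_odd PJ_le PJ_tendsto PJ_pos factor_pos js_abs)

/-- the number of primes `q ≤ x` with `n - f(q)` prime, `f = X^2 + β X + γ` -/
def RR (β γ : ℤ) (n x : ℕ) : ℕ :=
  ((Icc 1 x).filter (fun q : ℕ => q.Prime ∧ ((n : ℤ) - ((q : ℤ) ^ 2 + β * q + γ)).toNat.Prime)).card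

lemma cntQ_RR (β γ : ℤ) (b : Fin 1 → ℕ) (x : ℕ) : cntQ (fun _ : Fin 1 => Fm β γ) b 2 x ≤ RR β γ (b 0) x := by
  unfold cntQ RR
  apply card_le_card
  intro q hq
  rw [mem_filter, mem_Ioc] at hq
  rw [mem_filter, mem_Icc]
  refine ⟨⟨by omega, hq.1.2⟩, hq.2.1, ?_⟩
  have := hq.2.2 0
  rw [Fm_eval] at this
  have e : (b 0 : ℤ) - ((q : ℤ) ^ 2 + β * q + γ) = -((q : ℤ) ^ 2 + β * q + γ) + b 0 := by ring
  rwa [e]

/-- few square discriminants -/
lemma few_squares2 (β γ : ℤ) (M : ℕ) :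
    (((Ioc M (2 * M)).filter (fun n : ℕ => IsSquare (Dn β γ n))).card) ≤
      Nat.sqrt (β.natAbs ^ 2 + 4 * γ.natAbs + 8 * M) + 1 := by
  classical
  rw [← card_range (Nat.sqrt (β.natAbs ^ 2 + 4 * γ.natAbs + 8 * M) + 1)]
  apply card_le_card_of_injOn (fun b : ℕ => Nat.sqrt (Dn β γ b).toNat)
  · intro b hb
    rw [mem_coe, mem_filter, mem_Ioc] at hb
    rw [mem_coe, mem_range]
    apply Nat.lt_succ_of_le
    apply Nat.sqrt_le_sqrt
    rw [Int.toNat_le]
    push_cast
    have h1 : (b : ℤ) ≤ 2 * M := by exact_mod_cast hb.1.2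
    rw [sq_abs]
    unfold Dn
    have h2 := neg_abs_le γ
    linarith
  · intro b hb c hc h
    rw [mem_coe, mem_filter, mem_Ioc] at hb hc
    obtain ⟨-, m, hm⟩ := hb
    obtain ⟨-, n, hn⟩ := hc
    simp only at h
    have e1 : (m * m).toNat = m.natAbs * m.natAbs := by
      have h := mul_self_nonneg m
      zify
      rw [Int.toNat_of_nonneg h, abs_mul_abs_self]
    have e2' : (n * n).toNat = n.natAbs * n.natAbs := by
      have h := mul_self_nonneg n
      zify
      rw [Int.toNat_of_nonneg h, abs_mul_abs_self]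
    rw [hm, hn, e1, e2', Nat.sqrt_eq, Nat.sqrt_eq] at h
    have h3 : m * m = n * n := by
      rw [← Int.natAbs_mul_self, ← Int.natAbs_mul_self (a := n), h]
    unfold Dn at hm hn
    have h4 : (b : ℤ) = c := by linarith
    exact_mod_cast h4

open Classical in
theorem quadP (β γ : ℤ) (h3 : ¬ (3 : ℤ) ∣ β) (hpar : Odd (β + γ)) (c : ℝ) (hc : 0 < c) (θ : ℝ) (hθ : θ < 1) :
    ∃ κ : ℝ, 0 < κ ∧ ∃ x0 : ℕ, ∀ x : ℕ, x0 ≤ x → ∀ M : ℕ, x ≤ M → c * Real.log M ≤ x / Real.log x →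
    (∀ t : ℕ, 1 ≤ t → t ≤ x → |(((t : ℤ) ^ 2 + β * t + γ : ℤ) : ℝ)| ≤ κ * M) →
    κ * M ≤ (((Ioc M (2 * M)).filter (fun n : ℕ => Odd n ∧ ¬ IsSquare (Dn β γ n) ∧
      ∃ S : ℝ, 0 < S ∧ Tendsto (S2 β γ n) atTop (𝓝 S) ∧
        θ * S * (x / (Real.log x * Real.log M)) ≤ RR β γ n x ∧
        κ * (x / (Real.log x * Real.log M)) ≤ RR β γ n x)).card : ℝ) := by
  set θ₀ : ℝ := max θ 0 with hθ₀
  have hθ0 : 0 ≤ θ₀ := le_max_right _ _
  have hθ1 : θ₀ < 1 := max_lt hθ one_pos
  have hθθ : θ ≤ θ₀ := le_max_left _ _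
  obtain ⟨η, hη, hmain⟩ := mainP2 1 le_rfl (fun _ => Fm β γ) (fun _ => by rw [Fm_deg]; norm_num) c hc
    ((1 + θ₀) / 2) (by linarith)
  set δ : ℝ := (1 - θ₀) / 16 with hδ
  have hδ0 : 0 < δ := by rw [hδ]; linarith
  have hδ1 : δ ≤ 1 / 16 := by rw [hδ]; linarith
  obtain ⟨z₀, hz₀⟩ := good_most2 (-1) (-β) (by norm_num) δ (η / 24) hδ0 (by positivity)
  set z : ℕ := max (max z₀ 2) (max ⌈1 / δ⌉₊ ⌈64 / (η * δ)⌉₊) with hz
  have hz2 : 2 ≤ z := (le_max_right _ _).trans (le_max_left _ _)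
  have hz0 : (0 : ℝ) < z := by exact_mod_cast (by omega : 0 < z)
  have hzδ : 1 / (z : ℝ) ≤ δ := by
    have h1 : 1 / δ ≤ z := (Nat.le_ceil _).trans (by exact_mod_cast (le_max_left _ _).trans (le_max_right _ _))
    rw [div_le_iff₀ hδ0] at h1
    rw [div_le_iff₀ hz0]
    linarith
  have hzη : 64 / (η * δ) ≤ z := (Nat.le_ceil _).trans (by exact_mod_cast (le_max_right _ _).trans (le_max_right _ _))
  obtain ⟨H₀, hH₀⟩ := hz₀ z ((le_max_left _ _).trans (le_max_left _ _))
  obtain ⟨x₁, hmain⟩ := hmain z 2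
  set κ : ℝ := min (η / 4) (1 / 2) with hκ
  have hκ0 : 0 < κ := by positivity
  have hκη : κ ≤ η / 4 := min_le_left _ _
  have hκ2 : κ ≤ 1 / 2 := min_le_right _ _
  -- the logarithm is small
  obtain ⟨x₂, hx₂⟩ := eventually_atTop.1 ((Real.isLittleO_log_id_atTop.bound
    (show (0 : ℝ) < η * δ / 96 by positivity)).and (eventually_ge_atTop (max 1 (96 / (η * δ)))))
  refine ⟨κ, hκ0, max (max x₁ H₀) (max (max 6 (β.natAbs ^ 2 + 4 * γ.natAbs + 1)) (max ⌈(64 / η) ^ 2⌉₊ ⌈x₂⌉₊)), ?_⟩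
  intro x hx B hxB hcx hFB
  have hxx1 : x₁ ≤ x := ((le_max_left _ _).trans (le_max_left _ _)).trans hx
  have hxH : H₀ ≤ x := ((le_max_right _ _).trans (le_max_left _ _)).trans hx
  have hx6 : 6 ≤ x := (((le_max_left _ _).trans (le_max_left _ _)).trans (le_max_right _ _)).trans hx
  have hxβ : β.natAbs ^ 2 + 4 * γ.natAbs + 1 ≤ x :=
    (((le_max_right _ _).trans (le_max_left _ _)).trans (le_max_right _ _)).trans hx
  have hxη : ⌈(64 / η) ^ 2⌉₊ ≤ x :=
    (((le_max_left _ _).trans (le_max_right _ _)).trans (le_max_right _ _)).trans hx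
  have hxx2 : ⌈x₂⌉₊ ≤ x := (((le_max_right _ _).trans (le_max_right _ _)).trans (le_max_right _ _)).trans hx
  have hB6 : 6 ≤ B := hx6.trans hxB
  have hB6r : (6 : ℝ) ≤ B := by exact_mod_cast hB6
  have hB0 : (0 : ℝ) < B := by linarith
  have hlB : 0 < Real.log B := Real.log_pos (by linarith)
  have hx0 : (0 : ℝ) < x := by exact_mod_cast (by omega : 0 < x)
  have hlx : 0 < Real.log x := Real.log_pos (by exact_mod_cast (by omega : 1 < x))
  have hM := hmain x hxx1 B hxB (by rw [pow_one]; exact hcx) (by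
    intro i t h1 h2
    rw [Fm_eval]
    have h4 := hFB t h1 h2
    push_cast at h4 ⊢
    rw [abs_neg]
    refine h4.trans ?_
    apply mul_le_mul_of_nonneg_right _ hB0.le
    linarith)
  obtain ⟨E, hEc, hE⟩ := hH₀ (3 * B) (by omega)
  -- the good numbers
  set S := (Ioc B (2 * B)).filter (fun b : ℕ =>
      (1 + θ₀) / 2 * S2 β γ b z * (x / (Real.log x * Real.log B)) ≤ cntQ (fun _ : Fin 1 => Fm β γ) (fun _ => b) 2 x ∧
      η * (x / (Real.log x * Real.log B)) ≤ cntQ (fun _ : Fin 1 => Fm β γ) (fun _ => b) 2 x) with hS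
  have hScard : η * B ≤ (S.card : ℝ) := by
    rw [pow_one] at hM
    refine hM.trans ?_
    have : ((Fintype.piFinset (fun _ : Fin 1 => Ioc B (2 * B))).filter (fun b =>
      (1 + θ₀) / 2 * EP (fun _ : Fin 1 => Fm β γ) b z * (x / (Real.log x * Real.log B ^ 1)) ≤
        cntQ (fun _ : Fin 1 => Fm β γ) b 2 x ∧
      η * (x / (Real.log x * Real.log B ^ 1)) ≤ cntQ (fun _ : Fin 1 => Fm β γ) b 2 x)).card ≤ S.card := by
      apply card_le_card_of_injOn (fun b => b 0)
      · intro b hb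
        rw [mem_coe, mem_filter, Fintype.mem_piFinset] at hb
        obtain ⟨h1, h2, h3⟩ := hb
        have hb0 : b = fun _ => b 0 := by funext i; rw [Subsingleton.elim i 0]
        rw [pow_one] at h2 h3
        rw [mem_coe, hS, mem_filter]
        refine ⟨h1 0, ?_, ?_⟩
        · rw [hb0, EP_S2] at h2
          exact h2
        · rw [hb0] at h3
          exact h3
      · intro b _ b' _ h
        funext i
        rw [Subsingleton.elim i 0]
        exact h
    exact_mod_cast this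
  -- squares
  set Sq := (Ioc B (2 * B)).filter (fun b : ℕ => IsSquare (Dn β γ b)) with hSq
  have hSqc : (Sq.card : ℝ) ≤ η / 4 * B := by
    have h1 : (Sq.card : ℝ) ≤ ((Nat.sqrt (β.natAbs ^ 2 + 4 * γ.natAbs + 8 * B) + 1 : ℕ) : ℝ) := by
      exact_mod_cast few_squares2 β γ B
    refine h1.trans ?_
    set y : ℝ := Real.sqrt B with hy
    have hy2 : y ^ 2 = B := Real.sq_sqrt hB0.le
    have hy0 : 0 ≤ y := Real.sqrt_nonneg _
    have h2 : ((Nat.sqrt (β.natAbs ^ 2 + 4 * γ.natAbs + 8 * B) : ℕ) : ℝ) ≤ 3 * y := by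
      have h3 : (Nat.sqrt (β.natAbs ^ 2 + 4 * γ.natAbs + 8 * B)) ^ 2 ≤ β.natAbs ^ 2 + 4 * γ.natAbs + 8 * B :=
        Nat.sqrt_le' _
      have h4 : (Nat.sqrt (β.natAbs ^ 2 + 4 * γ.natAbs + 8 * B)) ^ 2 ≤ 9 * B := by omega
      have h5 : ((Nat.sqrt (β.natAbs ^ 2 + 4 * γ.natAbs + 8 * B) : ℕ) : ℝ) ^ 2 ≤ (3 * y) ^ 2 := by
        calc ((Nat.sqrt (β.natAbs ^ 2 + 4 * γ.natAbs + 8 * B) : ℕ) : ℝ) ^ 2 ≤ ((9 * B : ℕ) : ℝ) := by exact_mod_cast h4
          _ = (3 * y) ^ 2 := by rw [mul_pow, hy2]; push_cast; norm_num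
      exact (pow_le_pow_iff_left₀ (Nat.cast_nonneg _) (by positivity) (by norm_num)).1 h5
    have hy1 : 1 ≤ y := by
      rw [hy]; exact Real.one_le_sqrt.2 (by linarith)
    have h6 : 64 / η ≤ y := by
      have h7 : (64 / η) ^ 2 ≤ B := (Nat.le_ceil _).trans (by exact_mod_cast hxη.trans hxB)
      rw [hy]
      exact Real.le_sqrt_of_sq_le h7
    have h8 : 64 ≤ η * y := by
      rw [div_le_iff₀ hη] at h6; linarith
    push_cast
    calc ((Nat.sqrt (β.natAbs ^ 2 + 4 * γ.natAbs + 8 * B) : ℕ) : ℝ) + 1 ≤ 4 * y := by linarith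
      _ ≤ (η * y) / 4 * y := by nlinarith
      _ = η / 4 * y ^ 2 := by ring
      _ = η / 4 * B := by rw [hy2]
  -- exceptional set of the product
  set E' := (Ioc B (2 * B)).filter (fun b : ℕ => ((b : ℤ) - γ).toNat ∈ E) with hE'
  have hγB : γ.natAbs < B := by omega
  have hE'c : (E'.card : ℝ) ≤ η / 8 * B := by
    have h1 : E'.card ≤ E.card := by
      apply card_le_card_of_injOn (fun b : ℕ => ((b : ℤ) - γ).toNat)
      · intro b hb
        rw [mem_coe, hE', mem_filter] at hb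
        exact hb.2
      · intro b hb b' hb' h
        rw [mem_coe, hE', mem_filter, mem_Ioc] at hb hb'
        simp only at h
        omega
    have h2 : (E'.card : ℝ) ≤ E.card := by exact_mod_cast h1
    refine h2.trans (hEc.trans (le_of_eq ?_))
    push_cast; ring
  -- prime factors of n - γ
  set Y : ℕ := 3 * B with hY
  set W : ℕ → ℝ := fun v => ∑ p ∈ (PY z Y).filter (fun p : ℕ => (p : ℤ) ∣ 1 * v - γ), 1 / (p : ℝ) with hW
  set Bd := (Ioc B (2 * B)).filter (fun b : ℕ => δ < W b) with hBd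
  have hBdc : (Bd.card : ℝ) ≤ η / 8 * B := by
    have h1 := div_sum z Y B 1 γ (by omega) (by norm_num) (by
      have : (1 : ℤ).natAbs = 1 := rfl
      omega)
    have h2 : δ * (Bd.card : ℝ) ≤ ∑ v ∈ Ioc B (2 * B), W v := by
      calc δ * (Bd.card : ℝ) = ∑ _v ∈ Bd, δ := by rw [sum_const, nsmul_eq_mul]; ring
        _ ≤ ∑ v ∈ Bd, W v := sum_le_sum fun v hv => by
            rw [hBd, mem_filter] at hv; exact hv.2.le
        _ ≤ ∑ v ∈ Ioc B (2 * B), W v := by
            apply sum_le_sum_of_subset_of_nonneg (filter_subset _ _)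
            intro v _ _
            rw [hW]
            exact sum_nonneg fun p _ => by positivity
    have h4 : 2 * (B : ℝ) / z ≤ η * δ / 32 * B := by
      rw [div_le_iff₀ hz0]
      have h5 : 64 ≤ z * (η * δ) := by rwa [div_le_iff₀ (by positivity)] at hzη
      nlinarith
    have hY0 : (Y : ℝ) = 3 * B := by rw [hY]; push_cast; ring
    have hx2B : x₂ ≤ (Y : ℝ) := by
      have h6 : x₂ ≤ x := (Nat.le_ceil _).trans (by exact_mod_cast hxx2)
      have h7 : (x : ℝ) ≤ B := by exact_mod_cast hxB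
      rw [hY0]; linarith
    obtain ⟨h8, h9⟩ := hx₂ Y hx2B
    rw [id, Real.norm_eq_abs, Real.norm_eq_abs, abs_of_pos (by rw [hY0]; positivity : (0 : ℝ) < Y)] at h8
    have h10 : Real.log Y ≤ η * δ / 96 * Y := (le_abs_self _).trans h8
    have h11 : (1 : ℝ) ≤ η * δ / 96 * Y := by
      have h12 := (le_max_right _ _).trans h9
      rw [div_le_iff₀ (by positivity)] at h12
      linarith
    rw [hY0] at h10 h11
    have h14 : δ * (Bd.card : ℝ) ≤ δ * (η * B / 8) := by
      refine h2.trans (h1.trans ?_)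
      rw [hY0]
      have h15 : 0 < η * δ * B := by positivity
      linarith
    have h15 := le_of_mul_le_mul_left h14 hδ0
    linarith
  have hdiff : κ * B ≤ ((S \ (Sq ∪ (E' ∪ Bd))).card : ℝ) := by
    have h1 : S.card ≤ (S \ (Sq ∪ (E' ∪ Bd))).card + (Sq ∪ (E' ∪ Bd)).card := by
      have := card_le_card_sdiff_add_card (s := S) (t := Sq ∪ (E' ∪ Bd))
      omega
    have h2 : (Sq ∪ (E' ∪ Bd)).card ≤ Sq.card + (E'.card + Bd.card) :=
      (card_union_le _ _).trans (Nat.add_le_add_left (card_union_le _ _) _)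
    have h3 : (S.card : ℝ) ≤ ((S \ (Sq ∪ (E' ∪ Bd))).card : ℝ) + ((Sq.card : ℝ) + ((E'.card : ℝ) + (Bd.card : ℝ))) := by
      exact_mod_cast h1.trans (by omega)
    nlinarith
  refine hdiff.trans ?_
  have hsub : S \ (Sq ∪ (E' ∪ Bd)) ⊆ (Ioc B (2 * B)).filter (fun n : ℕ => Odd n ∧ ¬ IsSquare (Dn β γ n) ∧
      ∃ S : ℝ, 0 < S ∧ Tendsto (S2 β γ n) atTop (𝓝 S) ∧
        θ * S * (x / (Real.log x * Real.log B)) ≤ RR β γ n x ∧
        κ * (x / (Real.log x * Real.log B)) ≤ RR β γ n x) := by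
    intro b hb
    rw [Finset.mem_sdiff, mem_union, mem_union, not_or, not_or, hS, mem_filter, hSq, mem_filter, hE', mem_filter,
      hBd, mem_filter] at hb
    obtain ⟨⟨hbI, hb1, hb2⟩, hb3, hb4, hb5⟩ := hb
    have hbI' := mem_Ioc.1 hbI
    have hD : ¬ IsSquare (Dn β γ b) := fun h => hb3 ⟨hbI, h⟩
    have hbE : ((b : ℤ) - γ).toNat ∉ E := fun h => hb4 ⟨hbI, h⟩
    have hbW : W b ≤ δ := by
      by_contra hcon
      exact hb5 ⟨hbI, not_le.1 hcon⟩
    have hxl : (0 : ℝ) < x / (Real.log x * Real.log B) := by positivity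
    -- parity
    have hodd : Odd b := by
      by_contra hev
      have hpos : (0 : ℝ) < cntQ (fun _ : Fin 1 => Fm β γ) (fun _ => b) 2 x := lt_of_lt_of_le (by positivity) hb2
      have hpos' : 0 < cntQ (fun _ : Fin 1 => Fm β γ) (fun _ => b) 2 x := by exact_mod_cast hpos
      unfold cntQ at hpos'
      rw [card_pos] at hpos'
      obtain ⟨t, ht⟩ := hpos'
      rw [mem_filter, mem_Ioc] at ht
      obtain ⟨⟨ht1, ht2⟩, htp, ht3⟩ := ht
      have ht3 := ht3 0
      rw [Fm_eval] at ht3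
      have htodd : Odd (t : ℤ) := by
        have := htp.odd_of_ne_two (by omega)
        exact_mod_cast this
      set v : ℤ := -((t : ℤ) ^ 2 + β * t + γ) + b with hv
      have hbev : Even (b : ℤ) := by
        have : Even b := Nat.not_odd_iff_even.1 hev
        exact_mod_cast this
      have hev : (2 : ℤ) ∣ v := by
        obtain ⟨m, hm⟩ := htodd
        obtain ⟨l, hl⟩ := hbev
        obtain ⟨r, hr⟩ := hpar
        rw [hv, hm, hl]
        exact ⟨-(2 * m ^ 2 + 2 * m + β * m + r + 1) + l, by linear_combination -hr⟩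
      have h2v : 2 ∣ v.toNat := by
        have h3 : 0 < v := by
          by_contra h4
          have h5 : v.toNat = 0 := Int.toNat_of_nonpos (by omega)
          rw [h5] at ht3
          exact Nat.not_prime_zero ht3
        have h4 : ((2 : ℕ) : ℤ) ∣ ((v.toNat : ℕ) : ℤ) := by
          rw [Int.toNat_of_nonneg h3.le]; exact_mod_cast hev
        exact_mod_cast h4
      have h2eq : v.toNat = 2 := by
        rcases (Nat.dvd_prime ht3).1 h2v with h | h
        · omega
        · exact h.symm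
      have hv2 : v = 2 := by omega
      have h6 := (abs_le.1 (hFB t (by omega) ht2)).2
      have h7 : (((t : ℤ) ^ 2 + β * t + γ : ℤ) : ℝ) = b - 2 := by
        have : (t : ℤ) ^ 2 + β * t + γ = b - 2 := by linarith
        rw [this]; push_cast; ring
      rw [h7] at h6
      have h8 : (B : ℝ) < b := by exact_mod_cast hbI'.1
      have h9 : κ * B ≤ 1 / 2 * B := mul_le_mul_of_nonneg_right hκ2 hB0.le
      linarith
    have hbγ : (b : ℤ) ≠ γ := by omega
    obtain ⟨T, hT0, hT⟩ := S2_tendsto β γ h3 hpar b hodd hbγ hD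
    have hev := hE ((b : ℤ) - γ).toNat (by rw [mem_Icc]; omega) hbE
    have hDe : (-β) ^ 2 - 4 * (-1) * ((((b : ℤ) - γ).toNat : ℕ) : ℤ) = Dn β γ b := by
      rw [Int.toNat_of_nonneg (by omega)]
      unfold Dn
      ring
    rw [hDe] at hev
    have hev := hev hD
    have hTle := S2_le β γ h3 hpar b hodd hbγ z Y hz2 (by omega) δ hev hbW T hT
    rw [mem_filter]
    refine ⟨hbI, hodd, hD, T, hT0, hT, ?_, ?_⟩
    · refine le_trans ?_ (hb1.trans (by exact_mod_cast cntQ_RR β γ (fun _ => b) x))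
      have hexp : Real.exp (3 * δ + 1 / z) ≤ 1 + 2 * (4 * δ) := by
        refine le_trans (Real.exp_le_exp.2 (by linarith)) (exp_le_lin (by linarith) (by linarith) : Real.exp (4 * δ) ≤ _)
      have hSz : 0 ≤ S2 β γ b z := by
        by_contra hneg
        have : S2 β γ b z * Real.exp (3 * δ + 1 / z) < 0 := mul_neg_of_neg_of_pos (not_le.1 hneg) (Real.exp_pos _)
        linarith
      have h1 : θ * T ≤ (1 + θ₀) / 2 * S2 β γ b z := by
        calc θ * T ≤ θ₀ * T := mul_le_mul_of_nonneg_right hθθ hT0.le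
          _ ≤ θ₀ * (S2 β γ b z * (1 + 2 * (4 * δ))) := by
              apply mul_le_mul_of_nonneg_left _ hθ0
              exact hTle.trans (mul_le_mul_of_nonneg_left hexp hSz)
          _ = (θ₀ * (1 + 2 * (4 * δ))) * S2 β γ b z := by ring
          _ ≤ (1 + θ₀) / 2 * S2 β γ b z := by
              apply mul_le_mul_of_nonneg_right _ hSz
              rw [hδ]
              nlinarith
      exact mul_le_mul_of_nonneg_right h1 hxl.le
    · refine le_trans ?_ (hb2.trans (by exact_mod_cast cntQ_RR β γ (fun _ => b) x))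
      apply mul_le_mul_of_nonneg_right _ hxl.le
      linarith
  exact_mod_cast card_le_card hsub

end Pool.Agent.W218.PG
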