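import Mathlib
import Pool.Agent.W218.PG.Poly
import Pool.Agent.W218.PF.Main4

set_option autoImplicit false

/-! Prime tuples `t + h_1, ..., t + h_r` with `t` in an arbitrary finite set of integers, for many `h`. -/

namespace Pool.Agent.W218.PG

open Finset Pool.Agent.Erdos456 Pool.Agent.Erdos456.Mert Pool.Agent.W218.HF Pool.Agent.W218.LF Pool.Agent.W218.PF

/-- the number of `t ∈ T` with all `t + h_i` prime -/
def PT {r : ℕ} (T : Finset ℤ) (h : Fin r → ℕ) : ℕ := (T.filter (fun t : ℤ => ∀ i, (t + h i).toNat.Prime)).card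

/-- the number of `t ∈ T` for which no `t + h_i` has a prime factor `≤ z` -/
def RT {r : ℕ} (z : ℕ) (T : Finset ℤ) (h : Fin r → ℕ) : ℕ :=
  (T.filter (fun t : ℤ => ∀ i, ∀ p ≤ z, p.Prime → ¬ ((p : ℤ) ∣ t + h i))).card

open Classical in
theorem univ_sets (r : ℕ) (hr : 1 ≤ r) (c C : ℝ) (hc : 0 < c) (hC : 0 ≤ C) (θ : ℝ) (hθ : θ < 1) :
    ∃ κ : ℝ, 0 < κ ∧ ∃ H₀ : ℕ, ∀ H : ℕ, H₀ ≤ H → ∀ z : ℕ, (Pz z : ℝ) ≤ κ * H →
      ∀ T : Finset ℤ, (∀ t ∈ T, |(t : ℝ)| ≤ κ * H) → c * Real.log H ^ r ≤ T.card →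
      ∑ s ∈ T, ∑ t ∈ T, GG (s - t).natAbs ^ (2 * r) ≤ C * (T.card : ℝ) ^ 2 →
      κ * H ^ r ≤ (((Fintype.piFinset (fun _ : Fin r => Ioc H (2 * H))).filter (fun h =>
        θ * (RT z T h / Wz z ^ r) / Real.log H ^ r ≤ PT T h ∧
        κ * T.card / Real.log H ^ r ≤ PT T h)).card : ℝ) := by
  obtain ⟨η, hη, B₀, hmain⟩ := main4 r hr (1 / c) C (by positivity) hC θ hθ
  refine ⟨η, hη, B₀, fun H hH z hz T hT hTc hTm => ?_⟩
  -- shift
  obtain ⟨S, hS⟩ : ∃ S : ℕ, ∀ t ∈ T, -(S : ℤ) ≤ t := by
    refine ⟨∑ t ∈ T, t.natAbs, fun t ht => ?_⟩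
    have h1 : t.natAbs ≤ ∑ t ∈ T, t.natAbs := single_le_sum (f := fun t : ℤ => t.natAbs) (fun _ _ => Nat.zero_le _) ht
    omega
  set T' : Finset ℕ := T.image (fun t : ℤ => (t + S).toNat) with hT'
  have hinj : Set.InjOn (fun t : ℤ => (t + S).toNat) T := by
    intro s hs t ht hst
    have h1 := hS s hs
    have h2 := hS t ht
    simp only at hst
    omega
  have hcard : T'.card = T.card := card_image_of_injOn hinj
  set G : Fin r → ℕ → ℤ := fun _ t => (t : ℤ) - S with hG
  have hback : ∀ t ∈ T, (((t + S).toNat : ℕ) : ℤ) - S = t := by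
    intro t ht
    have := hS t ht
    omega
  have hM := hmain H hH z hz G T'
    (by
      intro i t ht
      rw [hT', mem_image] at ht
      obtain ⟨s, hs, rfl⟩ := ht
      rw [hG]
      simp only
      rw [hback s hs]
      exact hT s hs)
    (by
      intro t₁ _ t₂ _ hne i h
      rw [hG] at h
      simp only at h
      apply hne
      omega)
    (by
      intro i
      have e : ∑ t₁ ∈ T', ∑ t₂ ∈ T', GG (G i t₁ - G i t₂).natAbs ^ (2 * r) =
          ∑ s ∈ T, ∑ t ∈ T, GG (s - t).natAbs ^ (2 * r) := by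
        rw [hT', sum_image hinj]
        apply sum_congr rfl
        intro s hs
        rw [sum_image hinj]
        apply sum_congr rfl
        intro t ht
        rw [hG]
        simp only
        rw [hback s hs, hback t ht]
      rw [e, hcard]
      exact hTm)
    (by
      rw [hcard]
      calc Real.log H ^ r = 1 / c * (c * Real.log H ^ r) := by field_simp
        _ ≤ 1 / c * T.card := by gcongr)
  rw [hcard] at hM
  refine hM.trans ?_
  have e1 : ∀ h : Fin r → ℕ, primeS G h T' = PT T h := by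
    intro h
    unfold primeS PT
    symm
    rw [hT']
    have : (T.filter (fun t : ℤ => ∀ i, (t + h i).toNat.Prime)).image (fun t : ℤ => (t + S).toNat) =
        (T.image (fun t : ℤ => (t + S).toNat)).filter (fun t : ℕ => ∀ i, (G i t + h i).toNat.Prime) := by
      ext u
      simp only [mem_image, mem_filter]
      constructor
      · rintro ⟨t, ⟨ht, h1⟩, rfl⟩
        refine ⟨⟨t, ht, rfl⟩, fun i => ?_⟩
        rw [hG]
        simp only
        rw [hback t ht]
        exact h1 i
      · rintro ⟨⟨t, ht, rfl⟩, h1⟩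
        refine ⟨t, ⟨ht, fun i => ?_⟩, rfl⟩
        have := h1 i
        rw [hG] at this
        simp only at this
        rwa [hback t ht] at this
    rw [← this, card_image_of_injOn (hinj.mono (by intro t ht; exact (mem_filter.1 ht).1))]
  have e2 : ∀ h : Fin r → ℕ, roughS z G h T' = RT z T h := by
    intro h
    unfold roughS RT
    symm
    rw [hT']
    have : (T.filter (fun t : ℤ => ∀ i, ∀ p ≤ z, p.Prime → ¬ ((p : ℤ) ∣ t + h i))).image (fun t : ℤ => (t + S).toNat) =
        (T.image (fun t : ℤ => (t + S).toNat)).filter (fun t : ℕ => ∀ i, ∀ p ≤ z, p.Prime → ¬ ((p : ℤ) ∣ G i t + h i)) := by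
      ext u
      simp only [mem_image, mem_filter]
      constructor
      · rintro ⟨t, ⟨ht, h1⟩, rfl⟩
        refine ⟨⟨t, ht, rfl⟩, fun i => ?_⟩
        rw [hG]
        simp only
        rw [hback t ht]
        exact h1 i
      · rintro ⟨⟨t, ht, rfl⟩, h1⟩
        refine ⟨t, ⟨ht, fun i => ?_⟩, rfl⟩
        have := h1 i
        rw [hG] at this
        simp only at this
        rwa [hback t ht] at this
    rw [← this, card_image_of_injOn (hinj.mono (by intro t ht; exact (mem_filter.1 ht).1))]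
  apply le_of_eq
  congr 2
  apply filter_congr
  intro h _
  rw [e1, e2]

end Pool.Agent.W218.PG
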